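import Pool.Agent.H636R2.RT.Defs

/-!
# Task BL: extraction of Blaschke factors
-/

set_option autoImplicit false
open Filter Topology Metric
open scoped ComplexConjugate

namespace RtRt

/-- Blaschke factor -/
noncomputable def bl_B (w z : ℂ) : ℂ := (z - w) / (1 - conj w * z)

theorem bl_den (w z : ℂ) (hw : ‖w‖ < 1) (hz : ‖z‖ < 1) : (1 : ℂ) - conj w * z ≠ 0 := by
  intro h
  have h1 : ‖conj w * z‖ < 1 := by
    rw [norm_mul, RCLike.norm_conj]
    nlinarith [norm_nonneg w, norm_nonneg z]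
  have h2 : conj w * z = 1 := by
    have := sub_eq_zero.mp h
    exact this.symm
  rw [h2, norm_one] at h1
  exact lt_irrefl _ h1

theorem bl_lt (w z : ℂ) (hw : ‖w‖ < 1) (hz : ‖z‖ < 1) : ‖bl_B w z‖ < 1 := by
  have hd := bl_den w z hw hz
  unfold bl_B
  rw [norm_div, div_lt_one (norm_pos_iff.mpr hd)]
  have key : ‖(1 : ℂ) - conj w * z‖ ^ 2 - ‖z - w‖ ^ 2 = (1 - ‖w‖ ^ 2) * (1 - ‖z‖ ^ 2) := by
    rw [← Complex.normSq_eq_norm_sq, ← Complex.normSq_eq_norm_sq, ← Complex.normSq_eq_norm_sq,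
      ← Complex.normSq_eq_norm_sq]
    simp only [Complex.normSq_apply, Complex.sub_re, Complex.sub_im, Complex.mul_re,
      Complex.mul_im, Complex.conj_re, Complex.conj_im, Complex.one_re, Complex.one_im]
    ring
  have h1 : 0 < (1 - ‖w‖ ^ 2) * (1 - ‖z‖ ^ 2) := by
    apply mul_pos <;> nlinarith [norm_nonneg w, norm_nonneg z]
  have h2 : ‖z - w‖ ^ 2 < ‖(1 : ℂ) - conj w * z‖ ^ 2 := by linarith
  exact lt_of_pow_lt_pow_left₀ 2 (norm_nonneg _) h2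

theorem bl_inv (w z : ℂ) (hw : ‖w‖ < 1) (hz : ‖z‖ < 1) : bl_B (-w) (bl_B w z) = z := by
  have hd := bl_den w z hw hz
  have hd2 := bl_den w w hw hw
  have hd' : (1 : ℂ) - z * conj w ≠ 0 := by rwa [mul_comm]
  have hd2' : (1 : ℂ) - w * conj w ≠ 0 := by rwa [mul_comm]
  unfold bl_B
  have e1 : (z - w) / (1 - conj w * z) - -w = z * (1 - conj w * w) / (1 - conj w * z) := by
    field_simp
    ring
  have e2 : 1 - conj (-w) * ((z - w) / (1 - conj w * z)) = (1 - conj w * w) / (1 - conj w * z) := by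
    rw [map_neg]
    field_simp
    ring
  rw [e1, e2]
  field_simp

theorem bl_diff (w : ℂ) (hw : ‖w‖ < 1) : DifferentiableOn ℂ (bl_B w) (ball 0 1) := by
  intro z hz
  have hz' : ‖z‖ < 1 := by simpa using hz
  refine DifferentiableAt.differentiableWithinAt ?_
  unfold bl_B
  refine DifferentiableAt.div (by fun_prop) (by fun_prop) (bl_den w z hw hz')

/-- Schwarz–Pick in the form needed -/
theorem bl_pick (E : ℂ → ℂ) (hE : DifferentiableOn ℂ E (ball 0 1))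
    (hb : ∀ z ∈ ball (0 : ℂ) 1, ‖E z‖ ≤ 1) (w : ℂ) (hw : ‖w‖ < 1) (h0 : E w = 0) (z : ℂ)
    (hz : ‖z‖ < 1) : ‖E z‖ ≤ ‖bl_B w z‖ := by
  have hnw : ‖-w‖ < 1 := by rwa [norm_neg]
  have hmaps : Set.MapsTo (bl_B (-w)) (ball 0 1) (ball 0 1) := by
    intro u hu
    have hu' : ‖u‖ < 1 := by simpa using hu
    simpa using bl_lt (-w) u hnw hu'
  have hF : DifferentiableOn ℂ (fun u => E (bl_B (-w) u)) (ball 0 1) :=
    hE.comp (bl_diff (-w) hnw) hmaps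
  have hF0 : E (bl_B (-w) 0) = 0 := by
    have : bl_B (-w) 0 = w := by simp [bl_B]
    rw [this, h0]
  have hu : ‖bl_B w z‖ < 1 := bl_lt w z hw hz
  have hm : Set.MapsTo (fun u => E (bl_B (-w) u)) (ball 0 1) (closedBall 0 1) := by
    intro u hu
    simpa using hb _ (hmaps hu)
  have h := Complex.norm_le_norm_of_mapsTo_ball hF hm hF0 hu
  simpa only [bl_inv w z hw hz] using h

/-- one step: divide out a zero -/
theorem bl_step (E : ℂ → ℂ) (hE : DifferentiableOn ℂ E (ball 0 1))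
    (hb : ∀ z ∈ ball (0 : ℂ) 1, ‖E z‖ ≤ 1) (w : ℂ) (hw : ‖w‖ < 1) (h0 : E w = 0) :
    ∃ E' : ℂ → ℂ, DifferentiableOn ℂ E' (ball 0 1) ∧ (∀ z ∈ ball (0 : ℂ) 1, ‖E' z‖ ≤ 1) ∧
      ∀ z ∈ ball (0 : ℂ) 1, E z = bl_B w z * E' z := by
  have hwb : w ∈ ball (0 : ℂ) 1 := by simpa using hw
  have hds : DifferentiableOn ℂ (dslope E w) (ball 0 1) :=
    (Complex.differentiableOn_dslope (isOpen_ball.mem_nhds hwb)).mpr hE
  let E' : ℂ → ℂ := fun z => dslope E w z * (1 - conj w * z)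
  have hE' : DifferentiableOn ℂ E' (ball 0 1) := hds.mul (by fun_prop)
  have hfac : ∀ z ∈ ball (0 : ℂ) 1, E z = bl_B w z * E' z := by
    intro z hz
    have hz' : ‖z‖ < 1 := by simpa using hz
    have h1 : (z - w) • dslope E w z = E z - E w := sub_smul_dslope E w z
    rw [h0, sub_zero, smul_eq_mul] at h1
    have hd := bl_den w z hw hz'
    simp only [E', bl_B]
    rw [← h1]
    have hd' : (1 : ℂ) - z * conj w ≠ 0 := by rwa [mul_comm]
    field_simp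
  refine ⟨E', hE', ?_, hfac⟩
  have hne : ∀ z ∈ ball (0 : ℂ) 1, z ≠ w → ‖E' z‖ ≤ 1 := by
    intro z hz hzw
    have hz' : ‖z‖ < 1 := by simpa using hz
    have hp := bl_pick E hE hb w hw h0 z hz'
    rw [hfac z hz, norm_mul] at hp
    have hBpos : 0 < ‖bl_B w z‖ := by
      rw [norm_pos_iff]
      unfold bl_B
      exact div_ne_zero (sub_ne_zero.mpr hzw) (bl_den w z hw hz')
    by_contra hc
    push Not at hc
    nlinarith
  intro z hz
  by_cases hzw : z = w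
  · subst hzw
    have hcont : ContinuousAt E' z := (hE'.differentiableAt (isOpen_ball.mem_nhds hz)).continuousAt
    have hev : ∀ᶠ u in 𝓝[≠] z, ‖E' u‖ ≤ 1 := by
      have h1 : ∀ᶠ u in 𝓝[≠] z, u ∈ ball (0 : ℂ) 1 :=
        nhdsWithin_le_nhds (isOpen_ball.mem_nhds hz)
      filter_upwards [h1, self_mem_nhdsWithin] with u hu hne'
      exact hne u hu hne'
    have ht : Tendsto (fun u => ‖E' u‖) (𝓝[≠] z) (𝓝 ‖E' z‖) :=
      (hcont.norm.tendsto).mono_left nhdsWithin_le_nhds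
    exact le_of_tendsto ht hev
  · exact hne z hz hzw

theorem bl_main (E : ℂ → ℂ) (hE : DifferentiableOn ℂ E (ball 0 1))
    (hb : ∀ z ∈ ball (0 : ℂ) 1, ‖E z‖ ≤ 1) (U r : ℝ) (hr0 : 0 < r) (hr1 : r < 1)
    (hU : Real.exp (-U) ≤ ‖E 0‖) :
    ∃ (N : ℕ) (w : Fin N → ℂ) (E' : ℂ → ℂ), (∀ k, ‖w k‖ ≤ r) ∧
      DifferentiableOn ℂ E' (ball 0 1) ∧ (∀ z ∈ ball (0 : ℂ) 1, ‖E' z‖ ≤ 1) ∧
      (∀ z ∈ ball (0 : ℂ) 1, E z = (∏ k, bl_B (w k) z) * E' z) ∧
      (∀ z, ‖z‖ ≤ r → E' z ≠ 0) ∧ (N : ℝ) * Real.log (1 / r) ≤ U ∧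
      Real.exp (-U) ≤ ‖E' 0‖ := by
  have hlog : 0 < Real.log (1 / r) := Real.log_pos (by rw [lt_div_iff₀ hr0]; linarith)
  have h0b : (0 : ℂ) ∈ ball (0 : ℂ) 1 := by simp
  -- bound for factorisations
  have hbound : ∀ (N : ℕ) (w : Fin N → ℂ) (E' : ℂ → ℂ), (∀ k, ‖w k‖ ≤ r) →
      (∀ z ∈ ball (0 : ℂ) 1, ‖E' z‖ ≤ 1) →
      (∀ z ∈ ball (0 : ℂ) 1, E z = (∏ k, bl_B (w k) z) * E' z) →
      (N : ℝ) * Real.log (1 / r) ≤ U ∧ Real.exp (-U) ≤ ‖E' 0‖ := by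
    intro N w E' hw hb' hf
    have e0 : ‖E 0‖ = (∏ k, ‖w k‖) * ‖E' 0‖ := by
      rw [hf 0 h0b, norm_mul, norm_prod]
      congr 1
      refine Finset.prod_congr rfl fun k _ => ?_
      simp [bl_B]
    have hprod : (∏ k, ‖w k‖) ≤ r ^ N := by
      calc (∏ k, ‖w k‖) ≤ ∏ _k : Fin N, r :=
            Finset.prod_le_prod (fun k _ => norm_nonneg _) (fun k _ => hw k)
        _ = r ^ N := by simp
    have hprod0 : 0 ≤ (∏ k, ‖w k‖) := Finset.prod_nonneg fun k _ => norm_nonneg _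
    have hE'0 := hb' 0 h0b
    constructor
    · have h1 : Real.exp (-U) ≤ r ^ N := by
        calc Real.exp (-U) ≤ ‖E 0‖ := hU
          _ = (∏ k, ‖w k‖) * ‖E' 0‖ := e0
          _ ≤ (∏ k, ‖w k‖) * 1 := by gcongr
          _ ≤ r ^ N := by rw [mul_one]; exact hprod
      have h2 := Real.log_le_log (Real.exp_pos _) h1
      rw [Real.log_exp, Real.log_pow] at h2
      rw [one_div, Real.log_inv]
      linarith
    · have h1 : (∏ k, ‖w k‖) ≤ 1 := hprod.trans (pow_le_one₀ hr0.le hr1.le)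
      calc Real.exp (-U) ≤ ‖E 0‖ := hU
        _ = (∏ k, ‖w k‖) * ‖E' 0‖ := e0
        _ ≤ 1 * ‖E' 0‖ := by gcongr
        _ = ‖E' 0‖ := one_mul _
  by_contra hcon
  have hall : ∀ N : ℕ, ∃ (w : Fin N → ℂ) (E' : ℂ → ℂ), (∀ k, ‖w k‖ ≤ r) ∧
      DifferentiableOn ℂ E' (ball 0 1) ∧ (∀ z ∈ ball (0 : ℂ) 1, ‖E' z‖ ≤ 1) ∧
      (∀ z ∈ ball (0 : ℂ) 1, E z = (∏ k, bl_B (w k) z) * E' z) := by
    intro N
    induction N with
    | zero => exact ⟨Fin.elim0, E, fun k => k.elim0, hE, hb, fun z _ => by simp⟩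
    | succ N ih =>
      obtain ⟨w, E', hw, hd, hb', hf⟩ := ih
      obtain ⟨hN, hE0⟩ := hbound N w E' hw hb' hf
      have hz : ∃ z, ‖z‖ ≤ r ∧ E' z = 0 := by
        by_contra hno
        push Not at hno
        exact hcon ⟨N, w, E', hw, hd, hb', hf, hno, hN, hE0⟩
      obtain ⟨z0, hz0, hEz0⟩ := hz
      obtain ⟨E'', hd'', hb'', hf''⟩ := bl_step E' hd hb' z0 (lt_of_le_of_lt hz0 hr1) hEz0
      refine ⟨Fin.cons z0 w, E'', ?_, hd'', hb'', ?_⟩
      · intro k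
        refine Fin.cases ?_ ?_ k
        · simpa using hz0
        · intro j; simpa using hw j
      · intro z hz
        rw [hf z hz, hf'' z hz, Fin.prod_univ_succ]
        simp only [Fin.cons_zero, Fin.cons_succ]
        ring
  obtain ⟨N, hN⟩ := exists_nat_gt (U / Real.log (1 / r))
  obtain ⟨w, E', hw, -, hb', hf⟩ := hall N
  have h1 := (hbound N w E' hw hb' hf).1
  rw [div_lt_iff₀ hlog] at hN
  linarith

theorem rt_bl : S_BL := by
  intro r U E hr0 hr1 _ hE hb hU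
  obtain ⟨N, w, E', hw, hd, hb', hf, hne, hN, hE0⟩ := bl_main E hE hb U r hr0 hr1 hU
  exact ⟨N, w, E', hN, hw, hd, hb', hne, hE0, hf⟩

end RtRt
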