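import Pool.Agent.H636R2.RT.Defs

/-!
Task EF of helper636 (project RT), by helper659.
-/

open MeasureTheory Set Filter Topology

noncomputable section

namespace RtRt

theorem ef_norm_exp (s t : ℝ) (z : ℂ) :
    ‖Complex.exp (Complex.I * ((s:ℂ) - (t:ℂ)) * z)‖ = Real.exp ((t - s) * z.im) := by
  rw [Complex.norm_exp]
  congr 1
  simp [Complex.mul_re, Complex.mul_im]
  ring

/-- the integrand on the square -/
def ef_F (f h : ℝ → ℂ) (z : ℂ) (q : ℝ × ℝ) : ℂ :=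
  f q.1 * (Set.Iic q.1).indicator
    (fun s : ℝ => h s * Complex.exp (Complex.I * ((s:ℂ) - (q.1:ℂ)) * z)) q.2

/-- its derivative -/
def ef_F' (f h : ℝ → ℂ) (z : ℂ) (q : ℝ × ℝ) : ℂ :=
  f q.1 * (Set.Iic q.1).indicator
    (fun s : ℝ => h s * (Complex.exp (Complex.I * ((s:ℂ) - (q.1:ℂ)) * z) *
      (Complex.I * ((s:ℂ) - (q.1:ℂ))))) q.2

theorem ef_meas_gen (f h : ℝ → ℂ) (hf : Measurable f) (hh : Measurable h)
    (k : ℝ × ℝ → ℂ) (hk : Measurable k) :
    Measurable (fun q : ℝ × ℝ => f q.1 * (Set.Iic q.1).indicator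
      (fun s : ℝ => h s * k (q.1, s)) q.2) := by
  have e : (fun q : ℝ × ℝ => f q.1 * (Set.Iic q.1).indicator
      (fun s : ℝ => h s * k (q.1, s)) q.2) =
      fun q : ℝ × ℝ => f q.1 * ({q : ℝ × ℝ | q.2 ≤ q.1}.indicator
        (fun q : ℝ × ℝ => h q.2 * k q) q) := by
    funext q
    by_cases hq : q.2 ≤ q.1
    · rw [Set.indicator_of_mem (show q.2 ∈ Set.Iic q.1 from hq),
        Set.indicator_of_mem (show q ∈ {q : ℝ × ℝ | q.2 ≤ q.1} from hq)]
    · rw [Set.indicator_of_notMem (show q.2 ∉ Set.Iic q.1 from hq),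
        Set.indicator_of_notMem (show q ∉ {q : ℝ × ℝ | q.2 ≤ q.1} from hq)]
  rw [e]
  apply (hf.comp measurable_fst).mul
  apply Measurable.indicator _ (measurableSet_le measurable_snd measurable_fst)
  exact (hh.comp measurable_snd).mul hk

theorem ef_F_meas (f h : ℝ → ℂ) (hf : Measurable f) (hh : Measurable h) (z : ℂ) :
    Measurable (ef_F f h z) :=
  ef_meas_gen f h hf hh (fun q => Complex.exp (Complex.I * ((q.2:ℂ) - (q.1:ℂ)) * z))
    (by fun_prop)

theorem ef_F'_meas (f h : ℝ → ℂ) (hf : Measurable f) (hh : Measurable h) (z : ℂ) :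
    Measurable (ef_F' f h z) :=
  ef_meas_gen f h hf hh (fun q => Complex.exp (Complex.I * ((q.2:ℂ) - (q.1:ℂ)) * z) *
      (Complex.I * ((q.2:ℂ) - (q.1:ℂ)))) (by fun_prop)

theorem ef_hb (p : ℝ → ℝ) (h : ℝ → ℂ) (B : ℝ) (hmono : ∀ s t, 0 ≤ s → s ≤ t → p s ≤ p t)
    (hh : BD p h B) (hB : 0 ≤ B) (s t : ℝ) (hs : 0 ≤ s) (hst : s ≤ t) :
    ‖h s‖ ≤ B * Real.exp (p t) :=
  (hh.bd s hs).trans (mul_le_mul_of_nonneg_left (Real.exp_le_exp.mpr (hmono s t hs hst)) hB)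

theorem ef_expb (T R s t : ℝ) (hR : 0 ≤ R) (hs : 0 ≤ s) (hst : s ≤ t) (htT : t ≤ T) (z : ℂ)
    (hz : z.im ≤ R) :
    ‖Complex.exp (Complex.I * ((s:ℂ) - (t:ℂ)) * z)‖ ≤ Real.exp (R * T) := by
  rw [ef_norm_exp]
  apply Real.exp_le_exp.mpr
  have h1 : 0 ≤ t - s := by linarith
  calc (t - s) * z.im ≤ (t - s) * R := mul_le_mul_of_nonneg_left hz h1
    _ ≤ T * R := mul_le_mul_of_nonneg_right (by linarith) hR
    _ = R * T := mul_comm _ _

theorem ef_F_bd (p : ℝ → ℝ) (f h : ℝ → ℂ) (B : ℝ) (hmono : ∀ s t, 0 ≤ s → s ≤ t → p s ≤ p t)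
    (hh : BD p h B) (hB : 0 ≤ B) (T R : ℝ) (hR : 0 ≤ R) (z : ℂ)
    (hz : z.im ≤ R) (q : ℝ × ℝ) (h1 : q.1 ≤ T) (h2 : 0 ≤ q.2) :
    ‖ef_F f h z q‖ ≤ B * Real.exp (R * T) * (‖f q.1‖ * Real.exp (p q.1)) := by
  unfold ef_F
  rw [norm_mul]
  by_cases hq : q.2 ≤ q.1
  · rw [Set.indicator_of_mem (show q.2 ∈ Set.Iic q.1 from hq), norm_mul]
    have a1 := ef_hb p h B hmono hh hB q.2 q.1 h2 hq
    have a2 := ef_expb T R q.2 q.1 hR h2 hq h1 z hz
    calc ‖f q.1‖ * (‖h q.2‖ * ‖Complex.exp (Complex.I * ((q.2:ℂ) - (q.1:ℂ)) * z)‖)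
        ≤ ‖f q.1‖ * ((B * Real.exp (p q.1)) * Real.exp (R * T)) := by
          apply mul_le_mul_of_nonneg_left _ (norm_nonneg _)
          exact mul_le_mul a1 a2 (norm_nonneg _) (by positivity)
      _ = _ := by ring
  · rw [Set.indicator_of_notMem (show q.2 ∉ Set.Iic q.1 from hq), norm_zero, mul_zero]
    positivity

theorem ef_F'_bd (p : ℝ → ℝ) (f h : ℝ → ℂ) (B : ℝ)
    (hmono : ∀ s t, 0 ≤ s → s ≤ t → p s ≤ p t)
    (hh : BD p h B) (hB : 0 ≤ B) (T R : ℝ) (hR : 0 ≤ R) (z : ℂ)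
    (hz : z.im ≤ R) (q : ℝ × ℝ) (h1 : q.1 ≤ T) (h2 : 0 ≤ q.2) (hT : 0 ≤ T) :
    ‖ef_F' f h z q‖ ≤ B * Real.exp (R * T) * T * (‖f q.1‖ * Real.exp (p q.1)) := by
  unfold ef_F'
  rw [norm_mul]
  by_cases hq : q.2 ≤ q.1
  · rw [Set.indicator_of_mem (show q.2 ∈ Set.Iic q.1 from hq), norm_mul, norm_mul]
    have a1 := ef_hb p h B hmono hh hB q.2 q.1 h2 hq
    have a2 := ef_expb T R q.2 q.1 hR h2 hq h1 z hz
    have a3 : ‖Complex.I * ((q.2:ℂ) - (q.1:ℂ))‖ ≤ T := by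
      rw [norm_mul, Complex.norm_I, one_mul, ← Complex.ofReal_sub, Complex.norm_real,
        Real.norm_eq_abs, abs_le]
      constructor <;> linarith
    calc ‖f q.1‖ * (‖h q.2‖ * (‖Complex.exp (Complex.I * ((q.2:ℂ) - (q.1:ℂ)) * z)‖ *
          ‖Complex.I * ((q.2:ℂ) - (q.1:ℂ))‖))
        ≤ ‖f q.1‖ * ((B * Real.exp (p q.1)) * (Real.exp (R * T) * T)) := by
          apply mul_le_mul_of_nonneg_left _ (norm_nonneg _)
          apply mul_le_mul a1 _ (by positivity) (by positivity)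
          exact mul_le_mul a2 a3 (norm_nonneg _) (by positivity)
      _ = _ := by ring
  · rw [Set.indicator_of_notMem (show q.2 ∉ Set.Iic q.1 from hq), norm_zero, mul_zero]
    positivity

/-- the product measure -/
def ef_mu (T : ℝ) : Measure (ℝ × ℝ) :=
  (volume.restrict (Set.Ioc (0:ℝ) T)).prod (volume.restrict (Set.Ioc (0:ℝ) T))

theorem ef_mu_ae (T : ℝ) : ∀ᵐ q ∂(ef_mu T), q.1 ≤ T ∧ 0 ≤ q.2 := by
  unfold ef_mu
  rw [Measure.prod_restrict]
  refine ae_restrict_of_forall_mem (measurableSet_Ioc.prod measurableSet_Ioc) ?_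
  intro q hq
  exact ⟨hq.1.2, hq.2.1.le⟩

theorem ef_int_base (p : ℝ → ℝ) (f : ℝ → ℂ) (hf : FD p f) (T : ℝ) (C : ℝ) :
    Integrable (fun q : ℝ × ℝ => C * (‖f q.1‖ * Real.exp (p q.1))) (ef_mu T) := by
  apply Integrable.const_mul
  unfold ef_mu
  have h1 : Integrable (fun t => ‖f t‖ * Real.exp (p t)) (volume.restrict (Set.Ioc (0:ℝ) T)) :=
    hf.int.mono_set Set.Ioc_subset_Ioi_self
  exact h1.comp_fst _

theorem ef_F_int (p : ℝ → ℝ) (f h : ℝ → ℂ) (B : ℝ) (hmono : ∀ s t, 0 ≤ s → s ≤ t → p s ≤ p t)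
    (hf : FD p f) (hh : BD p h B) (hB : 0 ≤ B) (T : ℝ) (z : ℂ) :
    Integrable (ef_F f h z) (ef_mu T) := by
  refine Integrable.mono' (ef_int_base p f hf T (B * Real.exp (|z.im| * T)))
    (ef_F_meas f h hf.meas hh.meas z).aestronglyMeasurable ?_
  filter_upwards [ef_mu_ae T] with q hq
  exact ef_F_bd p f h B hmono hh hB T |z.im| (abs_nonneg _) z (le_abs_self _) q hq.1 hq.2

theorem ef_eq (p : ℝ → ℝ) (f h : ℝ → ℂ) (B : ℝ) (hmono : ∀ s t, 0 ≤ s → s ≤ t → p s ≤ p t)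
    (hf : FD p f) (hh : BD p h B) (hB : 0 ≤ B) (T : ℝ) (z : ℂ) :
    Ef f h T z = ∫ q, ef_F f h z q ∂(ef_mu T) := by
  have h1 := ef_F_int p f h B hmono hf hh hB T z
  unfold ef_mu at h1 ⊢
  rw [integral_prod _ h1]
  unfold Ef
  apply setIntegral_congr_fun measurableSet_Ioc
  intro t ht
  show f t * inn h z t = ∫ s in Set.Ioc (0:ℝ) T, ef_F f h z (t, s)
  unfold ef_F
  simp only
  rw [integral_const_mul, setIntegral_indicator measurableSet_Iic]
  congr 1
  unfold inn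
  have : Set.Ioc 0 T ∩ Set.Iic t = Set.Ioc 0 t := by
    ext x
    simp only [Set.mem_inter_iff, Set.mem_Ioc, Set.mem_Iic]
    constructor
    · rintro ⟨⟨a, _⟩, c⟩; exact ⟨a, c⟩
    · rintro ⟨a, c⟩; exact ⟨⟨a, c.trans ht.2⟩, c⟩
  rw [this]

theorem ef_hasDeriv (f h : ℝ → ℂ) (z : ℂ) (q : ℝ × ℝ) :
    HasDerivAt (fun w => ef_F f h w q) (ef_F' f h z q) z := by
  unfold ef_F ef_F'
  apply HasDerivAt.const_mul
  by_cases hq : q.2 ≤ q.1
  · simp only [Set.indicator_of_mem (show q.2 ∈ Set.Iic q.1 from hq)]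
    apply HasDerivAt.const_mul
    have h1 : HasDerivAt (fun w : ℂ => Complex.I * ((q.2:ℂ) - (q.1:ℂ)) * w)
        (Complex.I * ((q.2:ℂ) - (q.1:ℂ))) z := by
      have := (hasDerivAt_id z).const_mul (Complex.I * ((q.2:ℂ) - (q.1:ℂ)))
      simpa using this
    exact h1.cexp
  · simp only [Set.indicator_of_notMem (show q.2 ∉ Set.Iic q.1 from hq)]
    exact hasDerivAt_const _ _

theorem ef_inn_bd (p : ℝ → ℝ) (h : ℝ → ℂ) (B : ℝ) (hmono : ∀ s t, 0 ≤ s → s ≤ t → p s ≤ p t)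
    (hh : BD p h B) (hB : 0 ≤ B) (T Y : ℝ) (hY : 0 ≤ Y) (z : ℂ) (hz : z.im ≤ Y) (t : ℝ)
    (ht : 0 < t) (htT : t ≤ T) :
    ‖inn h z t‖ ≤ B * T * Real.exp (Y * T) * Real.exp (p t) := by
  unfold inn
  have h1 : ∀ s ∈ Set.Ioc (0:ℝ) t,
      ‖h s * Complex.exp (Complex.I * ((s:ℂ) - (t:ℂ)) * z)‖ ≤
        B * Real.exp (p t) * Real.exp (Y * T) := by
    intro s hs
    rw [norm_mul]
    exact mul_le_mul (ef_hb p h B hmono hh hB s t hs.1.le hs.2)
      (ef_expb T Y s t hY hs.1.le hs.2 htT z hz) (norm_nonneg _) (by positivity)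
  have h2 := norm_setIntegral_le_of_norm_le_const (μ := volume) (s := Set.Ioc (0:ℝ) t)
    (by simp) h1
  refine h2.trans ?_
  have h3 : volume.real (Set.Ioc (0:ℝ) t) = t := by
    rw [Real.volume_real_Ioc_of_le ht.le]; ring
  rw [h3]
  calc B * Real.exp (p t) * Real.exp (Y * T) * t ≤ B * Real.exp (p t) * Real.exp (Y * T) * T :=
        mul_le_mul_of_nonneg_left htT (by positivity)
    _ = _ := by ring

theorem rt_ef (h : S_CC) : S_EF := by
  intro p f g B hp hf hg hB T hT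
  have hmono := (h p hp).1
  constructor
  · intro z0
    have hfun : Ef f g T = fun z => ∫ q, ef_F f g z q ∂(ef_mu T) := by
      funext z
      exact ef_eq p f g B hmono hf hg hB T z
    rw [hfun]
    have key := hasDerivAt_integral_of_dominated_loc_of_deriv_le (μ := ef_mu T)
      (F := fun z q => ef_F f g z q) (F' := fun z q => ef_F' f g z q) (x₀ := z0)
      (bound := fun q => B * Real.exp ((|z0.im| + 1) * T) * T * (‖f q.1‖ * Real.exp (p q.1)))
      (s := Metric.ball z0 1) (Metric.ball_mem_nhds z0 one_pos)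
      (Filter.Eventually.of_forall fun z =>
        (ef_F_meas f g hf.meas hg.meas z).aestronglyMeasurable)
      (ef_F_int p f g B hmono hf hg hB T z0)
      (ef_F'_meas f g hf.meas hg.meas z0).aestronglyMeasurable
      (by
        filter_upwards [ef_mu_ae T] with q hq
        intro z hz
        refine ef_F'_bd p f g B hmono hg hB T (|z0.im| + 1) (by positivity) z ?_ q hq.1 hq.2 hT.le
        rw [Metric.mem_ball, dist_eq_norm] at hz
        have h1 : |(z - z0).im| ≤ ‖z - z0‖ := Complex.abs_im_le_norm _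
        have h2 := le_abs_self (z - z0).im
        have h3 := le_abs_self z0.im
        rw [Complex.sub_im] at h1 h2
        linarith)
      (ef_int_base p f hf T _)
      (Filter.Eventually.of_forall fun q z _ => ef_hasDeriv f g z q)
    exact key.2.differentiableAt
  · intro Y z hY hz
    unfold Ef
    have hint : IntegrableOn (fun t => B * T * Real.exp (Y * T) * (‖f t‖ * Real.exp (p t)))
        (Set.Ioc 0 T) := (hf.int.mono_set Set.Ioc_subset_Ioi_self).const_mul _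
    refine (norm_integral_le_of_norm_le hint ?_).trans ?_
    · refine ae_restrict_of_forall_mem measurableSet_Ioc ?_
      intro t ht
      rw [norm_mul]
      calc ‖f t‖ * ‖inn g z t‖ ≤ ‖f t‖ * (B * T * Real.exp (Y * T) * Real.exp (p t)) :=
            mul_le_mul_of_nonneg_left (ef_inn_bd p g B hmono hg hB T Y hY z hz t ht.1 ht.2)
              (norm_nonneg _)
        _ = B * T * Real.exp (Y * T) * (‖f t‖ * Real.exp (p t)) := by ring
    · rw [integral_const_mul]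
      have h1 : ∫ t in Set.Ioc (0:ℝ) T, ‖f t‖ * Real.exp (p t) ≤ 1 := by
        refine le_trans ?_ hf.le1
        exact setIntegral_mono_set hf.int
          (Filter.Eventually.of_forall fun t => by positivity)
          (Filter.Eventually.of_forall fun t ht => Set.Ioc_subset_Ioi_self ht)
      calc B * T * Real.exp (Y * T) * ∫ t in Set.Ioc (0:ℝ) T, ‖f t‖ * Real.exp (p t)
          ≤ B * T * Real.exp (Y * T) * 1 := mul_le_mul_of_nonneg_left h1 (by positivity)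
        _ = _ := mul_one _

end RtRt
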