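import Pool.Agent.H636R2.RT.Defs

/-!
Task EI of helper636 (project RT), by helper659.
-/

open MeasureTheory Set Filter Topology

noncomputable section

namespace RtRt

theorem ei_norm_exp (s t : ℝ) (z : ℂ) :
    ‖Complex.exp (Complex.I * ((s:ℂ) - (t:ℂ)) * z)‖ = Real.exp ((t - s) * z.im) := by
  rw [Complex.norm_exp]
  congr 1
  simp [Complex.mul_re, Complex.mul_im]
  ring

theorem ei_int_exp (y t : ℝ) (hy : 0 < y) (ht : 0 < t) :
    ∫ s in Set.Ioc (0:ℝ) t, Real.exp ((s - t) * y) ≤ 1 / y := by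
  rw [← intervalIntegral.integral_of_le ht.le]
  have h1 : ∀ s ∈ Set.uIcc (0:ℝ) t,
      HasDerivAt (fun s : ℝ => Real.exp ((s - t) * y) / y) (Real.exp ((s - t) * y)) s := by
    intro s _
    have h2 : HasDerivAt (fun s : ℝ => (s - t) * y) y s := by
      have := ((hasDerivAt_id s).sub_const t).mul_const y
      simpa using this
    have h3 := (h2.exp).div_const y
    have : Real.exp ((s - t) * y) * y / y = Real.exp ((s - t) * y) := by field_simp
    rwa [this] at h3
  rw [intervalIntegral.integral_eq_sub_of_hasDerivAt h1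
    ((by fun_prop : Continuous fun s : ℝ => Real.exp ((s - t) * y)).intervalIntegrable _ _)]
  have h4 : 0 < Real.exp ((0 - t) * y) / y := by positivity
  simp only [sub_self, zero_mul, Real.exp_zero]
  linarith

theorem ei_inn (p : ℝ → ℝ) (h : ℝ → ℂ) (B : ℝ) (hmono : ∀ s t, 0 ≤ s → s ≤ t → p s ≤ p t)
    (hh : BD p h B) (hB : 0 ≤ B) (z : ℂ) (hz : z.im < 0) (t : ℝ) (ht : 0 < t) :
    ‖inn h z t‖ ≤ B / (-z.im) * Real.exp (p t) := by
  unfold inn
  have hy : 0 < -z.im := by linarith
  have hg : IntegrableOn (fun s : ℝ => B * Real.exp (p t) * Real.exp ((s - t) * (-z.im)))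
      (Set.Ioc 0 t) := by
    apply Integrable.const_mul
    exact ((by fun_prop : Continuous fun s : ℝ => Real.exp ((s - t) * (-z.im))).integrableOn_Icc).mono_set
      Set.Ioc_subset_Icc_self
  refine (norm_integral_le_of_norm_le hg ?_).trans ?_
  · refine ae_restrict_of_forall_mem measurableSet_Ioc ?_
    intro s hs
    rw [norm_mul, ei_norm_exp]
    have e1 : (t - s) * z.im = (s - t) * (-z.im) := by ring
    rw [e1]
    apply mul_le_mul_of_nonneg_right _ (Real.exp_pos _).le
    refine (hh.bd s hs.1.le).trans ?_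
    apply mul_le_mul_of_nonneg_left _ hB
    exact Real.exp_le_exp.mpr (hmono s t hs.1.le hs.2)
  · rw [integral_const_mul]
    have := ei_int_exp (-z.im) t hy ht
    calc B * Real.exp (p t) * ∫ s in Set.Ioc (0:ℝ) t, Real.exp ((s - t) * (-z.im))
        ≤ B * Real.exp (p t) * (1 / (-z.im)) :=
          mul_le_mul_of_nonneg_left this (by positivity)
      _ = B / (-z.im) * Real.exp (p t) := by ring

theorem rt_ei (h : S_CC) : S_EI := by
  intro p f g B hp hf hg hB z hz
  have hmono := (h p hp).1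
  have hy : 0 < -z.im := by linarith
  unfold Ei
  have hint : IntegrableOn (fun t => B / (-z.im) * (‖f t‖ * Real.exp (p t))) (Set.Ioi 0) :=
    hf.int.const_mul _
  refine (norm_integral_le_of_norm_le hint ?_).trans ?_
  · refine ae_restrict_of_forall_mem measurableSet_Ioi ?_
    intro t ht
    rw [norm_mul]
    calc ‖f t‖ * ‖inn g z t‖ ≤ ‖f t‖ * (B / (-z.im) * Real.exp (p t)) :=
          mul_le_mul_of_nonneg_left (ei_inn p g B hmono hg hB z hz t ht) (norm_nonneg _)
      _ = B / (-z.im) * (‖f t‖ * Real.exp (p t)) := by ring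
  · rw [integral_const_mul]
    have h0 : 0 ≤ B / (-z.im) := div_nonneg hB hy.le
    calc B / (-z.im) * ∫ t in Set.Ioi (0:ℝ), ‖f t‖ * Real.exp (p t)
        ≤ B / (-z.im) * 1 := mul_le_mul_of_nonneg_left hf.le1 h0
      _ = B / (-z.im) := mul_one _

end RtRt
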