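import Pool.Agent.H636R2.RT.Defs

/-!
Tasks FA, FF (helper73): the truncated transform and the transform in the lower half plane.
-/

open MeasureTheory Set Filter Topology

noncomputable section

namespace RtRt

theorem fa_norm_exp (t : ℝ) (z : ℂ) :
    ‖Complex.exp (-(Complex.I * (t:ℂ) * z))‖ = Real.exp (t * z.im) := by
  rw [Complex.norm_exp]
  congr 1
  simp

theorem fa_meas_exp (z : ℂ) :
    Continuous (fun t : ℝ => Complex.exp (-(Complex.I * (t:ℂ) * z))) := by
  fun_prop

theorem fa_diff (μ : Measure ℝ) (f : ℝ → ℂ) (hf : Integrable f μ) (z0 : ℂ) (ε C D : ℝ)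
    (hε : 0 < ε) (hC : ∀ᵐ t ∂μ, ∀ z ∈ Metric.ball z0 ε, |t| * Real.exp (t * z.im) ≤ C)
    (hD : ∀ᵐ t ∂μ, Real.exp (t * z0.im) ≤ D) :
    DifferentiableAt ℂ (fun z => ∫ t, f t * Complex.exp (-(Complex.I * (t:ℂ) * z)) ∂μ) z0 := by
  have hmeas : ∀ z : ℂ, AEStronglyMeasurable
      (fun t : ℝ => f t * Complex.exp (-(Complex.I * (t:ℂ) * z))) μ := fun z =>
    hf.aestronglyMeasurable.mul (fa_meas_exp z).aestronglyMeasurable
  have h := hasDerivAt_integral_of_dominated_loc_of_deriv_le (μ := μ)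
    (F := fun (z : ℂ) (t : ℝ) => f t * Complex.exp (-(Complex.I * (t:ℂ) * z)))
    (F' := fun (z : ℂ) (t : ℝ) => f t * (Complex.exp (-(Complex.I * (t:ℂ) * z)) *
      (-(Complex.I * (t:ℂ)))))
    (x₀ := z0) (s := Metric.ball z0 ε) (bound := fun t => ‖f t‖ * C)
    (Metric.ball_mem_nhds z0 hε) (Filter.Eventually.of_forall hmeas) ?_ ?_ ?_ ?_ ?_
  · exact h.2.differentiableAt
  · apply Integrable.mono (hf.norm.mul_const D) (hmeas z0)
    filter_upwards [hD] with t ht
    rw [norm_mul, fa_norm_exp, Real.norm_eq_abs, abs_mul, abs_norm]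
    exact mul_le_mul_of_nonneg_left (ht.trans (le_abs_self D)) (norm_nonneg _)
  · exact hf.aestronglyMeasurable.mul (by
      apply Continuous.aestronglyMeasurable
      fun_prop)
  · filter_upwards [hC] with t ht z hz
    rw [norm_mul, norm_mul, fa_norm_exp]
    have h1 : ‖-(Complex.I * (t:ℂ))‖ = |t| := by simp
    rw [h1, mul_comm (Real.exp _)]
    exact mul_le_mul_of_nonneg_left (ht z hz) (norm_nonneg _)
  · exact hf.norm.mul_const C
  · refine Filter.Eventually.of_forall (fun t z _ => ?_)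
    have h1 : HasDerivAt (fun z : ℂ => -(Complex.I * (t:ℂ) * z)) (-(Complex.I * (t:ℂ))) z := by
      have h2 : (fun z : ℂ => -(Complex.I * (t:ℂ) * z)) =
          fun z : ℂ => (-(Complex.I * (t:ℂ))) * z := by
        funext w
        ring
      rw [h2]
      simpa using (hasDerivAt_id z).const_mul (-(Complex.I * (t:ℂ)))
    exact (h1.cexp).const_mul (f t)

theorem fa_int {p : ℝ → ℝ} {f : ℝ → ℂ} (hp : PD p) (hf : FD p f) :
    IntegrableOn f (Set.Ioi 0) := by
  apply Integrable.mono hf.int hf.meas.aestronglyMeasurable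
  rw [ae_restrict_iff' measurableSet_Ioi]
  refine Filter.Eventually.of_forall (fun t ht => ?_)
  rw [norm_mul, norm_norm, Real.norm_eq_abs, abs_of_pos (Real.exp_pos _)]
  have h1 : 1 ≤ Real.exp (p t) := Real.one_le_exp (hp.nn t (le_of_lt ht))
  exact le_mul_of_one_le_right (norm_nonneg _) h1

theorem fa_bound {p : ℝ → ℝ} {f : ℝ → ℂ} (hf : FD p f) (A : Set ℝ) (hA : MeasurableSet A)
    (hA0 : A ⊆ Set.Ioi 0) (K : ℝ) (hK : 0 ≤ K) (z : ℂ)
    (h : ∀ t ∈ A, Real.exp (t * z.im) ≤ K * Real.exp (p t)) :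
    ‖∫ t in A, f t * Complex.exp (-(Complex.I * (t:ℂ) * z))‖ ≤ K := by
  have hint : IntegrableOn (fun t => K * (‖f t‖ * Real.exp (p t))) A :=
    (hf.int.mono_set hA0).const_mul K
  have h1 : ‖∫ t in A, f t * Complex.exp (-(Complex.I * (t:ℂ) * z))‖ ≤
      ∫ t in A, K * (‖f t‖ * Real.exp (p t)) := by
    apply norm_integral_le_of_norm_le hint
    rw [ae_restrict_iff' hA]
    refine Filter.Eventually.of_forall (fun t ht => ?_)
    rw [norm_mul, fa_norm_exp]
    calc ‖f t‖ * Real.exp (t * z.im) ≤ ‖f t‖ * (K * Real.exp (p t)) :=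
          mul_le_mul_of_nonneg_left (h t ht) (norm_nonneg _)
      _ = K * (‖f t‖ * Real.exp (p t)) := by ring
  refine h1.trans ?_
  rw [integral_const_mul]
  have h2 : ∫ t in A, ‖f t‖ * Real.exp (p t) ≤ ∫ t in Set.Ioi (0:ℝ), ‖f t‖ * Real.exp (p t) := by
    apply setIntegral_mono_set hf.int
    · exact Filter.Eventually.of_forall (fun t =>
        mul_nonneg (norm_nonneg _) (Real.exp_pos _).le)
    · exact hA0.eventuallyLE
  calc K * ∫ t in A, ‖f t‖ * Real.exp (p t) ≤ K * 1 :=
        mul_le_mul_of_nonneg_left (h2.trans hf.le1) hK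
    _ = K := mul_one K

theorem rt_fa (h : S_CC) : S_FA := by
  intro p f hp hf T hT
  obtain ⟨-, -, -, -, -, h6⟩ := h p hp
  constructor
  · intro z0
    unfold aT
    apply fa_diff (volume.restrict (Set.Ioc 0 T)) f
      ((fa_int hp hf).mono_set Set.Ioc_subset_Ioi_self) z0 1
      (T * Real.exp (T * (|z0.im| + 1))) (Real.exp (T * |z0.im|)) one_pos
    · rw [ae_restrict_iff' measurableSet_Ioc]
      refine Filter.Eventually.of_forall (fun t ht z hz => ?_)
      have h1 : |z.im - z0.im| < 1 := by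
        have h2 : ‖z - z0‖ < 1 := by simpa [dist_eq_norm] using hz
        have h3 := Complex.abs_im_le_norm (z - z0)
        rw [Complex.sub_im] at h3
        exact lt_of_le_of_lt h3 h2
      have h4 : z.im ≤ |z0.im| + 1 := by
        have h5 := le_abs_self z0.im
        have h6 := (abs_lt.1 h1).2
        linarith
      rw [abs_of_pos ht.1]
      apply mul_le_mul ht.2 _ (Real.exp_pos _).le hT.le
      apply Real.exp_le_exp.2
      calc t * z.im ≤ t * (|z0.im| + 1) := mul_le_mul_of_nonneg_left h4 ht.1.le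
        _ ≤ T * (|z0.im| + 1) := mul_le_mul_of_nonneg_right ht.2 (by positivity)
    · rw [ae_restrict_iff' measurableSet_Ioc]
      refine Filter.Eventually.of_forall (fun t ht => ?_)
      apply Real.exp_le_exp.2
      calc t * z0.im ≤ t * |z0.im| := mul_le_mul_of_nonneg_left (le_abs_self _) ht.1.le
        _ ≤ T * |z0.im| := mul_le_mul_of_nonneg_right ht.2 (abs_nonneg _)
  · intro z hz
    unfold aT
    apply fa_bound hf _ measurableSet_Ioc Set.Ioc_subset_Ioi_self 1 zero_le_one
    intro t ht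
    rw [one_mul]
    apply Real.exp_le_exp.2
    exact (mul_le_mul_of_nonneg_left hz ht.1.le).trans (h6 T t hT ht.1.le ht.2)

end RtRt

end
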