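import Pool.Agent.H636R2.RT.Defs

open MeasureTheory Set Filter Topology

namespace RtRt

theorem gk_succ (f g : ℝ → ℂ) (T : ℝ) (k : ℕ) :
    gk f g T (k + 1) = nx f T (gk f g T k) := by
  unfold gk
  rw [Function.iterate_succ_apply']

theorem gk_bd_mono {p : ℝ → ℝ} {h : ℝ → ℂ} {A B : ℝ} (hA : BD p h A) (hAB : A ≤ B) :
    BD p h B := by
  refine ⟨hA.meas, fun t ht => ?_⟩
  exact le_trans (hA.bd t ht) (mul_le_mul_of_nonneg_right hAB (Real.exp_pos _).le)

theorem gk_core (h : S_CC) (h1 : S_NX) (p : ℝ → ℝ) (f g : ℝ → ℂ) (hp : PD p) (hf : FD p f)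
    (hg : BD p g 1) (hr : Rel f g) (T : ℝ) (hT : 0 < T) (k : ℕ) :
    BD p (gk f g T k) 1 ∧ Rel f (gk f g T k) ∧
      (∀ t, T ≤ t → ‖gk f g T k t‖ ≤ Real.exp (-(k * dl p T)) * Real.exp (p t)) := by
  have hD : 0 ≤ dl p T := ((h p hp).2.2.2.1 T hT.le).1
  induction k with
  | zero =>
    refine ⟨?_, ?_, ?_⟩
    · simpa [gk] using hg
    · simpa [gk] using hr
    · intro t ht
      have := hg.bd t (hT.le.trans ht)
      simpa [gk] using this
  | succ k ih =>
    obtain ⟨hb, hrel, hbd⟩ := ih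
    have hn := h1 p f (gk f g T k) 1 (Real.exp (-(k * dl p T))) T hp hf hb zero_le_one hrel
      (Real.exp_pos _).le hT hbd
    obtain ⟨hn1, hn2, hn3, -⟩ := hn
    rw [gk_succ]
    refine ⟨gk_bd_mono hn1 ?_, hn2, ?_⟩
    · rw [Real.exp_le_one_iff]
      have : 0 ≤ (k : ℝ) * dl p T := by positivity
      linarith
    · intro t ht
      refine le_trans (hn3 t ht) (le_of_eq ?_)
      rw [← Real.exp_add]
      congr 2
      push_cast
      ring

theorem rt_gk (h : S_CC) (h1 : S_NX) : S_GK := by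
  intro p f g hp hf hg hr T hT k
  obtain ⟨hb, hrel, hbd⟩ := gk_core h h1 p f g hp hf hg hr T hT k
  refine ⟨hb, hrel, ?_⟩
  rw [gk_succ]
  exact (h1 p f (gk f g T k) 1 (Real.exp (-(k * dl p T))) T hp hf hb zero_le_one hrel
    (Real.exp_pos _).le hT hbd).1

end RtRt
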