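import Mathlib

/-!
Right translates in weighted L^1 on the half line, weights `exp (p t)` with `p` concave,
`p t / t → 0` and `∫ p t / (1+t^2) = ∞` (MP_27fa52_an).  Blueprint of helper636.
All statements are compiled Props `S_<ID>`; tasks in the table h636rt_tasks.
-/

open MeasureTheory Set Filter Topology

noncomputable section

namespace RtRt

/-- one-sided Fourier transform `∫_0^∞ f t exp (-i t z) dt` (used for `Im z ≤ 0`) -/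
def fh (f : ℝ → ℂ) (z : ℂ) : ℂ :=
  ∫ t in Set.Ioi (0:ℝ), f t * Complex.exp (-(Complex.I * (t:ℂ) * z))

/-- truncated transform `∫_0^T f t exp (-i t z) dt` -/
def aT (f : ℝ → ℂ) (T : ℝ) (z : ℂ) : ℂ :=
  ∫ t in Set.Ioc (0:ℝ) T, f t * Complex.exp (-(Complex.I * (t:ℂ) * z))

/-- `∫_0^∞ g s exp (i s z) ds` (used for `Im z > 0`) -/
def Gp (g : ℝ → ℂ) (z : ℂ) : ℂ :=
  ∫ s in Set.Ioi (0:ℝ), g s * Complex.exp (Complex.I * (s:ℂ) * z)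

/-- `∫_0^t g s exp (i (s-t) z) ds` -/
def inn (g : ℝ → ℂ) (z : ℂ) (t : ℝ) : ℂ :=
  ∫ s in Set.Ioc (0:ℝ) t, g s * Complex.exp (Complex.I * ((s:ℂ) - (t:ℂ)) * z)

/-- `∫_0^T f t (∫_0^t g s exp (i (s-t) z) ds) dt` -/
def Ef (f g : ℝ → ℂ) (T : ℝ) (z : ℂ) : ℂ := ∫ t in Set.Ioc (0:ℝ) T, f t * inn g z t

/-- `∫_0^∞ f t (∫_0^t g s exp (i (s-t) z) ds) dt` (used for `Im z < 0`) -/
def Ei (f g : ℝ → ℂ) (z : ℂ) : ℂ := ∫ t in Set.Ioi (0:ℝ), f t * inn g z t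

/-- `τ ↦ ∫_T^∞ f t h (t+τ) dt` -/
def nx (f : ℝ → ℂ) (T : ℝ) (h : ℝ → ℂ) (τ : ℝ) : ℂ := ∫ t in Set.Ioi T, f t * h (t + τ)

/-- iterates of `nx` -/
def gk (f g : ℝ → ℂ) (T : ℝ) (k : ℕ) : ℝ → ℂ := (nx f T)^[k] g

/-- `Δ(T) = 2 p(T) - p(2T)` -/
def dl (p : ℝ → ℝ) (T : ℝ) : ℝ := 2 * p T - p (2 * T)

/-- slope of the chord of `p` over `[T, 2T]` -/
def sg (p : ℝ → ℝ) (T : ℝ) : ℝ := (p (2 * T) - p T) / T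

/-- the series which continues `Gp g` across the real axis -/
def ST (f g : ℝ → ℂ) (T : ℝ) (z : ℂ) : ℂ :=
  ∑' k : ℕ, (-1) ^ k * Ef f (gk f g T k) T z / (aT f T z) ^ (k + 1)

/-- hypotheses on `p` -/
structure PD (p : ℝ → ℝ) : Prop where
  meas : Measurable p
  conc : ConcaveOn ℝ (Set.Ici 0) p
  nn : ∀ t, 0 ≤ t → 0 ≤ p t
  sub : Tendsto (fun t => p t / t) atTop (𝓝 0)

/-- hypotheses on `f` -/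
structure FD (p : ℝ → ℝ) (f : ℝ → ℂ) : Prop where
  meas : Measurable f
  int : IntegrableOn (fun t => ‖f t‖ * Real.exp (p t)) (Set.Ioi 0)
  le1 : ∫ t in Set.Ioi (0:ℝ), ‖f t‖ * Real.exp (p t) ≤ 1

/-- growth hypothesis on `h` -/
structure BD (p : ℝ → ℝ) (h : ℝ → ℂ) (B : ℝ) : Prop where
  meas : Measurable h
  bd : ∀ t, 0 ≤ t → ‖h t‖ ≤ B * Real.exp (p t)

/-- `h` is orthogonal to the right translates of `f` -/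
def Rel (f h : ℝ → ℂ) : Prop := ∀ τ : ℝ, 0 < τ → ∫ t in Set.Ioi (0:ℝ), f t * h (t + τ) = 0

/-- CC: elementary facts on the concave function `p` -/
def S_CC : Prop := ∀ p : ℝ → ℝ, PD p →
  (∀ s t, 0 ≤ s → s ≤ t → p s ≤ p t) ∧
  (∀ s t, 0 ≤ s → 0 ≤ t → p (s + t) ≤ p s + p t) ∧
  (∀ T s t, 0 ≤ T → T ≤ s → T ≤ t → p (s + t) ≤ p s + p t - dl p T) ∧
  (∀ T, 0 ≤ T → 0 ≤ dl p T ∧ dl p T ≤ p T) ∧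
  (∀ T t, 0 < T → 0 ≤ t → p t ≤ p (2 * T) + sg p T * t) ∧
  (∀ T t, 0 < T → 0 ≤ t → t ≤ T → t * (p T / T) ≤ p t)

/-- GT: existence of good `T` -/
def S_GT : Prop := ∀ p : ℝ → ℝ, PD p →
  ¬ IntegrableOn (fun t => p t / (1 + t ^ 2)) (Set.Ioi 0) →
  ∀ A : ℝ, ∃ T, A ≤ T ∧ 1 ≤ T ∧ T ^ ((9:ℝ) / 10) ≤ dl p T

/-- FA: truncated transform -/
def S_FA : Prop := ∀ (p : ℝ → ℝ) (f : ℝ → ℂ), PD p → FD p f → ∀ T : ℝ, 0 < T →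
  Differentiable ℂ (aT f T) ∧ ∀ z : ℂ, z.im ≤ p T / T → ‖aT f T z‖ ≤ 1

/-- FF: the transform `fh` in the closed lower half plane -/
def S_FF : Prop := ∀ (p : ℝ → ℝ) (f : ℝ → ℂ), PD p → FD p f →
  DifferentiableOn ℂ (fh f) {z | z.im < 0} ∧
  (∀ z : ℂ, z.im ≤ 0 → ‖fh f z‖ ≤ 1) ∧
  (∀ (T : ℝ) (z : ℂ), 0 < T → z.im ≤ 0 → ‖aT f T z - fh f z‖ ≤ Real.exp (-p T)) ∧
  (∀ (T : ℝ) (z : ℂ), 0 < T → z.im ≤ -1 → ‖aT f T z - fh f z‖ ≤ Real.exp (-T))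

/-- GP: the transform `Gp` in the open upper half plane -/
def S_GP : Prop := ∀ (p : ℝ → ℝ) (h : ℝ → ℂ) (B : ℝ), PD p → BD p h B → 0 ≤ B →
  DifferentiableOn ℂ (Gp h) {z | 0 < z.im} ∧
  (∀ z : ℂ, 0 < z.im →
    IntegrableOn (fun s : ℝ => h s * Complex.exp (Complex.I * (s:ℂ) * z)) (Set.Ioi 0)) ∧
  (∀ (T : ℝ) (z : ℂ), 0 < T → sg p T < z.im →
    ‖Gp h z‖ ≤ B * Real.exp (p (2 * T)) / (z.im - sg p T))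

/-- EF: the entire function `Ef` -/
def S_EF : Prop := ∀ (p : ℝ → ℝ) (f h : ℝ → ℂ) (B : ℝ), PD p → FD p f → BD p h B → 0 ≤ B →
  ∀ T : ℝ, 0 < T → Differentiable ℂ (Ef f h T) ∧
    ∀ (Y : ℝ) (z : ℂ), 0 ≤ Y → z.im ≤ Y → ‖Ef f h T z‖ ≤ B * T * Real.exp (Y * T)

/-- EI: bound of `Ei` -/
def S_EI : Prop := ∀ (p : ℝ → ℝ) (f h : ℝ → ℂ) (B : ℝ), PD p → FD p f → BD p h B → 0 ≤ B →
  ∀ z : ℂ, z.im < 0 → ‖Ei f h z‖ ≤ B / (-z.im)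

/-- NX: the operator `nx` -/
def S_NX : Prop := ∀ (p : ℝ → ℝ) (f h : ℝ → ℂ) (B A T : ℝ), PD p → FD p f → BD p h B → 0 ≤ B →
  Rel f h → 0 ≤ A → 0 < T → (∀ t, T ≤ t → ‖h t‖ ≤ A * Real.exp (p t)) →
  BD p (nx f T h) A ∧ Rel f (nx f T h) ∧
  (∀ t, T ≤ t → ‖nx f T h t‖ ≤ A * Real.exp (-dl p T) * Real.exp (p t)) ∧
  (∀ τ, 0 < τ → nx f T h τ = - ∫ t in Set.Ioc (0:ℝ) T, f t * h (t + τ))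

/-- L6: identity in the upper half plane -/
def S_L6 : Prop := ∀ (p : ℝ → ℝ) (f h : ℝ → ℂ) (B T : ℝ), PD p → FD p f → BD p h B → 0 ≤ B →
  Rel f h → 0 < T → ∀ z : ℂ, 0 < z.im →
  Gp (nx f T h) z = Ef f h T z - aT f T z * Gp h z

/-- L7: identity in the lower half plane -/
def S_L7 : Prop := ∀ (p : ℝ → ℝ) (f h : ℝ → ℂ) (B T : ℝ), PD p → FD p f → BD p h B → 0 ≤ B →
  Rel f h → 0 < T → ∀ z : ℂ, z.im < 0 →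
  Ei f (nx f T h) z = fh f z * Ef f h T z - aT f T z * Ei f h z

/-- GK: the iterates -/
def S_GK : Prop := ∀ (p : ℝ → ℝ) (f g : ℝ → ℂ), PD p → FD p f → BD p g 1 → Rel f g →
  ∀ T : ℝ, 0 < T → ∀ k : ℕ, BD p (gk f g T k) 1 ∧ Rel f (gk f g T k) ∧
    BD p (gk f g T (k + 1)) (Real.exp (-(k * dl p T)))

/-- STA: analyticity and bound of the series -/
def S_STA : Prop := ∀ (p : ℝ → ℝ) (f g : ℝ → ℂ), PD p → FD p f → BD p g 1 → Rel f g →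
  ∀ T : ℝ, 0 < T →
  DifferentiableOn ℂ (ST f g T) {z | Real.exp (-dl p T) < ‖aT f T z‖} ∧
  (∀ (Y : ℝ) (z : ℂ), 0 ≤ Y → z.im ≤ Y → 2 * Real.exp (-dl p T) ≤ ‖aT f T z‖ →
    ‖ST f g T z‖ ≤ T * Real.exp (Y * T) * Real.exp (2 * dl p T))

/-- STB: the values of the series -/
def S_STB : Prop := ∀ (p : ℝ → ℝ) (f g : ℝ → ℂ), PD p → FD p f → BD p g 1 → Rel f g →
  ∀ T : ℝ, 0 < T → ∀ z : ℂ, Real.exp (-dl p T) < ‖aT f T z‖ →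
  (0 < z.im → ST f g T z = Gp g z) ∧ (z.im < 0 → fh f z * ST f g T z = Ei f g z)

/-- GL: gluing of analytic functions -/
def S_GL : Prop := ∀ Fp Fm : ℂ → ℂ, DifferentiableOn ℂ Fp {z | 0 < z.im} →
  (∀ z₀ : ℂ, z₀.im ≤ 0 → ∃ r : ℝ, 0 < r ∧ ∃ S : ℂ → ℂ, DifferentiableOn ℂ S (Metric.ball z₀ r) ∧
    (∀ z ∈ Metric.ball z₀ r, 0 < z.im → S z = Fp z) ∧
    (∀ z ∈ Metric.ball z₀ r, z.im < 0 → S z = Fm z)) →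
  ∃ G : ℂ → ℂ, Differentiable ℂ G ∧ (∀ z, 0 < z.im → G z = Fp z) ∧ (∀ z, z.im < 0 → G z = Fm z)

/-- HD: Harnack inequality in a disc for zero free bounded analytic functions -/
def S_HD : Prop := ∀ (r : ℝ) (E : ℂ → ℂ), 0 < r → DifferentiableOn ℂ E (Metric.ball 0 r) →
  (∀ z ∈ Metric.ball (0:ℂ) r, E z ≠ 0 ∧ ‖E z‖ ≤ 1) →
  ∀ z ∈ Metric.ball (0:ℂ) r,
    -Real.log ‖E z‖ ≤ (r + ‖z‖) / (r - ‖z‖) * (-Real.log ‖E 0‖)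

/-- HK: Harnack inequality in the lower half plane -/
def S_HK : Prop := ∀ F : ℂ → ℂ, DifferentiableOn ℂ F {z | z.im < 0} →
  (∀ z : ℂ, z.im < 0 → F z ≠ 0 ∧ ‖F z‖ ≤ 1) →
  (∀ x y : ℝ, 0 < y → -Real.log ‖F ⟨x, -y⟩‖ ≤
    (x ^ 2 + (y + 1) ^ 2) / y * (-Real.log ‖F ⟨0, -1⟩‖)) ∧
  (∀ x y y' : ℝ, 0 < y → y ≤ y' →
    -Real.log ‖F ⟨x, -y⟩‖ ≤ y' / y * (-Real.log ‖F ⟨x, -y'⟩‖) ∧
    -Real.log ‖F ⟨x, -y'⟩‖ ≤ y' / y * (-Real.log ‖F ⟨x, -y⟩‖))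

/-- BL: extraction of Blaschke factors -/
def S_BL : Prop := ∀ (r U : ℝ) (E : ℂ → ℂ), 0 < r → r < 1 → 0 ≤ U →
  DifferentiableOn ℂ E (Metric.ball 0 1) → (∀ z ∈ Metric.ball (0:ℂ) 1, ‖E z‖ ≤ 1) →
  Real.exp (-U) ≤ ‖E 0‖ →
  ∃ (N : ℕ) (w : Fin N → ℂ) (E' : ℂ → ℂ), (N:ℝ) * Real.log (1 / r) ≤ U ∧ (∀ k, ‖w k‖ ≤ r) ∧
    DifferentiableOn ℂ E' (Metric.ball 0 1) ∧ (∀ z ∈ Metric.ball (0:ℂ) 1, ‖E' z‖ ≤ 1) ∧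
    (∀ z : ℂ, ‖z‖ ≤ r → E' z ≠ 0) ∧ Real.exp (-U) ≤ ‖E' 0‖ ∧
    (∀ z ∈ Metric.ball (0:ℂ) 1,
      E z = (∏ k, (z - w k) / (1 - (starRingEnd ℂ) (w k) * z)) * E' z)

/-- VL: lower bound on a vertical segment -/
def S_VL : Prop := ∀ (F : ℂ → ℂ) (h d U X : ℝ), 0 < d → d ≤ h → h ≤ 1 → 1 ≤ U →
  DifferentiableOn ℂ F {z | z.im < h} → (∀ z : ℂ, z.im < h → ‖F z‖ ≤ 1) →
  Real.exp (-U) ≤ ‖F ⟨X, -1⟩‖ →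
  ∃ x : ℝ, |x - X| ≤ 1 ∧ ∀ y : ℝ, -1 ≤ y → y ≤ h - d →
    Real.exp (-(1200 * U ^ 2 / d ^ 3)) ≤ ‖F ⟨x, y⟩‖

/-- PS: Phragmen-Lindelof in the strip `|Im z| ≤ 1` along good vertical segments -/
def S_PS : Prop := ∀ (P : ℂ → ℂ) (M : ℝ), 0 ≤ M →
  DifferentiableOn ℂ P {z | z.im < 2 ∧ -2 < z.im} →
  (∀ x : ℝ, ‖P ⟨x, 1⟩‖ ≤ M) → (∀ x : ℝ, ‖P ⟨x, -1⟩‖ ≤ M) →
  (∀ A : ℝ, ∃ T : ℝ, A ≤ T ∧ 1 ≤ T ∧ ∃ x₁ x₂ : ℝ, |x₁ - 2 * Real.log T| ≤ 1 ∧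
    |x₂ + 2 * Real.log T| ≤ 1 ∧
    ∀ y : ℝ, -1 ≤ y → y ≤ 1 → ‖P ⟨x₁, y⟩‖ ≤ Real.exp (8 * T) ∧ ‖P ⟨x₂, y⟩‖ ≤ Real.exp (8 * T)) →
  ∀ z : ℂ, -1 ≤ z.im → z.im ≤ 1 → ‖P z‖ ≤ M

/-- PQ: Phragmen-Lindelof in the fourth quadrant -/
def S_PQ : Prop := ∀ (Γ : ℂ → ℂ) (M A B : ℝ), 0 ≤ M → 0 ≤ A → 0 ≤ B → Differentiable ℂ Γ →
  (∀ x : ℝ, 0 ≤ x → ‖Γ ⟨x, 0⟩‖ ≤ M) →
  (∀ u s : ℝ, 0 ≤ u → 0 ≤ s →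
    ‖Γ ⟨u, -s⟩‖ ≤ Real.exp (A + B * (u ^ 2 + (2 + s) ^ 2) / (1 + s))) →
  ∃ C : ℝ, 0 ≤ C ∧ ∀ u s : ℝ, 0 ≤ u → 0 ≤ s → ‖Γ ⟨u, -s⟩‖ ≤ C * Real.exp (C * (u + s))

/-- PF: final Phragmen-Lindelof argument -/
def S_PF : Prop := ∀ (Γ : ℂ → ℂ) (M A B : ℝ), 0 ≤ M → 0 ≤ A → 0 ≤ B → Differentiable ℂ Γ →
  (∀ z : ℂ, 0 ≤ z.im → ‖Γ z‖ ≤ M) →
  (∀ u s : ℝ, 0 ≤ s → ‖Γ ⟨u, -s⟩‖ ≤ Real.exp (A + B * (u ^ 2 + (2 + s) ^ 2) / (1 + s))) →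
  (∀ δ : ℝ, 0 < δ → ∃ C : ℝ, ∀ s : ℝ, 0 ≤ s → ‖Γ ⟨0, -s⟩‖ ≤ C * Real.exp (δ * s)) →
  Tendsto (fun y : ℝ => Γ ⟨0, y⟩) atTop (𝓝 0) →
  ∀ z, Γ z = 0

/-- IN: injectivity of the transform -/
def S_IN : Prop := ∀ (p : ℝ → ℝ) (g : ℝ → ℂ) (B : ℝ), PD p → BD p g B → 0 ≤ B →
  (∀ z : ℂ, 0 < z.im → Gp g z = 0) → ∀ᵐ t ∂(volume.restrict (Set.Ioi (0:ℝ))), g t = 0

/-- EN: the entire function -/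
def S_EN : Prop := ∀ (p : ℝ → ℝ) (f g : ℝ → ℂ), PD p → FD p f → BD p g 1 → Rel f g →
  ¬ IntegrableOn (fun t => p t / (1 + t ^ 2)) (Set.Ioi 0) →
  (∀ z : ℂ, z.im ≤ 0 → fh f z ≠ 0) →
  ∃ G : ℂ → ℂ, Differentiable ℂ G ∧ (∀ z, 0 < z.im → G z = Gp g z) ∧
    (∀ z, z.im < 0 → fh f z * G z = Ei f g z) ∧
    (∀ (T : ℝ) (z : ℂ), 0 < T → Real.exp (-dl p T) < ‖aT f T z‖ → G z = ST f g T z)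

/-- VB: bounds on vertical segments -/
def S_VB : Prop := ∀ (p : ℝ → ℝ) (f g : ℝ → ℂ) (G : ℂ → ℂ), PD p → FD p f → BD p g 1 → Rel f g →
  ¬ IntegrableOn (fun t => p t / (1 + t ^ 2)) (Set.Ioi 0) →
  (∀ z : ℂ, z.im ≤ 0 → fh f z ≠ 0) →
  (∀ z, 0 < z.im → G z = Gp g z) →
  (∀ (T : ℝ) (z : ℂ), 0 < T → Real.exp (-dl p T) < ‖aT f T z‖ → G z = ST f g T z) →
  ∀ A : ℝ, ∃ T : ℝ, A ≤ T ∧ 1 ≤ T ∧ ∃ x₁ x₂ : ℝ, |x₁ - 2 * Real.log T| ≤ 1 ∧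
    |x₂ + 2 * Real.log T| ≤ 1 ∧
    ∀ y : ℝ, -1 ≤ y → y ≤ 1 → ‖G ⟨x₁, y⟩‖ ≤ Real.exp (8 * T) ∧ ‖G ⟨x₂, y⟩‖ ≤ Real.exp (8 * T)

/-- MN: the main theorem in normalised form -/
def S_MN : Prop := ∀ (p : ℝ → ℝ) (f g : ℝ → ℂ), PD p → FD p f → BD p g 1 → Rel f g →
  ¬ IntegrableOn (fun t => p t / (1 + t ^ 2)) (Set.Ioi 0) →
  (∀ z : ℂ, z.im ≤ 0 → fh f z ≠ 0) →
  (∀ δ : ℝ, 0 < δ → ∃ᶠ y : ℝ in atTop, -δ * y < Real.log ‖fh f ⟨0, -y⟩‖) →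
  ∀ᵐ t ∂(volume.restrict (Set.Ioi (0:ℝ))), g t = 0

end RtRt

end
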