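import Mathlib
import Pool.Agent.H636R2.RT.Defs

open Real Set Filter Topology MeasureTheory

namespace RtRt

lemma gt_aux_two : (2:ℝ) ^ (-(1/10:ℝ)) ≤ 0.95 := by
  have h : (2:ℝ) ^ (-(1/10:ℝ)) = ((2:ℝ)⁻¹) ^ (1/10:ℝ) := by
    rw [Real.inv_rpow (by norm_num), ← Real.rpow_neg (by norm_num)]
  rw [h]
  have h2 : ((2:ℝ)⁻¹) ≤ (0.95:ℝ) ^ (10:ℕ) := by norm_num
  calc ((2:ℝ)⁻¹) ^ (1/10:ℝ) ≤ ((0.95:ℝ) ^ (10:ℕ)) ^ (1/10:ℝ) :=
        Real.rpow_le_rpow (by norm_num) h2 (by norm_num)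
    _ = 0.95 := by
        rw [← Real.rpow_natCast, ← Real.rpow_mul (by norm_num)]
        norm_num

/-- the telescoping argument -/
lemma gt_aux_core (p : ℝ → ℝ) (hsub : Tendsto (fun t => p t / t) atTop (𝓝 0)) {A0 : ℝ}
    (hA0 : 1 ≤ A0) (h : ∀ T, A0 ≤ T → 2 * p T - p (2 * T) < T ^ (9/10:ℝ)) :
    ∀ T, A0 ≤ T → p T ≤ 10 * T ^ (9/10:ℝ) := by
  intro T hT
  set q : ℝ → ℝ := fun t => p t / t - 10 * t ^ (-(1/10:ℝ)) with hq
  have hstep : ∀ t, A0 ≤ t → q t ≤ q (2 * t) := by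
    intro t ht
    have ht0 : 0 < t := by linarith
    have h1 := h t ht
    have h2 : (2 * t) ^ (-(1/10:ℝ)) = 2 ^ (-(1/10:ℝ)) * t ^ (-(1/10:ℝ)) :=
      Real.mul_rpow (by norm_num) ht0.le
    have h3 : t ^ (9/10:ℝ) = t * t ^ (-(1/10:ℝ)) := by
      have := Real.rpow_add ht0 1 (-(1/10:ℝ))
      rw [Real.rpow_one] at this
      rw [← this]; norm_num
    have h4 : 0 < t ^ (-(1/10:ℝ)) := Real.rpow_pos_of_pos ht0 _
    have h5 : p t / t - p (2 * t) / (2 * t) = (2 * p t - p (2 * t)) / (2 * t) := by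
      field_simp
    have h6 : (2 * p t - p (2 * t)) / (2 * t) ≤ (1/2) * t ^ (-(1/10:ℝ)) := by
      rw [div_le_iff₀ (by linarith)]
      rw [h3] at h1
      nlinarith
    have h7 := gt_aux_two
    simp only [hq]
    rw [h2]
    nlinarith
  have hiter : ∀ n : ℕ, q T ≤ q (2 ^ n * T) := by
    intro n
    induction n with
    | zero => simp
    | succ n ih =>
      refine ih.trans ?_
      have := hstep (2 ^ n * T) (by
        have : (1:ℝ) ≤ 2 ^ n := one_le_pow₀ (by norm_num)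
        nlinarith)
      have e : (2:ℝ) ^ (n + 1) * T = 2 * (2 ^ n * T) := by ring
      rw [e]
      exact this
  have hlim : Tendsto (fun n : ℕ => q (2 ^ n * T)) atTop (𝓝 0) := by
    have hT0 : 0 < T := by linarith
    have hseq : Tendsto (fun n : ℕ => (2:ℝ) ^ n * T) atTop atTop :=
      (tendsto_pow_atTop_atTop_of_one_lt (by norm_num)).atTop_mul_const hT0
    have h1 : Tendsto q atTop (𝓝 0) := by
      have h2 : Tendsto (fun t : ℝ => t ^ (-(1/10:ℝ))) atTop (𝓝 0) :=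
        tendsto_rpow_neg_atTop (by norm_num)
      have := hsub.sub (h2.const_mul 10)
      rw [mul_zero, sub_zero] at this
      exact this
    exact h1.comp hseq
  have hle : q T ≤ 0 := ge_of_tendsto' hlim hiter
  have hT0 : 0 < T := by linarith
  have h3 : T ^ (9/10:ℝ) = T * T ^ (-(1/10:ℝ)) := by
    have := Real.rpow_add hT0 1 (-(1/10:ℝ))
    rw [Real.rpow_one] at this
    rw [← this]; norm_num
  simp only [hq] at hle
  have h4 : p T / T ≤ 10 * T ^ (-(1/10:ℝ)) := by linarith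
  rw [div_le_iff₀ hT0] at h4
  rw [h3]; linarith

/-- integrability of `p t/(1+t^2)` -/
lemma gt_aux_int (p : ℝ → ℝ) (hmono : MonotoneOn p (Ici 0)) (h0 : ∀ t, 0 ≤ t → 0 ≤ p t)
    (hm : AEStronglyMeasurable p (volume.restrict (Ioi 0))) {A0 : ℝ}
    (hA0 : 1 ≤ A0) (h : ∀ T, A0 ≤ T → p T ≤ 10 * T ^ (9/10:ℝ)) :
    IntegrableOn (fun t => p t / (1 + t ^ 2)) (Ioi 0) := by
  have hmf : AEStronglyMeasurable (fun t => p t / (1 + t ^ 2)) (volume.restrict (Ioi (0:ℝ))) := by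
    exact (hm.aemeasurable.div
      (by fun_prop : Continuous fun t : ℝ => 1 + t ^ 2).measurable.aemeasurable).aestronglyMeasurable
  have hsplit : Ioi (0:ℝ) = Ioc 0 A0 ∪ Ioi A0 := (Ioc_union_Ioi_eq_Ioi (by linarith)).symm
  rw [hsplit]
  refine IntegrableOn.union ?_ ?_
  · refine Integrable.of_bound (C := p A0) ?_ ?_
    · exact AEStronglyMeasurable.mono_set Ioc_subset_Ioi_self hmf
    · filter_upwards [ae_restrict_mem measurableSet_Ioc] with t ht
      have ht0 : 0 < t := ht.1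
      have hp0 := h0 t ht0.le
      have hpA : p t ≤ p A0 := hmono ht0.le (by show (0:ℝ) ≤ A0; linarith) ht.2
      rw [Real.norm_eq_abs, abs_of_nonneg (by positivity)]
      refine (div_le_self hp0 ?_).trans hpA
      nlinarith [sq_nonneg t]
  · have hint : IntegrableOn (fun t : ℝ => 10 * t ^ (-(11/10):ℝ)) (Ioi A0) :=
      (integrableOn_Ioi_rpow_of_lt (by norm_num) (by linarith)).const_mul 10
    refine Integrable.mono' hint (AEStronglyMeasurable.mono_set (Ioi_subset_Ioi (by linarith)) hmf) ?_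
    filter_upwards [ae_restrict_mem measurableSet_Ioi] with t ht
    have ht' : A0 < t := ht
    have ht0 : 0 < t := by linarith
    have hp := h t ht'.le
    have hp0 := h0 t ht0.le
    rw [Real.norm_eq_abs, abs_of_nonneg (by positivity)]
    rw [div_le_iff₀ (by positivity)]
    have h3 : t ^ (9/10:ℝ) = t ^ (-(11/10):ℝ) * t ^ 2 := by
      have := Real.rpow_add ht0 (-(11/10):ℝ) 2
      rw [← Real.rpow_natCast t 2]
      push_cast
      rw [← this]; norm_num
    have h4 : 0 < t ^ (-(11/10):ℝ) := Real.rpow_pos_of_pos ht0 _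
    rw [h3] at hp
    nlinarith

theorem rt_gt (h : S_CC) : S_GT := by
  intro p hp hni A
  obtain ⟨h1, -, -, -, -, -⟩ := h p hp
  by_contra hcon
  push Not at hcon
  apply hni
  have hA0 : (1:ℝ) ≤ max A 1 := le_max_right _ _
  have hlt : ∀ T, max A 1 ≤ T → 2 * p T - p (2 * T) < T ^ (9/10:ℝ) := by
    intro T hT
    have := hcon T ((le_max_left _ _).trans hT) (hA0.trans hT)
    simpa [dl] using this
  refine gt_aux_int p ?_ hp.nn hp.meas.aestronglyMeasurable hA0 (gt_aux_core p hp.sub hA0 hlt)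
  intro s hs t _ hst
  exact h1 s t hs hst

end RtRt
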