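import Mathlib
import Pool.Agent.H636R2.RT.Defs

namespace RtRt

open Complex Metric

theorem hd_core {E : ℂ → ℂ} {r : ℝ} (hr : 0 < r) (hE : DifferentiableOn ℂ E (ball 0 r))
    (h0 : ∀ z ∈ ball (0 : ℂ) r, E z ≠ 0) (h1 : ∀ z ∈ ball (0 : ℂ) r, ‖E z‖ ≤ 1) {z : ℂ}
    (hz : z ∈ ball (0 : ℂ) r) :
    -Real.log ‖E z‖ ≤ (r + ‖z‖) / (r - ‖z‖) * (-Real.log ‖E 0‖) := by
  have h00 : (0 : ℂ) ∈ ball (0 : ℂ) r := mem_ball_self hr
  have hzr : ‖z‖ < r := mem_ball_zero_iff.mp hz
  -- logarithm
  have hd : DifferentiableOn ℂ (fun z => deriv E z / E z) (ball 0 r) :=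
    (hE.deriv isOpen_ball).div hE h0
  obtain ⟨L, hL0, hL⟩ := hd.isExactOn_ball.with_val_at 0 (Complex.log (E 0))
  have hexp : ∀ w ∈ ball (0 : ℂ) r, E w = exp (L w) := by
    have hF : ∀ w ∈ ball (0 : ℂ) r, HasDerivAt (fun w => E w * exp (-L w)) 0 w := by
      intro w hw
      have e1 : HasDerivAt E (deriv E w) w :=
        ((hE w hw).differentiableAt (isOpen_ball.mem_nhds hw)).hasDerivAt
      have e2 : HasDerivAt (fun x => exp (-L x)) (exp (-L w) * (-(deriv E w / E w))) w :=
        (hL w hw).neg.cexp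
      have e3 : HasDerivAt (fun x => E x * exp (-L x))
        (deriv E w * exp (-L w) + E w * (exp (-L w) * (-(deriv E w / E w)))) w := e1.mul e2
      have h := h0 w hw
      have e4 : deriv E w * exp (-L w) + E w * (exp (-L w) * (-(deriv E w / E w))) = 0 := by
        have : E w * (exp (-L w) * (-(deriv E w / E w))) = -(exp (-L w) * (deriv E w / E w * E w)) := by
          ring
        rw [this, div_mul_cancel₀ _ h]
        ring
      rw [e4] at e3
      exact e3
    have hconst : ∀ w ∈ ball (0 : ℂ) r, E w * exp (-L w) = E 0 * exp (-L 0) := by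
      intro w hw
      apply (convex_ball (0 : ℂ) r).is_const_of_fderivWithin_eq_zero (𝕜 := ℂ)
        (f := fun w => E w * exp (-L w)) _ _ hw h00
      · intro u hu
        exact (hF u hu).differentiableAt.differentiableWithinAt
      · intro u hu
        rw [fderivWithin_of_isOpen isOpen_ball hu]
        have := (hF u hu).hasFDerivAt.fderiv
        rw [this]
        ext; simp
    intro w hw
    have := hconst w hw
    rw [hL0, exp_neg (Complex.log (E 0)), exp_log (h0 0 h00), mul_inv_cancel₀ (h0 0 h00),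
      exp_neg] at this
    have hne := exp_ne_zero (L w)
    field_simp at this
    exact this
  have hlog : ∀ w ∈ ball (0 : ℂ) r, Real.log ‖E w‖ = (L w).re := by
    intro w hw
    rw [hexp w hw, norm_exp, Real.log_exp]
  have hre : ∀ w ∈ ball (0 : ℂ) r, (L w).re ≤ 0 := by
    intro w hw
    rw [← hlog w hw]
    exact Real.log_nonpos (norm_nonneg _) (h1 w hw)
  set M : ℝ := -Real.log ‖E 0‖ with hM
  have hM' : M = -(L 0).re := by rw [hM, hlog 0 h00]
  have hM0 : 0 ≤ M := by rw [hM']; linarith [hre 0 h00]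
  have key : ∀ ε : ℝ, 0 < ε → ‖L z - L 0‖ ≤ 2 * (M + ε) * ‖z‖ / (r - ‖z‖) := by
    intro ε hε
    apply borelCaratheodory_zero (f := fun w => L w - L 0) (M := M + ε) (R := r)
      (by linarith) _ _ hr hz (by simp)
    · intro w hw
      exact ((hL w hw).differentiableAt.sub_const _).differentiableWithinAt
    · intro w hw
      simp only [Set.mem_ofPred_eq, sub_re]
      linarith [hre w hw]
  have hden : 0 < r - ‖z‖ := by linarith
  have key2 : ‖L z - L 0‖ ≤ 2 * M * ‖z‖ / (r - ‖z‖) := by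
    apply le_of_forall_pos_le_add
    intro δ hδ
    have h := key (δ * (r - ‖z‖) / (2 * (‖z‖ + 1))) (by positivity)
    refine h.trans ?_
    rw [div_add' _ _ _ hden.ne', div_le_div_iff_of_pos_right hden]
    have h2 : δ * (r - ‖z‖) / (2 * (‖z‖ + 1)) * (2 * ‖z‖) ≤ δ * (r - ‖z‖) := by
      rw [div_mul_eq_mul_div, div_le_iff₀ (by positivity)]
      have : 0 ≤ δ * (r - ‖z‖) := by positivity
      nlinarith [norm_nonneg z]
    nlinarith
  rw [hlog z hz]
  have h3 : -(L z - L 0).re ≤ ‖L z - L 0‖ := (neg_le_abs _).trans (abs_re_le_norm _)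
  rw [sub_re] at h3
  have h4 : (r + ‖z‖) / (r - ‖z‖) * M = M + 2 * M * ‖z‖ / (r - ‖z‖) := by
    field_simp
    ring
  rw [h4]
  linarith

theorem rt_hd : S_HD := by
  intro r E hr hE h z hz
  exact hd_core hr hE (fun w hw => (h w hw).1) (fun w hw => (h w hw).2) hz

end RtRt
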