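import Pool.Agent.H636R2.RT.Defs

open MeasureTheory FourierTransform
open scoped SchwartzMap ContDiff

noncomputable section

namespace RtRt

theorem in_inj (k : ℝ → ℂ) (hk : Integrable k)
    (h : ∀ x : ℝ, ∫ s, k s * Complex.exp (Complex.I * s * x) = 0) : ∀ᵐ s, k s = 0 := by
  refine ae_eq_zero_of_integral_contDiff_smul_eq_zero hk.locallyIntegrable fun g hg hc => ?_
  have hgC : ContDiff ℝ ∞ (fun s => (g s : ℂ)) := Complex.ofRealCLM.contDiff.comp hg
  have hcC : HasCompactSupport (fun s => (g s : ℂ)) := by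
    exact hc.comp_left (g := fun x : ℝ => (x : ℂ)) (by simp)
  let G : 𝓢(ℝ, ℂ) := hcC.toSchwartzMap hgC
  let H : 𝓢(ℝ, ℂ) := 𝓕⁻ G
  have h1 : 𝓕 H = G := by simp [H]
  have h2 : ∀ w, 𝓕 k w = 0 := by
    intro w
    rw [Real.fourier_real_eq_integral_exp_smul]
    rw [← h (-2 * Real.pi * w)]
    refine integral_congr_ae (Filter.Eventually.of_forall fun s => ?_)
    simp only [smul_eq_mul]
    rw [mul_comm]
    congr 2
    push_cast
    ring
  have h3 := VectorFourier.integral_fourierIntegral_smul_eq_flip (f := k) (g := (H : ℝ → ℂ))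
    (μ := volume) (ν := volume) (L := innerₗ ℝ) Real.continuous_fourierChar continuous_inner hk
    H.integrable
  have h4 : ∀ w, VectorFourier.fourierIntegral Real.fourierChar volume (innerₗ ℝ) k w = 𝓕 k w :=
    fun w => rfl
  have h5 : ∀ w, VectorFourier.fourierIntegral Real.fourierChar volume (innerₗ ℝ).flip
      (H : ℝ → ℂ) w = (g w : ℂ) := by
    intro w
    have h6 : (𝓕 H : 𝓢(ℝ, ℂ)) w = (g w : ℂ) := by rw [h1]; rfl
    rw [← h6]
    simp
    rfl
  simp only [h4, h5, h2] at h3
  simp only [zero_smul, integral_zero] at h3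
  rw [h3]
  refine integral_congr_ae (Filter.Eventually.of_forall fun s => ?_)
  simp [mul_comm]

theorem rt_in (h : S_GP) : S_IN := by
  intro p g B hp hg hB hz
  obtain ⟨-, hint, -⟩ := h p g B hp hg hB
  have h1 : IntegrableOn (fun s : ℝ => g s * Complex.exp (Complex.I * (s:ℂ) * Complex.I))
      (Set.Ioi 0) := hint Complex.I (by simp)
  have h2 : ∀ᵐ s, (Set.Ioi (0:ℝ)).indicator
      (fun s : ℝ => g s * Complex.exp (Complex.I * (s:ℂ) * Complex.I)) s = 0 := by
    apply in_inj
    · exact (integrable_indicator_iff measurableSet_Ioi).mpr h1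
    · intro x
      have h3 := hz (Complex.I + x) (by simp)
      unfold Gp at h3
      rw [← h3, ← integral_indicator measurableSet_Ioi]
      refine integral_congr_ae (Filter.Eventually.of_forall fun s => ?_)
      by_cases hs : s ∈ Set.Ioi (0:ℝ)
      · simp only [Set.indicator_of_mem hs]
        rw [mul_assoc, ← Complex.exp_add]
        congr 2
        ring
      · simp only [Set.indicator_of_notMem hs]
        rw [zero_mul]
  rw [ae_restrict_iff' measurableSet_Ioi]
  filter_upwards [h2] with s hs hs0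
  rw [Set.indicator_of_mem hs0] at hs
  exact (mul_eq_zero.mp hs).resolve_right (Complex.exp_ne_zero _)

end RtRt

end
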