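import Pool.Agent.H636R2.RT.Defs

open MeasureTheory Set Filter Topology

noncomputable section

namespace RtRt

/-- cut-off integrand -/
def l7_g (h : ℝ → ℂ) (z : ℂ) (s : ℝ) : ℂ :=
  (Ioi (0:ℝ)).indicator (fun s => h s * Complex.exp (Complex.I * (s:ℂ) * z)) s

/-- its primitive -/
def l7_M (h : ℝ → ℂ) (z : ℂ) (t : ℝ) : ℂ := ∫ s in (0:ℝ)..t, l7_g h z s

/-- twisted `f` -/
def l7_phi (f : ℝ → ℂ) (z : ℂ) (t : ℝ) : ℂ := f t * Complex.exp (-(Complex.I * (t:ℂ) * z))

theorem l7_norm_exp (s : ℝ) (z : ℂ) :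
    ‖Complex.exp (Complex.I * (s:ℂ) * z)‖ = Real.exp (-(s * z.im)) := by
  rw [Complex.norm_exp]
  congr 1
  simp [Complex.mul_re, Complex.mul_im]

theorem l7_norm_exp' (s : ℝ) (z : ℂ) :
    ‖Complex.exp (-(Complex.I * (s:ℂ) * z))‖ = Real.exp (s * z.im) := by
  rw [Complex.norm_exp]
  congr 1
  simp [Complex.mul_re, Complex.mul_im]

theorem l7_meas_g {h : ℝ → ℂ} (hh : Measurable h) (z : ℂ) : Measurable (l7_g h z) := by
  unfold l7_g
  exact (hh.mul (by fun_prop)).indicator measurableSet_Ioi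

theorem l7_bound_g (h0 : S_CC) {p : ℝ → ℝ} {h : ℝ → ℂ} {B : ℝ} (hp : PD p) (hh : BD p h B)
    (hB : 0 ≤ B) {z : ℂ} (hz : z.im < 0) {s m : ℝ} (hsm : s ≤ m) :
    ‖l7_g h z s‖ ≤ B * Real.exp (p m) * Real.exp (-(m * z.im)) := by
  unfold l7_g
  by_cases hs : s ∈ Ioi (0:ℝ)
  · rw [indicator_of_mem hs, norm_mul, l7_norm_exp]
    have hs' : 0 < s := hs
    refine mul_le_mul ?_ ?_ (Real.exp_pos _).le (by positivity)
    · refine (hh.bd s hs'.le).trans (mul_le_mul_of_nonneg_left ?_ hB)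
      exact Real.exp_le_exp.2 ((h0 p hp).1 s m hs'.le hsm)
    · refine Real.exp_le_exp.2 ?_
      nlinarith
  · rw [indicator_of_notMem hs, norm_zero]
    positivity

theorem l7_ii (h0 : S_CC) {p : ℝ → ℝ} {h : ℝ → ℂ} {B : ℝ} (hp : PD p) (hh : BD p h B)
    (hB : 0 ≤ B) {z : ℂ} (hz : z.im < 0) (a b : ℝ) :
    IntervalIntegrable (l7_g h z) volume a b := by
  rw [intervalIntegrable_iff]
  refine Measure.integrableOn_of_bounded (M := B * Real.exp (p (max |a| |b|)) *
    Real.exp (-((max |a| |b|) * z.im))) ?_ (l7_meas_g hh.meas z).aestronglyMeasurable ?_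
  · rw [uIoc, Real.volume_Ioc]
    exact ENNReal.ofReal_ne_top
  · refine ae_restrict_of_forall_mem measurableSet_uIoc fun s hs => ?_
    refine l7_bound_g h0 hp hh hB hz ?_
    rw [uIoc, mem_Ioc] at hs
    exact hs.2.trans (max_le_max (le_abs_self a) (le_abs_self b))

theorem l7_cont (h0 : S_CC) {p : ℝ → ℝ} {h : ℝ → ℂ} {B : ℝ} (hp : PD p) (hh : BD p h B)
    (hB : 0 ≤ B) {z : ℂ} (hz : z.im < 0) : Continuous (l7_M h z) :=
  intervalIntegral.continuous_primitive (fun a b => l7_ii h0 hp hh hB hz a b) 0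

theorem l7_M_bound (h0 : S_CC) {p : ℝ → ℝ} {h : ℝ → ℂ} {B : ℝ} (hp : PD p) (hh : BD p h B)
    (hB : 0 ≤ B) {z : ℂ} (hz : z.im < 0) {t : ℝ} (ht : 0 ≤ t) :
    ‖l7_M h z t‖ ≤ B / (-z.im) * Real.exp (p t) * Real.exp (-(t * z.im)) := by
  have hy : 0 < -z.im := by linarith
  have hder : ∀ s ∈ uIcc (0:ℝ) t, HasDerivAt
      (fun s : ℝ => B / (-z.im) * Real.exp (p t) * Real.exp (-(s * z.im)))
      (B * Real.exp (p t) * Real.exp (-(s * z.im))) s := by
    intro s _
    have h1 : HasDerivAt (fun s : ℝ => -(s * z.im)) (-z.im) s := by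
      have e : (fun s : ℝ => -(s * z.im)) = fun s : ℝ => s * (-z.im) := by
        funext s
        ring
      rw [e]
      simpa using (hasDerivAt_id' s).mul_const (-z.im)
    have h2 := (h1.exp).const_mul (B / (-z.im) * Real.exp (p t))
    refine h2.congr_deriv ?_
    have h3 : B / (-z.im) * (-z.im) = B := div_mul_cancel₀ _ hy.ne'
    calc B / (-z.im) * Real.exp (p t) * (Real.exp (-(s * z.im)) * -z.im)
        = (B / (-z.im) * (-z.im)) * Real.exp (p t) * Real.exp (-(s * z.im)) := by ring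
      _ = B * Real.exp (p t) * Real.exp (-(s * z.im)) := by rw [h3]
  have hint : IntervalIntegrable (fun s : ℝ => B * Real.exp (p t) * Real.exp (-(s * z.im)))
      volume 0 t := by
    apply Continuous.intervalIntegrable
    fun_prop
  have h1 : ‖∫ s in (0:ℝ)..t, l7_g h z s‖ ≤
      ∫ s in (0:ℝ)..t, B * Real.exp (p t) * Real.exp (-(s * z.im)) := by
    refine intervalIntegral.norm_integral_le_of_norm_le ht ?_ hint
    refine Eventually.of_forall fun s hs => ?_
    unfold l7_g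
    rw [indicator_of_mem (show s ∈ Ioi (0:ℝ) from hs.1), norm_mul, l7_norm_exp]
    refine mul_le_mul_of_nonneg_right ?_ (Real.exp_pos _).le
    refine (hh.bd s hs.1.le).trans (mul_le_mul_of_nonneg_left ?_ hB)
    exact Real.exp_le_exp.2 ((h0 p hp).1 s t hs.1.le hs.2)
  rw [intervalIntegral.integral_eq_sub_of_hasDerivAt hder hint] at h1
  unfold l7_M
  refine h1.trans ?_
  have : 0 ≤ B / (-z.im) * Real.exp (p t) * Real.exp (-(0 * z.im)) := by positivity
  linarith

/-- factoring the exponential out of `inn` -/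
theorem l7_inn0 (k : ℝ → ℂ) (z : ℂ) (t : ℝ) :
    inn k z t = Complex.exp (-(Complex.I * (t:ℂ) * z)) *
      ∫ s in Ioc (0:ℝ) t, k s * Complex.exp (Complex.I * (s:ℂ) * z) := by
  unfold inn
  rw [← integral_const_mul]
  congr 1
  funext s
  have : Complex.exp (Complex.I * ((s:ℂ) - (t:ℂ)) * z) =
      Complex.exp (-(Complex.I * (t:ℂ) * z)) * Complex.exp (Complex.I * (s:ℂ) * z) := by
    rw [← Complex.exp_add]
    congr 1
    ring
  rw [this]
  ring

theorem l7_M_eq (h : ℝ → ℂ) (z : ℂ) {t : ℝ} (ht : 0 ≤ t) :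
    ∫ s in Ioc (0:ℝ) t, h s * Complex.exp (Complex.I * (s:ℂ) * z) = l7_M h z t := by
  unfold l7_M
  rw [intervalIntegral.integral_of_le ht]
  refine setIntegral_congr_fun measurableSet_Ioc fun s hs => ?_
  unfold l7_g
  rw [indicator_of_mem (show s ∈ Ioi (0:ℝ) from hs.1)]

theorem l7_inn (h : ℝ → ℂ) (z : ℂ) {t : ℝ} (ht : 0 ≤ t) :
    inn h z t = Complex.exp (-(Complex.I * (t:ℂ) * z)) * l7_M h z t := by
  rw [l7_inn0, l7_M_eq h z ht]

theorem l7_fint {p : ℝ → ℝ} {f : ℝ → ℂ} (hf : FD p f) {S : Set ℝ} (hS : S ⊆ Ioi 0) :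
    Integrable (fun t => ‖f t‖ * Real.exp (p t)) (volume.restrict S) :=
  hf.int.mono_set hS

theorem l7_shift (h : ℝ → ℂ) (z : ℂ) (h0 : S_CC) {p : ℝ → ℝ} {B : ℝ} (hp : PD p)
    (hh : BD p h B) (hB : 0 ≤ B) (hz : z.im < 0) {s t : ℝ} (hs : 0 < s) (ht : 0 ≤ t) (c : ℂ) :
    ∫ u in Ioc (0:ℝ) t, c * h (s + u) * Complex.exp (Complex.I * (u:ℂ) * z) =
      c * Complex.exp (-(Complex.I * (s:ℂ) * z)) * (l7_M h z (s + t) - l7_M h z s) := by
  have h1 : ∫ u in Ioc (0:ℝ) t, c * h (s + u) * Complex.exp (Complex.I * (u:ℂ) * z) =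
      ∫ u in Ioc (0:ℝ) t, c * Complex.exp (-(Complex.I * (s:ℂ) * z)) * l7_g h z (s + u) := by
    refine setIntegral_congr_fun measurableSet_Ioc fun u hu => ?_
    have hsu : s + u ∈ Ioi (0:ℝ) := by
      have := hu.1
      simp only [mem_Ioi]
      linarith
    unfold l7_g
    rw [indicator_of_mem hsu]
    have : Complex.exp (Complex.I * (u:ℂ) * z) = Complex.exp (-(Complex.I * (s:ℂ) * z)) *
        Complex.exp (Complex.I * ((s + u : ℝ):ℂ) * z) := by
      rw [← Complex.exp_add]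
      congr 1
      push_cast
      ring
    simp only [this]
    ring
  rw [h1, integral_const_mul, ← intervalIntegral.integral_of_le ht,
    intervalIntegral.integral_comp_add_left (fun v => l7_g h z v) s, add_zero]
  congr 1
  unfold l7_M
  rw [intervalIntegral.integral_interval_sub_left (l7_ii h0 hp hh hB hz _ _)
    (l7_ii h0 hp hh hB hz _ _)]

theorem l7_Q (h0 : S_CC) {p : ℝ → ℝ} {f h : ℝ → ℂ} {B : ℝ} (hp : PD p) (hf : FD p f)
    (hh : BD p h B) (hB : 0 ≤ B) {z : ℂ} (hz : z.im < 0) {S : Set ℝ} (hSm : MeasurableSet S)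
    (hS : S ⊆ Ioi 0) {t : ℝ} (ht : 0 ≤ t) :
    ∫ u in Ioc (0:ℝ) t, (∫ s in S, f s * h (s + u)) * Complex.exp (Complex.I * (u:ℂ) * z) =
      ∫ s in S, l7_phi f z s * (l7_M h z (s + t) - l7_M h z s) := by
  have hfm := hf.meas
  have hhm := hh.meas
  have hint : Integrable (fun x : ℝ × ℝ =>
      f x.2 * h (x.2 + x.1) * Complex.exp (Complex.I * (x.1:ℂ) * z))
      ((volume.restrict (Ioc (0:ℝ) t)).prod (volume.restrict S)) := by
    have hc : Integrable (fun _ : ℝ => B * Real.exp (p t) * Real.exp (-(t * z.im)))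
        (volume.restrict (Ioc (0:ℝ) t)) := by
      refine integrableOn_const ?_
      rw [Real.volume_Ioc]
      exact ENNReal.ofReal_ne_top
    refine (hc.mul_prod (l7_fint hf hS)).mono' ?_ ?_
    · have m1 : Measurable (fun x : ℝ × ℝ => f x.2) := hfm.comp measurable_snd
      have m2 : Measurable (fun x : ℝ × ℝ => h (x.2 + x.1)) :=
        hhm.comp (measurable_snd.add measurable_fst)
      have m3 : Measurable (fun x : ℝ × ℝ => Complex.exp (Complex.I * (x.1:ℂ) * z)) := by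
        fun_prop
      exact ((m1.mul m2).mul m3).aestronglyMeasurable
    · rw [Measure.prod_restrict]
      refine ae_restrict_of_forall_mem (measurableSet_Ioc.prod hSm) fun x hx => ?_
      have hx1 : 0 < x.1 ∧ x.1 ≤ t := hx.1
      have hx2 : 0 < x.2 := hS hx.2
      rw [norm_mul, norm_mul, l7_norm_exp]
      have b1 : ‖h (x.2 + x.1)‖ ≤ B * (Real.exp (p x.2) * Real.exp (p t)) := by
        refine (hh.bd _ (by linarith)).trans (mul_le_mul_of_nonneg_left ?_ hB)
        rw [← Real.exp_add]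
        refine Real.exp_le_exp.2 ?_
        have c1 := (h0 p hp).2.1 x.2 x.1 hx2.le hx1.1.le
        have c2 := (h0 p hp).1 x.1 t hx1.1.le hx1.2
        linarith
      have b2 : Real.exp (-(x.1 * z.im)) ≤ Real.exp (-(t * z.im)) := by
        refine Real.exp_le_exp.2 ?_
        nlinarith [hx1.2]
      calc ‖f x.2‖ * ‖h (x.2 + x.1)‖ * Real.exp (-(x.1 * z.im))
          ≤ ‖f x.2‖ * (B * (Real.exp (p x.2) * Real.exp (p t))) * Real.exp (-(t * z.im)) := by
            gcongr
        _ = B * Real.exp (p t) * Real.exp (-(t * z.im)) * (‖f x.2‖ * Real.exp (p x.2)) := by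
            ring
  calc ∫ u in Ioc (0:ℝ) t, (∫ s in S, f s * h (s + u)) * Complex.exp (Complex.I * (u:ℂ) * z)
      = ∫ u in Ioc (0:ℝ) t, ∫ s in S,
          f s * h (s + u) * Complex.exp (Complex.I * (u:ℂ) * z) := by
        congr 1
        funext u
        rw [integral_mul_const]
    _ = ∫ s in S, ∫ u in Ioc (0:ℝ) t,
          f s * h (s + u) * Complex.exp (Complex.I * (u:ℂ) * z) :=
        integral_integral_swap hint
    _ = ∫ s in S, l7_phi f z s * (l7_M h z (s + t) - l7_M h z s) := by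
        refine setIntegral_congr_fun hSm fun s hs => ?_
        exact l7_shift h z h0 hp hh hB hz (hS hs) ht (f s)

theorem l7_phi_int {p : ℝ → ℝ} {f : ℝ → ℂ} (hp : PD p) (hf : FD p f) {z : ℂ} (hz : z.im < 0)
    {S : Set ℝ} (hSm : MeasurableSet S) (hS : S ⊆ Ioi 0) :
    Integrable (l7_phi f z) (volume.restrict S) := by
  refine (l7_fint hf hS).mono' ?_ ?_
  · exact (hf.meas.mul (by fun_prop)).aestronglyMeasurable
  · refine ae_restrict_of_forall_mem hSm fun t ht => ?_
    have ht0 : 0 < t := hS ht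
    unfold l7_phi
    rw [norm_mul, l7_norm_exp']
    refine mul_le_mul_of_nonneg_left (Real.exp_le_exp.2 ?_) (norm_nonneg _)
    have := hp.nn t ht0.le
    nlinarith

theorem l7_phiM_int (h0 : S_CC) {p : ℝ → ℝ} {f h : ℝ → ℂ} {B : ℝ} (hp : PD p) (hf : FD p f)
    (hh : BD p h B) (hB : 0 ≤ B) {z : ℂ} (hz : z.im < 0) {S : Set ℝ} (hSm : MeasurableSet S)
    (hS : S ⊆ Ioi 0) :
    Integrable (fun t => l7_phi f z t * l7_M h z t) (volume.restrict S) := by
  have hc := l7_cont h0 hp hh hB hz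
  refine ((l7_fint hf hS).const_mul (B / (-z.im))).mono' ?_ ?_
  · exact ((hf.meas.mul (by fun_prop)).mul hc.measurable).aestronglyMeasurable
  · refine ae_restrict_of_forall_mem hSm fun t ht => ?_
    have ht0 : 0 < t := hS ht
    have hb := l7_M_bound h0 hp hh hB hz ht0.le
    unfold l7_phi
    rw [norm_mul, norm_mul, l7_norm_exp']
    calc ‖f t‖ * Real.exp (t * z.im) * ‖l7_M h z t‖
        ≤ ‖f t‖ * Real.exp (t * z.im) *
          (B / (-z.im) * Real.exp (p t) * Real.exp (-(t * z.im))) := by gcongr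
      _ = B / (-z.im) * (‖f t‖ * Real.exp (p t)) *
          (Real.exp (t * z.im) * Real.exp (-(t * z.im))) := by ring
      _ = B / (-z.im) * (‖f t‖ * Real.exp (p t)) := by
          rw [← Real.exp_add, add_neg_cancel, Real.exp_zero, mul_one]

theorem l7_K1 (h0 : S_CC) {p : ℝ → ℝ} {f h : ℝ → ℂ} {B : ℝ} (hp : PD p) (hf : FD p f)
    (hh : BD p h B) (hB : 0 ≤ B) {z : ℂ} (hz : z.im < 0) {R S : Set ℝ} (hRm : MeasurableSet R)
    (hR : R ⊆ Ioi 0) (hSm : MeasurableSet S) (hS : S ⊆ Ioi 0) :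
    Integrable (fun x : ℝ × ℝ => l7_phi f z x.1 * (l7_phi f z x.2 * l7_M h z (x.2 + x.1)))
      ((volume.restrict R).prod (volume.restrict S)) := by
  have hc := l7_cont h0 hp hh hB hz
  have hy : 0 < -z.im := by linarith
  have hphi : Measurable (l7_phi f z) := hf.meas.mul (by fun_prop)
  refine (((l7_fint hf hR).const_mul (B / (-z.im))).mul_prod (l7_fint hf hS)).mono' ?_ ?_
  · exact ((hphi.comp measurable_fst).mul ((hphi.comp measurable_snd).mul
      (hc.measurable.comp (measurable_snd.add measurable_fst)))).aestronglyMeasurable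
  · rw [Measure.prod_restrict]
    refine ae_restrict_of_forall_mem (hRm.prod hSm) fun x hx => ?_
    have hx1 : 0 < x.1 := hR hx.1
    have hx2 : 0 < x.2 := hS hx.2
    have hb := l7_M_bound h0 hp hh hB hz (show 0 ≤ x.2 + x.1 by linarith)
    have hs := (h0 p hp).2.1 x.2 x.1 hx2.le hx1.le
    have hb' : ‖l7_M h z (x.2 + x.1)‖ ≤ B / (-z.im) * (Real.exp (p x.2) * Real.exp (p x.1)) *
        (Real.exp (-(x.2 * z.im)) * Real.exp (-(x.1 * z.im))) := by
      refine hb.trans ?_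
      rw [← Real.exp_add, ← Real.exp_add]
      have e1 : Real.exp (p (x.2 + x.1)) ≤ Real.exp (p x.2 + p x.1) := Real.exp_le_exp.2 hs
      have e2 : -((x.2 + x.1) * z.im) = -(x.2 * z.im) + -(x.1 * z.im) := by ring
      rw [e2]
      gcongr
    unfold l7_phi
    rw [norm_mul, norm_mul, norm_mul, norm_mul, l7_norm_exp', l7_norm_exp']
    calc ‖f x.1‖ * Real.exp (x.1 * z.im) * (‖f x.2‖ * Real.exp (x.2 * z.im) *
          ‖l7_M h z (x.2 + x.1)‖)
        ≤ ‖f x.1‖ * Real.exp (x.1 * z.im) * (‖f x.2‖ * Real.exp (x.2 * z.im) *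
          (B / (-z.im) * (Real.exp (p x.2) * Real.exp (p x.1)) *
          (Real.exp (-(x.2 * z.im)) * Real.exp (-(x.1 * z.im))))) := by gcongr
      _ = B / (-z.im) * (‖f x.1‖ * Real.exp (p x.1)) * (‖f x.2‖ * Real.exp (p x.2)) *
          (Real.exp (x.1 * z.im) * Real.exp (-(x.1 * z.im))) *
          (Real.exp (x.2 * z.im) * Real.exp (-(x.2 * z.im))) := by ring
      _ = B / (-z.im) * (‖f x.1‖ * Real.exp (p x.1)) * (‖f x.2‖ * Real.exp (p x.2)) := by
          rw [← Real.exp_add, ← Real.exp_add, add_neg_cancel, add_neg_cancel, Real.exp_zero,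
            mul_one, mul_one]

theorem l7_R (h0 : S_CC) {p : ℝ → ℝ} {f h : ℝ → ℂ} {B : ℝ} (hp : PD p) (hf : FD p f)
    (hh : BD p h B) (hB : 0 ≤ B) {z : ℂ} (hz : z.im < 0) {R S : Set ℝ} (hRm : MeasurableSet R)
    (hR : R ⊆ Ioi 0) (hSm : MeasurableSet S) (hS : S ⊆ Ioi 0) :
    IntegrableOn (fun t => l7_phi f z t *
      ∫ s in S, l7_phi f z s * (l7_M h z (s + t) - l7_M h z s)) R ∧
    ∫ t in R, l7_phi f z t * ∫ s in S, l7_phi f z s * (l7_M h z (s + t) - l7_M h z s) =
      (∫ t in R, ∫ s in S, l7_phi f z t * (l7_phi f z s * l7_M h z (s + t))) -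
        (∫ t in R, l7_phi f z t) * ∫ s in S, l7_phi f z s * l7_M h z s := by
  have hK1 := l7_K1 h0 hp hf hh hB hz hRm hR hSm hS
  have hK2 : Integrable (fun x : ℝ × ℝ => l7_phi f z x.1 * (l7_phi f z x.2 * l7_M h z x.2))
      ((volume.restrict R).prod (volume.restrict S)) :=
    (l7_phi_int hp hf hz hRm hR).mul_prod (l7_phiM_int h0 hp hf hh hB hz hSm hS)
  have hF := hK1.sub hK2
  have hpt : ∀ t : ℝ, l7_phi f z t *
      ∫ s in S, l7_phi f z s * (l7_M h z (s + t) - l7_M h z s) =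
      ∫ s in S, (l7_phi f z t * (l7_phi f z s * l7_M h z (s + t)) -
        l7_phi f z t * (l7_phi f z s * l7_M h z s)) := by
    intro t
    rw [← integral_const_mul]
    congr 1
    funext s
    ring
  have hfun : (fun t => l7_phi f z t *
      ∫ s in S, l7_phi f z s * (l7_M h z (s + t) - l7_M h z s)) =
      fun t => ∫ s in S, (l7_phi f z t * (l7_phi f z s * l7_M h z (s + t)) -
        l7_phi f z t * (l7_phi f z s * l7_M h z s)) := funext hpt
  constructor
  · rw [hfun]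
    exact hF.integral_prod_left
  · have e1 : ∫ t in R, l7_phi f z t *
        ∫ s in S, l7_phi f z s * (l7_M h z (s + t) - l7_M h z s) =
        ∫ t in R, ∫ s in S, (l7_phi f z t * (l7_phi f z s * l7_M h z (s + t)) -
        l7_phi f z t * (l7_phi f z s * l7_M h z s)) := by rw [hfun]
    have e2 := integral_prod _ hF
    have e3 := integral_prod _ hK1
    have e4 := integral_prod_mul (μ := volume.restrict R) (ν := volume.restrict S)
      (l7_phi f z) (fun s => l7_phi f z s * l7_M h z s)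
    have e5 := integral_sub hK1 hK2
    rw [e1]
    simp only [Pi.sub_apply] at e2
    rw [← e2, ← e4, ← e3]
    exact e5

theorem rt_l7 (h0 : S_CC) (h2 : S_NX) : S_L7 := by
  intro p f h B T hp hf hh hB hrel hT z hz
  obtain ⟨_, _, _, hnx⟩ := h2 p f h B B T hp hf hh hB hrel hB hT
    (fun t ht => hh.bd t (hT.le.trans ht))
  have hU : Ioi (0:ℝ) = Ioc 0 T ∪ Ioi T := (Ioc_union_Ioi_eq_Ioi hT.le).symm
  have hd : Disjoint (Ioc 0 T) (Ioi T) := by
    rw [Set.disjoint_left]
    intro x hx hx'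
    exact absurd hx.2 (not_le.2 hx')
  have hI : Ioc (0:ℝ) T ⊆ Ioi 0 := fun x hx => hx.1
  have hJ : Ioi T ⊆ Ioi (0:ℝ) := fun x hx => hT.trans hx
  obtain ⟨i1, r1⟩ := l7_R h0 hp hf hh hB hz measurableSet_Ioc hI measurableSet_Ioi hJ
  obtain ⟨i2, r2⟩ := l7_R h0 hp hf hh hB hz measurableSet_Ioi hJ measurableSet_Ioc hI
  -- the values of `inn`
  have v1 : ∀ t ∈ Ioc (0:ℝ) T, f t * inn (nx f T h) z t = l7_phi f z t *
      ∫ s in Ioi T, l7_phi f z s * (l7_M h z (s + t) - l7_M h z s) := by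
    intro t ht
    rw [← l7_Q h0 hp hf hh hB hz measurableSet_Ioi hJ ht.1.le, l7_inn0]
    unfold l7_phi nx
    ring
  have v2 : ∀ t ∈ Ioi T, f t * inn (nx f T h) z t = -(l7_phi f z t *
      ∫ s in Ioc (0:ℝ) T, l7_phi f z s * (l7_M h z (s + t) - l7_M h z s)) := by
    intro t ht
    have ht0 : 0 ≤ t := (hT.trans ht).le
    rw [← l7_Q h0 hp hf hh hB hz measurableSet_Ioc hI ht0, l7_inn0]
    have e1 : ∫ s in Ioc (0:ℝ) t, nx f T h s * Complex.exp (Complex.I * (s:ℂ) * z) =
        ∫ u in Ioc (0:ℝ) t, -((∫ s in Ioc (0:ℝ) T, f s * h (s + u)) *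
          Complex.exp (Complex.I * (u:ℂ) * z)) := by
      refine setIntegral_congr_fun measurableSet_Ioc fun u hu => ?_
      rw [hnx u hu.1]
      ring
    rw [e1, integral_neg]
    unfold l7_phi
    ring
  have a1 : IntegrableOn (fun t => f t * inn (nx f T h) z t) (Ioc 0 T) :=
    i1.congr_fun (fun t ht => (v1 t ht).symm) measurableSet_Ioc
  have a2 : IntegrableOn (fun t => f t * inn (nx f T h) z t) (Ioi T) :=
    i2.neg.congr_fun (fun t ht => (v2 t ht).symm) measurableSet_Ioi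
  have e1 : Ei f (nx f T h) z =
      (∫ t in Ioc (0:ℝ) T, f t * inn (nx f T h) z t) +
        ∫ t in Ioi T, f t * inn (nx f T h) z t := by
    unfold Ei
    rw [hU]
    exact setIntegral_union hd measurableSet_Ioi a1 a2
  have e2 : ∫ t in Ioc (0:ℝ) T, f t * inn (nx f T h) z t =
      ∫ t in Ioc (0:ℝ) T, l7_phi f z t *
        ∫ s in Ioi T, l7_phi f z s * (l7_M h z (s + t) - l7_M h z s) :=
    setIntegral_congr_fun measurableSet_Ioc v1
  have e3 : ∫ t in Ioi T, f t * inn (nx f T h) z t =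
      -∫ t in Ioi T, l7_phi f z t *
        ∫ s in Ioc (0:ℝ) T, l7_phi f z s * (l7_M h z (s + t) - l7_M h z s) := by
    rw [← integral_neg]
    exact setIntegral_congr_fun measurableSet_Ioi v2
  have hD : (∫ t in Ioc (0:ℝ) T, ∫ s in Ioi T,
      l7_phi f z t * (l7_phi f z s * l7_M h z (s + t))) =
      ∫ t in Ioi T, ∫ s in Ioc (0:ℝ) T,
        l7_phi f z t * (l7_phi f z s * l7_M h z (s + t)) := by
    rw [integral_integral_swap (l7_K1 h0 hp hf hh hB hz measurableSet_Ioc hI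
      measurableSet_Ioi hJ)]
    congr 1
    funext t
    congr 1
    funext s
    rw [add_comm t s]
    ring
  -- the remaining integrals
  have f1 : fh f z = (∫ t in Ioc (0:ℝ) T, l7_phi f z t) + ∫ t in Ioi T, l7_phi f z t := by
    unfold fh
    rw [hU]
    exact setIntegral_union hd measurableSet_Ioi (l7_phi_int hp hf hz measurableSet_Ioc hI)
      (l7_phi_int hp hf hz measurableSet_Ioi hJ)
  have f2 : aT f T z = ∫ t in Ioc (0:ℝ) T, l7_phi f z t := rfl
  have f3 : Ef f h T z = ∫ t in Ioc (0:ℝ) T, l7_phi f z t * l7_M h z t := by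
    unfold Ef
    refine setIntegral_congr_fun measurableSet_Ioc fun t ht => ?_
    rw [l7_inn h z ht.1.le]
    unfold l7_phi
    ring
  have f4 : Ei f h z = (∫ t in Ioc (0:ℝ) T, l7_phi f z t * l7_M h z t) +
      ∫ t in Ioi T, l7_phi f z t * l7_M h z t := by
    unfold Ei
    have : ∫ t in Ioi (0:ℝ), f t * inn h z t =
        ∫ t in Ioi (0:ℝ), l7_phi f z t * l7_M h z t := by
      refine setIntegral_congr_fun measurableSet_Ioi fun t ht => ?_
      rw [l7_inn h z (le_of_lt ht)]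
      unfold l7_phi
      ring
    rw [this, hU]
    exact setIntegral_union hd measurableSet_Ioi
      (l7_phiM_int h0 hp hf hh hB hz measurableSet_Ioc hI)
      (l7_phiM_int h0 hp hf hh hB hz measurableSet_Ioi hJ)
  rw [e1, e2, e3, r1, r2, hD, f1, f2, f3, f4]
  ring

end RtRt

end
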