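import Pool.Agent.H636R2.RT.Defs

open MeasureTheory Set Filter Topology

noncomputable section

namespace RtRt

lemma mn_sg (p : ℝ → ℝ) (hp : PD p) : ∃ T : ℝ, 0 < T ∧ sg p T ≤ 1/2 := by
  have h1 := hp.sub
  rw [Metric.tendsto_atTop] at h1
  obtain ⟨N, hN⟩ := h1 (1/4) (by norm_num)
  set T := max N 1 with hT
  have hT1 : (1:ℝ) ≤ T := le_max_right _ _
  have hT0 : 0 < T := by linarith
  refine ⟨T, hT0, ?_⟩
  have h2 := hN (2 * T) (by have := le_max_left N (1:ℝ); rw [← hT] at this; linarith)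
  rw [Real.dist_eq, sub_zero] at h2
  have h3 := (abs_lt.1 h2).2
  have h4 : p (2*T) < 1/4 * (2*T) := by
    rwa [div_lt_iff₀ (by linarith)] at h3
  have h5 := hp.nn T hT0.le
  unfold sg
  rw [div_le_iff₀ hT0]
  linarith

theorem rt_mn (hEN : S_EN) (hVB : S_VB) (hPS : S_PS) (hHK : S_HK) (hFF : S_FF)
    (hGP : S_GP) (hEI : S_EI) (hPF : S_PF) (hIN : S_IN) : S_MN := by
  intro p f g hp hf hg hrel hdiv hne hlim
  obtain ⟨G, hG, hGp, hGm, hGS⟩ := hEN p f g hp hf hg hrel hdiv hne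
  have hvb := hVB p f g G hp hf hg hrel hdiv hne hGp hGS
  obtain ⟨hfd, hfb, -, -⟩ := hFF p f hp hf
  obtain ⟨hK1, hK2⟩ := hHK (fh f) hfd (fun z hz => ⟨hne z hz.le, hfb z hz.le⟩)
  obtain ⟨T₁, hT₁, hsg⟩ := mn_sg p hp
  obtain ⟨-, -, hgb⟩ := hGP p g 1 hp hg zero_le_one
  set M : ℝ := max 1 (Real.exp (p (2 * T₁)) * 2) with hM
  have hM1 : (1:ℝ) ≤ M := le_max_left _ _
  have hM2 : Real.exp (p (2 * T₁)) * 2 ≤ M := le_max_right _ _
  have hfpos : ∀ z : ℂ, z.im ≤ 0 → 0 < ‖fh f z‖ := fun z hz => norm_pos_iff.2 (hne z hz)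
  -- bound in the upper half plane
  have hup : ∀ z : ℂ, 1 ≤ z.im → ‖G z‖ ≤ M := by
    intro z hz
    rw [hGp z (by linarith)]
    refine (hgb T₁ z hT₁ (by linarith)).trans ?_
    rw [one_mul]
    refine le_trans ?_ hM2
    rw [div_le_iff₀ (by linarith)]
    nlinarith [Real.exp_pos (p (2 * T₁))]
  -- v notation
  have hEi : ∀ z : ℂ, z.im ≤ -1 → ‖G z‖ ≤ 1 / ‖fh f z‖ := by
    intro z hz
    have h1 := hGm z (by linarith)
    have h2 := hEI p f g 1 hp hf hg zero_le_one z (by linarith)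
    have h3 : (1:ℝ) / (-z.im) ≤ 1 := by
      rw [div_le_one (by linarith)]; linarith
    rw [← h1, norm_mul] at h2
    rw [le_div_iff₀ (hfpos z (by linarith)), mul_comm]
    linarith
  have hvert : ∀ z : ℂ, z.im ≤ -1 →
      ‖fh f ⟨z.re, z.im - 2⟩‖ ^ 3 ≤ ‖fh f z‖ := by
    intro z hz
    have h1 := (hK2 z.re (-z.im) (-z.im + 2) (by linarith) (by linarith)).1
    have e1 : (⟨z.re, -(-z.im)⟩ : ℂ) = z := by apply Complex.ext <;> simp
    have e2 : (⟨z.re, -(-z.im + 2)⟩ : ℂ) = ⟨z.re, z.im - 2⟩ := by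
      apply Complex.ext <;> simp
      ring
    rw [e1, e2] at h1
    have hp1 := hfpos z (by linarith)
    have hp2 := hfpos ⟨z.re, z.im - 2⟩ (by simp; linarith)
    have hb2 := hfb ⟨z.re, z.im - 2⟩ (by simp; linarith)
    have hl2 : Real.log ‖fh f ⟨z.re, z.im - 2⟩‖ ≤ 0 := Real.log_nonpos (norm_nonneg _) hb2
    have h3 : (-z.im + 2) / (-z.im) ≤ 3 := by
      rw [div_le_iff₀ (by linarith)]; linarith
    have h4 : -Real.log ‖fh f z‖ ≤ 3 * (-Real.log ‖fh f ⟨z.re, z.im - 2⟩‖) :=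
      h1.trans (mul_le_mul_of_nonneg_right h3 (by linarith))
    rw [← Real.log_le_log_iff (by positivity) hp1, Real.log_pow]
    push_cast
    linarith
  -- the function P
  have hsub : ∀ z : ℂ, (z - 2 * Complex.I) = ⟨z.re, z.im - 2⟩ := by
    intro z; apply Complex.ext <;> simp
  have hPd : DifferentiableOn ℂ (fun z => G z * (fh f (z - 2 * Complex.I)) ^ 3)
      {z | z.im < 2 ∧ -2 < z.im} := by
    refine hG.differentiableOn.mul (DifferentiableOn.pow ?_ 3)
    refine hfd.comp (differentiableOn_id.sub_const _) ?_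
    intro z hz
    simp only [mem_setOf_eq] at hz ⊢
    rw [hsub]; simp only; linarith [hz.1]
  have hstrip := hPS (fun z => G z * (fh f (z - 2 * Complex.I)) ^ 3) M (by linarith) hPd
    (by
      intro x
      simp only [norm_mul, norm_pow]
      have h1 := hup ⟨x, 1⟩ (by simp)
      have h2 := hfb (⟨x,1⟩ - 2 * Complex.I) (by rw [hsub]; norm_num)
      have h3 : ‖fh f (⟨x,1⟩ - 2 * Complex.I)‖ ^ 3 ≤ 1 := pow_le_one₀ (norm_nonneg _) h2
      calc _ ≤ M * 1 := mul_le_mul h1 h3 (by positivity) (by linarith)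
        _ = M := mul_one M)
    (by
      intro x
      simp only [norm_mul, norm_pow]
      have h1 := hEi ⟨x, -1⟩ (by simp)
      have h2 := hvert ⟨x, -1⟩ (by simp)
      rw [hsub]
      have hp1 := hfpos ⟨x, -1⟩ (by simp)
      calc _ ≤ 1 / ‖fh f ⟨x, -1⟩‖ * ‖fh f ⟨x, -1⟩‖ :=
            mul_le_mul h1 h2 (by positivity) (by positivity)
        _ = 1 := by field_simp
        _ ≤ M := hM1)
    (by
      intro A
      obtain ⟨T, hA, hT, x₁, x₂, hx₁, hx₂, hb⟩ := hvb A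
      refine ⟨T, hA, hT, x₁, x₂, hx₁, hx₂, ?_⟩
      intro y hy1 hy2
      have hle : ∀ x : ℝ, ‖G ⟨x,y⟩‖ ≤ Real.exp (8*T) →
          ‖G ⟨x,y⟩ * (fh f (⟨x,y⟩ - 2 * Complex.I)) ^ 3‖ ≤ Real.exp (8*T) := by
        intro x hx
        rw [norm_mul, norm_pow]
        have h2 := hfb (⟨x,y⟩ - 2 * Complex.I) (by rw [hsub]; simp only; linarith)
        have h3 : ‖fh f (⟨x,y⟩ - 2 * Complex.I)‖ ^ 3 ≤ 1 := pow_le_one₀ (norm_nonneg _) h2
        calc _ ≤ Real.exp (8*T) * 1 := mul_le_mul hx h3 (by positivity) (by positivity)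
          _ = _ := mul_one _
      exact ⟨hle _ (hb y hy1 hy2).1, hle _ (hb y hy1 hy2).2⟩)
  -- bound in Im z ≤ 1
  have hlow : ∀ z : ℂ, z.im ≤ 1 → ‖G z‖ ≤ M / ‖fh f ⟨z.re, z.im - 2⟩‖ ^ 3 := by
    intro z hz
    have hp2 := hfpos ⟨z.re, z.im - 2⟩ (by simp; linarith)
    rw [le_div_iff₀ (by positivity)]
    by_cases h : -1 ≤ z.im
    · have := hstrip z h hz
      simp only [norm_mul, norm_pow, hsub] at this
      exact this
    · push Not at h
      have h1 := hEi z h.le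
      have h2 := hvert z h.le
      have hp1 := hfpos z (by linarith)
      calc _ ≤ 1 / ‖fh f z‖ * ‖fh f z‖ := mul_le_mul h1 h2 (by positivity) (by positivity)
        _ = 1 := by field_simp
        _ ≤ M := hM1
  set V0 : ℝ := -Real.log ‖fh f ⟨0, -1⟩‖ with hV0
  have hV0n : 0 ≤ V0 := by
    have := Real.log_nonpos (norm_nonneg _) (hfb ⟨0,-1⟩ (by simp))
    linarith
  -- lower bound in exponential form
  have hlow2 : ∀ (u s v : ℝ), 0 ≤ s → -Real.log ‖fh f ⟨u, -(1+s)⟩‖ ≤ v →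
      ‖G ⟨u, 1 - s⟩‖ ≤ M * Real.exp (3 * v) := by
    intro u s v hs hv
    have h1 := hlow ⟨u, 1-s⟩ (by simp; linarith)
    have e : (⟨(⟨u, 1-s⟩:ℂ).re, (⟨u, 1-s⟩:ℂ).im - 2⟩ : ℂ) = ⟨u, -(1+s)⟩ := by
      apply Complex.ext <;> simp
      ring
    rw [e] at h1
    have hp2 := hfpos ⟨u, -(1+s)⟩ (by simp; linarith)
    refine h1.trans ?_
    rw [div_eq_mul_inv]
    refine mul_le_mul_of_nonneg_left ?_ (by linarith)
    rw [← Real.exp_log hp2, ← Real.exp_nat_mul, ← Real.exp_neg]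
    apply Real.exp_le_exp.2
    push_cast
    linarith
  have hΓd : Differentiable ℂ (fun w => G (w + Complex.I)) :=
    hG.comp (differentiable_id.add_const _)
  have hGam : ∀ z : ℂ, (fun w => G (w + Complex.I)) z = 0 := by
    refine hPF (fun w => G (w + Complex.I)) M (Real.log M) (3 * V0) (by linarith)
      (Real.log_nonneg hM1) (by linarith) hΓd ?_ ?_ ?_ ?_
    · intro z hz
      exact hup _ (by simp; linarith)
    · intro u s hs
      have e : ((⟨u, -s⟩ : ℂ) + Complex.I) = ⟨u, 1 - s⟩ := by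
        apply Complex.ext <;> simp
        ring
      simp only [e]
      have h1 := hK1 u (1+s) (by linarith)
      refine (hlow2 u s _ hs h1).trans (le_of_eq ?_)
      rw [Real.exp_add, Real.exp_log (by linarith)]
      congr 2
      ring
    · intro δ hδ
      obtain ⟨y₀, hy₀, hy₁⟩ := (frequently_atTop.1 (hlim (δ/3) (by linarith))) 1
      have hv0 : -Real.log ‖fh f ⟨0, -y₀⟩‖ ≤ δ/3 * y₀ := by linarith
      have hv0n : 0 ≤ -Real.log ‖fh f ⟨0, -y₀⟩‖ := by
        have := Real.log_nonpos (norm_nonneg _) (hfb ⟨0,-y₀⟩ (by simp; linarith))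
        linarith
      refine ⟨M * Real.exp (3 * (y₀ * (δ/3*y₀)) + δ), ?_⟩
      intro s hs
      have e : ((⟨0, -s⟩ : ℂ) + Complex.I) = ⟨0, 1 - s⟩ := by
        apply Complex.ext <;> simp
        ring
      simp only [e]
      have hv : -Real.log ‖fh f ⟨0, -(1+s)⟩‖ ≤ y₀ * (δ/3*y₀) + δ/3*(1+s) := by
        by_cases hc : y₀ ≤ 1 + s
        · have h1 := (hK2 0 y₀ (1+s) (by linarith) hc).2
          have h2 : (1+s)/y₀ * (-Real.log ‖fh f ⟨0, -y₀⟩‖) ≤ (1+s)/y₀ * (δ/3*y₀) :=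
            mul_le_mul_of_nonneg_left hv0 (by positivity)
          have h3 : (1+s)/y₀ * (δ/3*y₀) = δ/3*(1+s) := by field_simp
          have h4 : 0 ≤ y₀ * (δ/3*y₀) := by positivity
          linarith
        · push Not at hc
          have h1 := (hK2 0 (1+s) y₀ (by linarith) hc.le).1
          have h5 : y₀/(1+s) ≤ y₀ := by
            rw [div_le_iff₀ (by linarith)]
            nlinarith
          have h2 : y₀/(1+s) * (-Real.log ‖fh f ⟨0, -y₀⟩‖) ≤ y₀ * (δ/3*y₀) :=
            mul_le_mul h5 hv0 hv0n (by linarith)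
          have h4 : 0 ≤ δ/3*(1+s) := by positivity
          linarith
      refine (hlow2 0 s _ hs hv).trans (le_of_eq ?_)
      rw [mul_assoc, ← Real.exp_add]
      congr 2
      ring
    · have hb : ∀ y : ℝ, 0 ≤ y → ‖G ((⟨0,y⟩:ℂ) + Complex.I)‖ ≤
          Real.exp (p (2 * T₁)) / (y + 1/2) := by
        intro y hy
        have e : ((⟨0, y⟩ : ℂ) + Complex.I) = ⟨0, y + 1⟩ := by
          apply Complex.ext <;> simp
        rw [e, hGp _ (by simp; linarith)]
        refine (hgb T₁ ⟨0,y+1⟩ hT₁ (by simp; linarith)).trans ?_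
        rw [one_mul]
        apply div_le_div_of_nonneg_left (Real.exp_pos _).le (by linarith)
        simp only
        linarith
      have hlimt : Tendsto (fun y : ℝ => Real.exp (p (2 * T₁)) / (y + 1/2)) atTop (𝓝 0) :=
        (tendsto_atTop_add_const_right _ _ tendsto_id).const_div_atTop _
      rw [tendsto_zero_iff_norm_tendsto_zero]
      refine squeeze_zero' (Eventually.of_forall fun y => norm_nonneg _) ?_ hlimt
      filter_upwards [eventually_ge_atTop 0] with y hy using hb y hy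
  refine hIN p g 1 hp hg zero_le_one ?_
  intro z hz
  rw [← hGp z hz]
  have := hGam (z - Complex.I)
  simpa using this

end RtRt

end
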