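import Mathlib
import Pool.Agent.H636R2.RT.Defs

open MeasureTheory Set Filter Topology

namespace RtRt

/-- integrability of `f t * h (t+τ)` on a subset of the half line -/
lemma nx_aux_int {p : ℝ → ℝ} {f h : ℝ → ℂ} {B : ℝ} (hC : ∀ s t, 0 ≤ s → 0 ≤ t → p (s + t) ≤ p s + p t)
    (hf : FD p f) (hh : BD p h B) (hB : 0 ≤ B) {τ : ℝ} (hτ : 0 ≤ τ) {S : Set ℝ} (hS : S ⊆ Ioi 0)
    (hSm : MeasurableSet S) :
    IntegrableOn (fun t => f t * h (t + τ)) S := by
  have hi : IntegrableOn (fun t => (B * Real.exp (p τ)) * (‖f t‖ * Real.exp (p t))) S :=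
    (hf.int.mono_set hS).const_mul _
  refine Integrable.mono' hi ?_ ?_
  · exact (hf.meas.mul (hh.meas.comp (measurable_id.add_const τ))).aestronglyMeasurable
  · filter_upwards [ae_restrict_mem hSm] with t ht
    have ht0 : 0 < t := hS ht
    rw [norm_mul]
    have h1 := hh.bd (t + τ) (by linarith)
    have h2 : Real.exp (p (t + τ)) ≤ Real.exp (p t) * Real.exp (p τ) := by
      rw [← Real.exp_add]; exact Real.exp_le_exp.mpr (hC t τ ht0.le hτ)
    calc ‖f t‖ * ‖h (t + τ)‖ ≤ ‖f t‖ * (B * (Real.exp (p t) * Real.exp (p τ))) := by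
          gcongr
          exact h1.trans (by gcongr)
      _ = (B * Real.exp (p τ)) * (‖f t‖ * Real.exp (p t)) := by ring

/-- norm bound of `nx` -/
lemma nx_aux_bd {p : ℝ → ℝ} {f h : ℝ → ℂ} {K T τ : ℝ} (hf : FD p f) (hT : 0 < T) (hK : 0 ≤ K)
    (hb : ∀ t, T < t → ‖h (t + τ)‖ ≤ K * Real.exp (p t)) :
    ‖nx f T h τ‖ ≤ K := by
  have hi : IntegrableOn (fun t => K * (‖f t‖ * Real.exp (p t))) (Ioi T) :=
    (hf.int.mono_set (Ioi_subset_Ioi hT.le)).const_mul _
  have h1 : ‖nx f T h τ‖ ≤ ∫ t in Ioi T, K * (‖f t‖ * Real.exp (p t)) := by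
    refine norm_integral_le_of_norm_le hi ?_
    filter_upwards [ae_restrict_mem measurableSet_Ioi] with t ht
    rw [norm_mul]
    calc ‖f t‖ * ‖h (t + τ)‖ ≤ ‖f t‖ * (K * Real.exp (p t)) := by
          gcongr; exact hb t ht
      _ = K * (‖f t‖ * Real.exp (p t)) := by ring
  refine h1.trans ?_
  rw [integral_const_mul]
  have h2 : ∫ t in Ioi T, ‖f t‖ * Real.exp (p t) ≤ ∫ t in Ioi (0:ℝ), ‖f t‖ * Real.exp (p t) := by
    refine setIntegral_mono_set hf.int ?_ ?_
    · exact Filter.Eventually.of_forall fun t => by positivity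
    · exact (Ioi_subset_Ioi hT.le).eventuallyLE
  calc K * ∫ t in Ioi T, ‖f t‖ * Real.exp (p t) ≤ K * 1 := by
        gcongr; exact h2.trans hf.le1
    _ = K := mul_one _

theorem rt_nx (h : S_CC) : S_NX := by
  intro p f h' B A T hp hf hh hB hrel hA hT hbT
  obtain ⟨hmono, hsub, hdl, hdl0, -, -⟩ := h p hp
  have hmeas : Measurable (nx f T h') := by
    have h1 : StronglyMeasurable (fun q : ℝ × ℝ => f q.2 * h' (q.2 + q.1)) := by
      refine Measurable.stronglyMeasurable ?_
      exact (hf.meas.comp measurable_snd).mul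
        (hh.meas.comp (measurable_snd.add measurable_fst))
    exact (h1.integral_prod_right' (ν := volume.restrict (Ioi T))).measurable
  refine ⟨⟨hmeas, ?_⟩, ?_, ?_, ?_⟩
  · intro τ hτ
    refine nx_aux_bd hf hT (by positivity) ?_
    intro t ht
    have h1 := hbT (t + τ) (by linarith)
    have h2 : Real.exp (p (t + τ)) ≤ Real.exp (p t) * Real.exp (p τ) := by
      rw [← Real.exp_add]; exact Real.exp_le_exp.mpr (hsub t τ (by linarith) hτ)
    calc ‖h' (t + τ)‖ ≤ A * (Real.exp (p t) * Real.exp (p τ)) := h1.trans (by gcongr)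
      _ = A * Real.exp (p τ) * Real.exp (p t) := by ring
  · -- Rel
    intro τ hτ
    have e1 : ∀ t : ℝ, f t * nx f T h' (t + τ) = ∫ s in Ioi T, f t * (f s * h' (s + (t + τ))) := by
      intro t
      rw [nx, integral_const_mul]
    simp_rw [e1]
    rw [integral_integral_swap]
    · have e2 : ∀ s ∈ Ioi T, ∫ t in Ioi (0:ℝ), f t * (f s * h' (s + (t + τ))) = 0 := by
        intro s hs
        have hs0 : 0 < s := hT.trans hs
        have e3 : ∀ t : ℝ, f t * (f s * h' (s + (t + τ))) = f s * (f t * h' (t + (s + τ))) := by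
          intro t
          rw [show s + (t + τ) = t + (s + τ) by ring]; ring
        simp_rw [e3]
        rw [integral_const_mul, hrel (s + τ) (by linarith), mul_zero]
      rw [setIntegral_congr_fun measurableSet_Ioi e2]
      simp
    · -- integrability on the product
      have hprod : Integrable (fun q : ℝ × ℝ => (‖f q.1‖ * Real.exp (p q.1)) *
          ((B * Real.exp (p τ)) * (‖f q.2‖ * Real.exp (p q.2))))
          ((volume.restrict (Ioi (0:ℝ))).prod (volume.restrict (Ioi T))) := by
        have hi2 : Integrable (fun s => (B * Real.exp (p τ)) * (‖f s‖ * Real.exp (p s)))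
            (volume.restrict (Ioi T)) :=
          (hf.int.mono_set (Ioi_subset_Ioi hT.le)).const_mul _
        exact Integrable.mul_prod (μ := volume.restrict (Ioi (0:ℝ))) (ν := volume.restrict (Ioi T))
          (f := fun t => ‖f t‖ * Real.exp (p t))
          (g := fun s => (B * Real.exp (p τ)) * (‖f s‖ * Real.exp (p s))) hf.int hi2
      refine Integrable.mono' hprod ?_ ?_
      · refine Measurable.aestronglyMeasurable ?_
        have hm1 : Measurable (fun q : ℝ × ℝ => q.2 + (q.1 + τ)) :=
          measurable_snd.add (measurable_fst.add_const τ)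
        exact (hf.meas.comp measurable_fst).mul ((hf.meas.comp measurable_snd).mul
          (hh.meas.comp hm1))
      · rw [Measure.prod_restrict]
        filter_upwards [ae_restrict_mem (measurableSet_Ioi.prod measurableSet_Ioi)] with q hq
        have hq1 : 0 < q.1 := hq.1
        have hq2 : T < q.2 := hq.2
        have h1 := hh.bd (q.2 + (q.1 + τ)) (by linarith)
        have h2 : Real.exp (p (q.2 + (q.1 + τ))) ≤
            Real.exp (p q.2) * (Real.exp (p q.1) * Real.exp (p τ)) := by
          rw [← Real.exp_add, ← Real.exp_add]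
          refine Real.exp_le_exp.mpr ((hsub q.2 (q.1 + τ) (by linarith) (by linarith)).trans ?_)
          have := hsub q.1 τ hq1.le hτ.le
          linarith
        simp only [Function.uncurry, norm_mul]
        calc ‖f q.1‖ * (‖f q.2‖ * ‖h' (q.2 + (q.1 + τ))‖)
            ≤ ‖f q.1‖ * (‖f q.2‖ * (B * (Real.exp (p q.2) * (Real.exp (p q.1) * Real.exp (p τ))))) := by
              gcongr
              exact h1.trans (by gcongr)
          _ = _ := by ring
  · intro τ hτ
    have hexp : A * Real.exp (-dl p T) * Real.exp (p τ) = A * (Real.exp (-dl p T) * Real.exp (p τ)) := by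
      ring
    refine nx_aux_bd hf hT (by positivity) ?_
    intro t ht
    have h1 := hbT (t + τ) (by linarith)
    have h2 : Real.exp (p (t + τ)) ≤ Real.exp (-dl p T) * Real.exp (p τ) * Real.exp (p t) := by
      rw [← Real.exp_add, ← Real.exp_add]
      refine Real.exp_le_exp.mpr ?_
      have := hdl T t τ hT.le ht.le hτ
      linarith
    calc ‖h' (t + τ)‖ ≤ A * (Real.exp (-dl p T) * Real.exp (p τ) * Real.exp (p t)) :=
          h1.trans (by gcongr)
      _ = A * Real.exp (-dl p T) * Real.exp (p τ) * Real.exp (p t) := by ring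
  · intro τ hτ
    have h1 := hrel τ hτ
    rw [← Ioc_union_Ioi_eq_Ioi hT.le] at h1
    rw [setIntegral_union (Ioc_disjoint_Ioi le_rfl) measurableSet_Ioi
      (nx_aux_int hsub hf hh hB hτ.le Ioc_subset_Ioi_self measurableSet_Ioc)
      (nx_aux_int hsub hf hh hB hτ.le (Ioi_subset_Ioi hT.le) measurableSet_Ioi)] at h1
    rw [nx]
    exact eq_neg_of_add_eq_zero_right h1

end RtRt
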