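import Pool.Agent.H636R2.RT.Defs

set_option autoImplicit false

namespace RtRt

section

open Complex Filter Set Asymptotics

theorem pq_core (G : ℂ → ℂ) (hG : Differentiable ℂ G) (A B M : ℝ) (hA : 0 ≤ A) (hB : 0 ≤ B)
    (hM : 0 ≤ M) (hreal : ∀ u : ℝ, 0 ≤ u → ‖G u‖ ≤ M)
    (hbd : ∀ u s : ℝ, 0 ≤ u → 0 ≤ s →
      ‖G ((u : ℂ) - I * s)‖ ≤ Real.exp (A + B * ((u ^ 2 + (2 + s) ^ 2) / (1 + s)))) :
    ∀ u s : ℝ, 0 ≤ s → s ≤ u →
      ‖G ((u : ℂ) - I * s)‖ ≤ max M (Real.exp (A + 5 * B)) * Real.exp (10 * B * u) := by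
  intro u s hs hsu
  have hu : 0 ≤ u := hs.trans hsu
  set K : ℝ := 10 * B with hK
  set C : ℝ := max M (Real.exp (A + 5 * B)) with hC
  have hC0 : 0 ≤ C := le_max_of_le_left hM
  rcases hu.eq_or_lt with h0 | hu0
  · have hs0 : s = 0 := le_antisymm (h0 ▸ hsu) hs
    subst hs0
    rw [← h0]
    have := hreal 0 le_rfl
    simp only [ofReal_zero, mul_zero, sub_zero, Real.exp_zero, mul_one] at this ⊢
    exact this.trans (le_max_left _ _)
  set f : ℂ → ℂ := fun ζ => G (exp ζ) * exp (-(K : ℂ) * exp ζ) with hf
  have hfd : Differentiable ℂ f := by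
    intro z
    have h1 : DifferentiableAt ℂ (fun ζ => G (exp ζ)) z :=
      (hG (exp z)).comp z differentiableAt_exp
    have h2 : DifferentiableAt ℂ (fun ζ : ℂ => exp (-(K : ℂ) * exp ζ)) z := by
      fun_prop
    exact h1.mul h2
  have hnf : ∀ ζ : ℂ, ‖f ζ‖ = ‖G (exp ζ)‖ * Real.exp (-(K * (exp ζ).re)) := by
    intro ζ
    simp only [hf, norm_mul, norm_exp]
    congr 2
    simp
  have hstrip := PhragmenLindelof.horizontal_strip (f := f) (a := -(Real.pi / 4)) (b := 0) (C := C)
    (z := log ((u : ℂ) - I * s)) hfd.diffContOnCl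
    (by
      refine ⟨2, ?_, A + 8 * B + 3 * B, ?_⟩
      · rw [sub_neg_eq_add, zero_add, lt_div_iff₀ (by positivity)]
        linarith [Real.pi_pos]
      · refine IsBigO.of_bound 1 ?_
        refine eventually_inf_principal.2 (Eventually.of_forall ?_)
        intro ζ hζ
        rw [one_mul, Real.norm_of_nonneg (Real.exp_pos _).le, hnf]
        have him : ζ.im ∈ Ioo (-(Real.pi / 4)) 0 := hζ
        have hre : (exp ζ).re = Real.exp ζ.re * Real.cos ζ.im := exp_re ζ
        have him' : (exp ζ).im = Real.exp ζ.re * Real.sin ζ.im := exp_im ζ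
        have hcos : 0 ≤ Real.cos ζ.im :=
          Real.cos_nonneg_of_mem_Icc ⟨by linarith [him.1, Real.pi_pos], by
            linarith [him.2, Real.pi_pos]⟩
        have hsin : Real.sin ζ.im ≤ 0 :=
          Real.sin_nonpos_of_nonpos_of_neg_pi_le him.2.le (by linarith [him.1, Real.pi_pos])
        set x := Real.exp ζ.re with hx
        have hx0 : 0 < x := Real.exp_pos _
        have hU : 0 ≤ x * Real.cos ζ.im := mul_nonneg hx0.le hcos
        have hS : 0 ≤ -(x * Real.sin ζ.im) := by nlinarith
        have hb := hbd (x * Real.cos ζ.im) (-(x * Real.sin ζ.im)) hU hS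
        have hee : (((x * Real.cos ζ.im : ℝ) : ℂ) - I * ((-(x * Real.sin ζ.im) : ℝ) : ℂ)) = exp ζ := by
          apply Complex.ext
          · rw [hre]
            simp only [sub_re, ofReal_re, mul_re, I_re, I_im, ofReal_im]
            ring
          · rw [him']
            simp only [sub_im, ofReal_re, mul_im, I_re, I_im, ofReal_im]
            ring
        rw [hee] at hb
        have h1 : Real.exp (-(K * (exp ζ).re)) ≤ 1 := by
          rw [Real.exp_le_one_iff, hre]
          have : 0 ≤ K * (x * Real.cos ζ.im) := by positivity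
          linarith
        refine (mul_le_of_le_one_right (norm_nonneg _) h1).trans (hb.trans ?_)
        apply Real.exp_le_exp.2
        set U := x * Real.cos ζ.im
        set S := -(x * Real.sin ζ.im) with hSdef
        have hUS : U ^ 2 + S ^ 2 = x ^ 2 := by
          have := Real.sin_sq_add_cos_sq ζ.im
          simp only [U, hSdef]
          nlinarith
        have hq : (U ^ 2 + (2 + S) ^ 2) / (1 + S) ≤ 3 * x ^ 2 + 8 := by
          rw [div_le_iff₀ (by linarith)]
          nlinarith [sq_nonneg (S - 2), mul_nonneg hS (sq_nonneg x)]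
        have hx2 : x ^ 2 ≤ Real.exp (2 * |ζ.re|) := by
          rw [hx, ← Real.exp_nat_mul]
          apply Real.exp_le_exp.2
          push_cast
          linarith [le_abs_self ζ.re]
        have hE1 : 1 ≤ Real.exp (2 * |ζ.re|) := Real.one_le_exp (by positivity)
        set E := Real.exp (2 * |ζ.re|)
        have h3 : B * ((U ^ 2 + (2 + S) ^ 2) / (1 + S)) ≤ B * (3 * x ^ 2 + 8) :=
          mul_le_mul_of_nonneg_left hq hB
        nlinarith [mul_le_mul_of_nonneg_left hx2 hB, mul_le_mul_of_nonneg_left hE1 hA,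
          mul_le_mul_of_nonneg_left hE1 hB])
    (by
      intro ζ hζ
      rw [hnf]
      have hre : (exp ζ).re = Real.exp ζ.re * Real.cos ζ.im := exp_re ζ
      have him' : (exp ζ).im = Real.exp ζ.re * Real.sin ζ.im := exp_im ζ
      rw [hζ, Real.cos_neg, Real.cos_pi_div_four] at hre
      rw [hζ, Real.sin_neg, Real.sin_pi_div_four] at him'
      set x := Real.exp ζ.re * (√2 / 2) with hx
      have hx0 : 0 < x := by positivity
      have hb := hbd x x hx0.le hx0.le
      have hee : ((x : ℂ) - I * (x : ℂ)) = exp ζ := by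
        apply Complex.ext
        · rw [hre]
          simp only [sub_re, ofReal_re, mul_re, I_re, I_im, ofReal_im]
          ring
        · rw [him', hx]
          simp only [sub_im, ofReal_re, mul_im, I_re, I_im, ofReal_im]
          ring
      rw [hee] at hb
      rw [hre]
      calc ‖G (exp ζ)‖ * Real.exp (-(K * x))
          ≤ Real.exp (A + B * ((x ^ 2 + (2 + x) ^ 2) / (1 + x))) * Real.exp (-(K * x)) := by gcongr
        _ = Real.exp (A + B * ((x ^ 2 + (2 + x) ^ 2) / (1 + x)) + -(K * x)) :=
            (Real.exp_add _ _).symm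
        _ ≤ Real.exp (A + 5 * B) := by
            apply Real.exp_le_exp.2
            have hq : (x ^ 2 + (2 + x) ^ 2) / (1 + x) ≤ 5 + 5 * x := by
              rw [div_le_iff₀ (by linarith)]
              nlinarith
            have := mul_le_mul_of_nonneg_left hq hB
            rw [hK]
            nlinarith [mul_nonneg hB hx0.le]
        _ ≤ C := le_max_right _ _)
    (by
      intro ζ hζ
      rw [hnf]
      have hre : (exp ζ).re = Real.exp ζ.re * Real.cos ζ.im := exp_re ζ
      have him' : (exp ζ).im = Real.exp ζ.re * Real.sin ζ.im := exp_im ζ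
      rw [hζ, Real.cos_zero, mul_one] at hre
      rw [hζ, Real.sin_zero, mul_zero] at him'
      have hb := hreal (Real.exp ζ.re) (Real.exp_pos _).le
      have hee : ((Real.exp ζ.re : ℝ) : ℂ) = exp ζ := by
        apply Complex.ext
        · rw [hre, ofReal_re]
        · rw [him', ofReal_im]
      rw [hee] at hb
      have h1 : Real.exp (-(K * (exp ζ).re)) ≤ 1 := by
        rw [Real.exp_le_one_iff, hre]
        have : 0 ≤ K * Real.exp ζ.re := by positivity
        linarith
      exact (mul_le_of_le_one_right (norm_nonneg _) h1).trans (hb.trans (le_max_left _ _)))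
    (by
      rw [log_im]
      by_contra hlt
      rw [not_le] at hlt
      have hwre : ((u : ℂ) - I * s).re = u := by simp
      have hwim : ((u : ℂ) - I * s).im = -s := by simp
      have h1 : -(Real.pi / 2) < arg ((u : ℂ) - I * s) := by
        rw [Complex.neg_pi_div_two_lt_arg_iff]
        left; rw [hwre]; exact hu0
      have h2 := Real.tan_lt_tan_of_lt_of_lt_pi_div_two h1 (by linarith [Real.pi_pos]) hlt
      rw [Real.tan_neg, Real.tan_pi_div_four, Complex.tan_arg, hwre, hwim, div_lt_iff₀ hu0] at h2
      linarith)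
    (by
      rw [log_im]
      rcases hs.eq_or_lt with h | h
      · rw [← h]
        simp only [ofReal_zero, mul_zero, sub_zero]
        exact (arg_ofReal_of_nonneg hu).le
      · apply le_of_lt
        rw [arg_neg_iff]
        simpa using h)
  have hne : ((u : ℂ) - I * s) ≠ 0 := by
    intro h
    have := congrArg re h
    simp at this
    exact hu0.ne' this
  rw [hnf, exp_log hne] at hstrip
  have hwre : ((u : ℂ) - I * s).re = u := by simp
  rw [hwre, Real.exp_neg, ← div_eq_mul_inv, div_le_iff₀ (Real.exp_pos _)] at hstrip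
  exact hstrip

end

theorem rt_pq : S_PQ := by
  intro G M A B hM hA hB hG hreal hbd
  have hform : ∀ u s : ℝ, ((u : ℂ) - Complex.I * s) = (⟨u, -s⟩ : ℂ) := by
    intro u s
    apply Complex.ext
    · simp only [Complex.sub_re, Complex.ofReal_re, Complex.mul_re, Complex.I_re, Complex.I_im,
        Complex.ofReal_im]
      ring
    · simp only [Complex.sub_im, Complex.ofReal_re, Complex.mul_im, Complex.I_re, Complex.I_im,
        Complex.ofReal_im]
      ring
  have hcore := pq_core G hG A B M hA hB hM
    (fun u hu => by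
      have := hreal u hu
      have e : ((u : ℝ) : ℂ) = (⟨u, 0⟩ : ℂ) := rfl
      rw [e]
      exact this)
    (fun u s hu hs => by
      rw [hform, ← mul_div_assoc]
      exact hbd u s hu hs)
  set C0 : ℝ := max M (Real.exp (A + 5 * B)) with hC0
  have hC00 : 0 ≤ C0 := le_max_of_le_left hM
  refine ⟨C0 + 10 * B, by positivity, fun u s hu hs => ?_⟩
  have hexp : ∀ x y : ℝ, x ≤ y → Real.exp x ≤ Real.exp y := fun x y h => Real.exp_le_exp.2 h
  rcases le_total s u with h | h
  · have h1 := hcore u s hs h
    rw [hform] at h1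
    refine h1.trans ?_
    have h2 : 10 * B * u ≤ (C0 + 10 * B) * (u + s) := by nlinarith [mul_nonneg hC00 hu, mul_nonneg hC00 hs, mul_nonneg hB hs]
    exact mul_le_mul (by linarith) (hexp _ _ h2) (Real.exp_pos _).le (by positivity)
  · refine (hbd u s hu hs).trans ?_
    have h1 : B * (u ^ 2 + (2 + s) ^ 2) / (1 + s) ≤ 5 * B * (1 + s) := by
      rw [div_le_iff₀ (by linarith)]
      have : u ^ 2 + (2 + s) ^ 2 ≤ 5 * (1 + s) * (1 + s) := by nlinarith
      nlinarith [mul_le_mul_of_nonneg_left this hB]
    calc Real.exp (A + B * (u ^ 2 + (2 + s) ^ 2) / (1 + s))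
        ≤ Real.exp ((A + 5 * B) + 5 * B * s) := hexp _ _ (by nlinarith)
      _ = Real.exp (A + 5 * B) * Real.exp (5 * B * s) := Real.exp_add _ _
      _ ≤ (C0 + 10 * B) * Real.exp ((C0 + 10 * B) * (u + s)) := by
          have h2 : 5 * B * s ≤ (C0 + 10 * B) * (u + s) := by
            nlinarith [mul_nonneg hC00 hu, mul_nonneg hC00 hs, mul_nonneg hB hs, mul_nonneg hB hu]
          have h3 : Real.exp (A + 5 * B) ≤ C0 + 10 * B :=
            (le_max_right _ _).trans (by linarith)
          exact mul_le_mul h3 (hexp _ _ h2) (Real.exp_pos _).le (by positivity)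

end RtRt
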