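import Pool.Agent.H636R2.RT.Defs

open MeasureTheory Set Filter Topology Complex

noncomputable section

namespace RtRt

theorem ps_cos (y : ℝ) (h1 : -1 ≤ y) (h2 : y ≤ 1) : Real.cos 1 ≤ Real.cos y := by
  rw [← Real.cos_abs y]
  refine Real.cos_le_cos_of_nonneg_of_le_pi (abs_nonneg y) ?_ (abs_le.2 ⟨h1, h2⟩)
  have := Real.pi_gt_three
  linarith

theorem ps_re_cosh (z : ℂ) : (Complex.cosh z).re = Real.cosh z.re * Real.cos z.im := by
  conv_lhs => rw [← Complex.re_add_im z]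
  rw [Complex.cosh_add, Complex.cosh_mul_I, Complex.sinh_mul_I]
  simp [← Complex.ofReal_cosh, ← Complex.ofReal_cos, ← Complex.ofReal_sinh, ← Complex.ofReal_sin]

theorem ps_norm (ε : ℝ) (w : ℂ) : ‖Complex.exp (-(ε * Complex.cosh w))‖ =
    Real.exp (-(ε * (Real.cosh w.re * Real.cos w.im))) := by
  rw [Complex.norm_exp, Complex.neg_re, Complex.re_ofReal_mul, ps_re_cosh]

theorem ps_cosh_lower (T x : ℝ) (hT : 1 ≤ T) (h : 2 * Real.log T - 1 ≤ |x|) :
    T ^ 2 * (Real.exp (-1) / 2) ≤ Real.cosh x := by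
  have h1 : Real.exp (2 * Real.log T - 1) ≤ Real.exp |x| := Real.exp_le_exp.2 h
  have h2 : Real.exp (2 * Real.log T - 1) = T ^ 2 * Real.exp (-1) := by
    rw [sub_eq_add_neg, Real.exp_add, mul_comm (2:ℝ), Real.exp_mul, Real.exp_log (by linarith)]
    norm_num
  rw [h2] at h1
  rw [← Real.cosh_abs, Real.cosh_eq]
  have h3 := Real.exp_pos (-|x|)
  linarith

theorem ps_main (P : ℂ → ℂ) (M : ℝ) (hM : 0 ≤ M)
    (hP : DifferentiableOn ℂ P {z | z.im < 2 ∧ -2 < z.im})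
    (h1 : ∀ x : ℝ, ‖P ⟨x, 1⟩‖ ≤ M) (h2 : ∀ x : ℝ, ‖P ⟨x, -1⟩‖ ≤ M)
    (h3 : ∀ A : ℝ, ∃ T : ℝ, A ≤ T ∧ 1 ≤ T ∧ ∃ x₁ x₂ : ℝ, |x₁ - 2 * Real.log T| ≤ 1 ∧
      |x₂ + 2 * Real.log T| ≤ 1 ∧
      ∀ y : ℝ, -1 ≤ y → y ≤ 1 → ‖P ⟨x₁, y⟩‖ ≤ Real.exp (8 * T) ∧ ‖P ⟨x₂, y⟩‖ ≤ Real.exp (8 * T))
    (z : ℂ) (hz1 : -1 ≤ z.im) (hz2 : z.im ≤ 1) (ε : ℝ) (hε : 0 < ε) (δ : ℝ) (hδ : 0 < δ) :
    ‖P z * Complex.exp (-(ε * Complex.cosh z))‖ ≤ M + δ := by
  set k : ℝ := ε * Real.cos 1 * (Real.exp (-1) / 2) with hk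
  have hc1 : 0 < Real.cos 1 := Real.cos_one_pos
  have hkpos : 0 < k := by positivity
  obtain ⟨T, hTA, hT1, x₁, x₂, hx₁, hx₂, hPx⟩ := h3 (max (max (9 / k) (-Real.log δ))
    (Real.exp ((|z.re| + 2) / 2)))
  have hTk : 9 / k ≤ T := (le_max_left _ _).trans ((le_max_left _ _).trans hTA)
  have hTδ : -Real.log δ ≤ T := (le_max_right _ _).trans ((le_max_left _ _).trans hTA)
  have hTz : Real.exp ((|z.re| + 2) / 2) ≤ T := (le_max_right _ _).trans hTA
  have hTpos : 0 < T := by linarith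
  have hlog : (|z.re| + 2) / 2 ≤ Real.log T := (Real.le_log_iff_exp_le hTpos).2 hTz
  have hx₁' := abs_le.1 hx₁
  have hx₂' := abs_le.1 hx₂
  have hzre := abs_le.1 (le_refl |z.re|)
  have hx₁z : z.re < x₁ := by linarith
  have hx₂z : x₂ < z.re := by linarith
  have hx₁a : 2 * Real.log T - 1 ≤ |x₁| := by
    have := le_abs_self x₁
    linarith
  have hx₂a : 2 * Real.log T - 1 ≤ |x₂| := by
    have := neg_le_abs x₂
    linarith
  -- the vertical sides
  have hvert : ∀ x y : ℝ, -1 ≤ y → y ≤ 1 → 2 * Real.log T - 1 ≤ |x| →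
      ‖P ⟨x, y⟩‖ ≤ Real.exp (8 * T) →
      ‖P ⟨x, y⟩ * Complex.exp (-(ε * Complex.cosh ⟨x, y⟩))‖ ≤ M + δ := by
    intro x y hy1 hy2 hx hPb
    rw [norm_mul, ps_norm]
    have h4 : k * T ^ 2 ≤ ε * (Real.cosh x * Real.cos y) := by
      have h5 := ps_cosh_lower T x hT1 hx
      have h6 := ps_cos y hy1 hy2
      have h7 : (T ^ 2 * (Real.exp (-1) / 2)) * Real.cos 1 ≤ Real.cosh x * Real.cos y :=
        mul_le_mul h5 h6 hc1.le (Real.cosh_pos x).le
      have h8 := mul_le_mul_of_nonneg_left h7 hε.le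
      have h9 : ε * (T ^ 2 * (Real.exp (-1) / 2) * Real.cos 1) = k * T ^ 2 := by
        rw [hk]; ring
      linarith
    have h5 : 9 * T ≤ k * T ^ 2 := by
      have h6 : 9 ≤ k * T := by
        rw [div_le_iff₀ hkpos] at hTk
        linarith
      nlinarith
    calc ‖P ⟨x, y⟩‖ * Real.exp (-(ε * (Real.cosh x * Real.cos y)))
        ≤ Real.exp (8 * T) * Real.exp (-(9 * T)) := by
          refine mul_le_mul hPb (Real.exp_le_exp.2 ?_) (Real.exp_pos _).le (Real.exp_pos _).le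
          linarith
      _ = Real.exp (-T) := by rw [← Real.exp_add]; congr 1; ring
      _ ≤ Real.exp (Real.log δ) := Real.exp_le_exp.2 (by linarith)
      _ = δ := Real.exp_log hδ
      _ ≤ M + δ := by linarith
  -- the horizontal sides
  have hhor : ∀ x y : ℝ, (y = 1 ∨ y = -1) →
      ‖P ⟨x, y⟩ * Complex.exp (-(ε * Complex.cosh ⟨x, y⟩))‖ ≤ M + δ := by
    intro x y hy
    rw [norm_mul, ps_norm]
    have hPb : ‖P ⟨x, y⟩‖ ≤ M := by
      rcases hy with rfl | rfl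
      · exact h1 x
      · exact h2 x
    have h6 : Real.cos 1 ≤ Real.cos y := by
      rcases hy with rfl | rfl
      · exact le_refl _
      · rw [Real.cos_neg]
    have h4 : 0 ≤ ε * (Real.cosh x * Real.cos y) := by
      have := Real.cosh_pos x
      have h7 : 0 < Real.cos y := lt_of_lt_of_le hc1 h6
      positivity
    have h5 : Real.exp (-(ε * (Real.cosh x * Real.cos y))) ≤ 1 := by
      rw [Real.exp_le_one_iff]
      linarith
    calc ‖P ⟨x, y⟩‖ * Real.exp (-(ε * (Real.cosh x * Real.cos y))) ≤ M * 1 :=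
          mul_le_mul hPb h5 (Real.exp_pos _).le hM
      _ ≤ M + δ := by linarith
  -- maximum principle
  have hx21 : x₂ < x₁ := hx₂z.trans hx₁z
  set U : Set ℂ := Ioo x₂ x₁ ×ℂ Ioo (-1) 1 with hU
  have hcl : closure U = Icc x₂ x₁ ×ℂ Icc (-1) 1 := by
    rw [hU, Complex.closure_reProdIm, closure_Ioo hx21.ne, closure_Ioo (by norm_num)]
  have hbd : Bornology.IsBounded U :=
    (Metric.isBounded_Ioo x₂ x₁).reProdIm (Metric.isBounded_Ioo (-1 : ℝ) 1)
  have hd : DiffContOnCl ℂ (fun w => P w * Complex.exp (-(ε * Complex.cosh w))) U := by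
    refine DifferentiableOn.diffContOnCl ?_
    rw [hcl]
    have hsub : (Icc x₂ x₁ ×ℂ Icc (-1) 1) ⊆ {z : ℂ | z.im < 2 ∧ -2 < z.im} := by
      intro w hw
      rw [Complex.mem_reProdIm] at hw
      exact ⟨by linarith [hw.2.2], by linarith [hw.2.1]⟩
    refine (hP.mono hsub).mul ?_
    have hdd : Differentiable ℂ (fun w : ℂ => Complex.exp (-(ε * Complex.cosh w))) := by
      fun_prop
    exact hdd.differentiableOn
  refine Complex.norm_le_of_forall_mem_frontier_norm_le hbd hd (C := M + δ) ?_ ?_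
  · intro w hw
    rw [hU, Complex.frontier_reProdIm, closure_Ioo hx21.ne, closure_Ioo (by norm_num),
      frontier_Ioo hx21, frontier_Ioo (by norm_num)] at hw
    rcases hw with hw | hw
    · rw [Complex.mem_reProdIm] at hw
      have hwi : w.im = 1 ∨ w.im = -1 := by
        rcases hw.2 with h | h
        · right; exact h
        · left; exact h
      exact hhor w.re w.im hwi
    · rw [Complex.mem_reProdIm] at hw
      rcases hw.1 with h | h
      · have := hvert x₂ w.im hw.2.1 hw.2.2 hx₂a (hPx w.im hw.2.1 hw.2.2).2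
        rw [← h] at this
        exact this
      · have h' : w.re = x₁ := h
        have := hvert x₁ w.im hw.2.1 hw.2.2 hx₁a (hPx w.im hw.2.1 hw.2.2).1
        rw [← h'] at this
        exact this
  · rw [hcl, Complex.mem_reProdIm]
    exact ⟨⟨hx₂z.le, hx₁z.le⟩, ⟨hz1, hz2⟩⟩

theorem rt_ps : S_PS := by
  intro P M hM hP h1 h2 h3 z hz1 hz2
  have h4 : ∀ ε : ℝ, 0 < ε → ‖P z * Complex.exp (-(ε * Complex.cosh z))‖ ≤ M := by
    intro ε hε
    exact le_of_forall_pos_le_add fun δ hδ => ps_main P M hM hP h1 h2 h3 z hz1 hz2 ε hε δ hδ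
  have h5 : Tendsto (fun ε : ℝ => ‖P z * Complex.exp (-(ε * Complex.cosh z))‖) (𝓝[>] 0)
      (𝓝 ‖P z * Complex.exp (-(((0 : ℝ) : ℂ) * Complex.cosh z))‖) := by
    have hcont : Continuous (fun ε : ℝ => ‖P z * Complex.exp (-((ε : ℂ) * Complex.cosh z))‖) := by
      fun_prop
    exact (hcont.tendsto 0).mono_left nhdsWithin_le_nhds
  have h6 : ‖P z * Complex.exp (-(((0 : ℝ) : ℂ) * Complex.cosh z))‖ ≤ M := by
    refine le_of_tendsto h5 ?_
    filter_upwards [self_mem_nhdsWithin] with ε hε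
    exact h4 ε hε
  simpa using h6

end RtRt

end
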