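import Pool.Agent.H636R2.RT.Defs

/-! Task STA (helper997) -/

set_option autoImplicit false

open MeasureTheory Set Filter Topology

noncomputable section

namespace RtRt

/-- bound of the numerators -/
theorem sta_Ef (h : S_CC) (h2 : S_EF) (h3 : S_GK) (p : ℝ → ℝ) (f g : ℝ → ℂ) (hp : PD p)
    (hf : FD p f) (hg : BD p g 1) (hr : Rel f g) (T : ℝ) (hT : 0 < T) (k : ℕ) :
    Differentiable ℂ (Ef f (gk f g T k) T) ∧ ∀ (Y : ℝ) (z : ℂ), 0 ≤ Y → z.im ≤ Y →
      ‖Ef f (gk f g T k) T z‖ ≤
        T * Real.exp (Y * T) * Real.exp (dl p T) * Real.exp (-dl p T) ^ k := by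
  have hD : 0 ≤ dl p T := ((h p hp).2.2.2.1 T hT.le).1
  have hpos : ∀ Y : ℝ, 0 ≤ T * Real.exp (Y * T) := fun Y => by positivity
  cases k with
  | zero =>
    have h0 := (h3 p f g hp hf hg hr T hT 0).1
    obtain ⟨e1, e2⟩ := h2 p f _ 1 hp hf h0 zero_le_one T hT
    refine ⟨e1, fun Y z hY hz => ?_⟩
    have e3 := e2 Y z hY hz
    rw [pow_zero, mul_one]
    have e4 : (1:ℝ) ≤ Real.exp (dl p T) := Real.one_le_exp hD
    calc _ ≤ 1 * T * Real.exp (Y * T) := e3
      _ = T * Real.exp (Y * T) * 1 := by ring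
      _ ≤ _ := mul_le_mul_of_nonneg_left e4 (hpos Y)
  | succ k =>
    have h0 := (h3 p f g hp hf hg hr T hT k).2.2
    obtain ⟨e1, e2⟩ := h2 p f _ _ hp hf h0 (Real.exp_pos _).le T hT
    refine ⟨e1, fun Y z hY hz => ?_⟩
    have e3 := e2 Y z hY hz
    have e5 : Real.exp (dl p T) * Real.exp (-dl p T) ^ (k + 1) = Real.exp (-(k * dl p T)) := by
      rw [← Real.exp_nat_mul, ← Real.exp_add]
      congr 1
      push_cast
      ring
    calc _ ≤ Real.exp (-(k * dl p T)) * T * Real.exp (Y * T) := e3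
      _ = T * Real.exp (Y * T) * Real.exp (-(k * dl p T)) := by ring
      _ = _ := by rw [← e5]; ring

theorem rt_sta (h : S_CC) (h1 : S_FA) (h2 : S_EF) (h3 : S_GK) : S_STA := by
  intro p f g hp hf hg hr T hT
  have hD : 0 ≤ dl p T := ((h p hp).2.2.2.1 T hT.le).1
  have ha : Differentiable ℂ (aT f T) := (h1 p f hp hf T hT).1
  have hE := sta_Ef h h2 h3 p f g hp hf hg hr T hT
  set q : ℝ := Real.exp (-dl p T) with hq
  have hq0 : 0 < q := Real.exp_pos _
  constructor
  · intro z0 hz0
    have hz0' : q < ‖aT f T z0‖ := hz0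
    set ρ : ℝ := (q + ‖aT f T z0‖) / 2 with hρ
    have hρq : q < ρ := by rw [hρ]; linarith
    have hρ0 : 0 < ρ := hq0.trans hρq
    have hρa : ρ < ‖aT f T z0‖ := by rw [hρ]; linarith
    clear_value ρ
    set Y : ℝ := max z0.im 0 + 1 with hY
    have hY0 : 0 ≤ Y := by rw [hY]; positivity
    have hYz : z0.im < Y := by rw [hY]; linarith [le_max_left z0.im 0]
    set U : Set ℂ := {z | ρ < ‖aT f T z‖} ∩ {z | z.im < Y} with hU
    have hUo : IsOpen U := (isOpen_lt continuous_const ha.continuous.norm).inter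
      (isOpen_lt Complex.continuous_im continuous_const)
    have hz0U : z0 ∈ U := ⟨hρa, hYz⟩
    set C : ℝ := T * Real.exp (Y * T) * Real.exp (dl p T) with hC
    have hC0 : 0 ≤ C := by rw [hC]; positivity
    have hdiff : DifferentiableOn ℂ (ST f g T) U := by
      have hsum : Summable (fun k : ℕ => C / ρ * (q / ρ) ^ k) :=
        (summable_geometric_of_lt_one (by positivity) ((div_lt_one hρ0).mpr hρq)).mul_left _
      refine Complex.differentiableOn_tsum_of_summable_norm hsum ?_ hUo ?_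
      · intro k
        refine DifferentiableOn.div ?_ ?_ ?_
        · exact ((hE k).1.const_mul _).differentiableOn
        · exact (ha.pow _).differentiableOn
        · intro z hz
          have h5 : 0 < ‖aT f T z‖ := hρ0.trans hz.1
          exact pow_ne_zero _ (norm_pos_iff.mp h5)
      · intro k z hz
        have h5 : ρ < ‖aT f T z‖ := hz.1
        have h6 := (hE k).2 Y z hY0 (le_of_lt hz.2)
        rw [norm_div, norm_mul, norm_pow, norm_neg, norm_one, one_pow, one_mul, norm_pow]
        have h7 : ρ ^ (k + 1) ≤ ‖aT f T z‖ ^ (k + 1) := pow_le_pow_left₀ hρ0.le h5.le _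
        calc ‖Ef f (gk f g T k) T z‖ / ‖aT f T z‖ ^ (k + 1)
            ≤ (C * q ^ k) / ρ ^ (k + 1) := div_le_div₀ (by positivity) h6 (by positivity) h7
          _ = C / ρ * (q / ρ) ^ k := by
            rw [div_pow, pow_succ ρ k]
            field_simp
    have h8 := (hdiff z0 hz0U).differentiableAt (hUo.mem_nhds hz0U)
    exact h8.differentiableWithinAt
  · intro Y z hY hz hza
    set M : ℝ := T * Real.exp (Y * T) * Real.exp (2 * dl p T) with hM
    have hM0 : 0 ≤ M := by rw [hM]; positivity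
    have hs : HasSum (fun k : ℕ => M / 2 / 2 ^ k) M := hasSum_geometric_two' M
    refine tsum_of_norm_bounded hs ?_
    intro k
    have h6 := (hE k).2 Y z hY hz
    have ha0 : 0 < 2 * q := by positivity
    rw [norm_div, norm_mul, norm_pow, norm_neg, norm_one, one_pow, one_mul, norm_pow]
    have h7 : (2 * q) ^ (k + 1) ≤ ‖aT f T z‖ ^ (k + 1) := pow_le_pow_left₀ ha0.le hza _
    have h9 : Real.exp (2 * dl p T) * q = Real.exp (dl p T) := by
      rw [hq, ← Real.exp_add]; congr 1; ring
    calc ‖Ef f (gk f g T k) T z‖ / ‖aT f T z‖ ^ (k + 1)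
        ≤ (T * Real.exp (Y * T) * Real.exp (dl p T) * q ^ k) / (2 * q) ^ (k + 1) :=
          div_le_div₀ (by positivity) h6 (by positivity) h7
      _ = M / 2 / 2 ^ k := by
        rw [hM, ← h9, mul_pow, pow_succ, pow_succ]
        field_simp

end RtRt

end
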