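import Pool.Agent.H636R2.RT.Defs

set_option autoImplicit false

namespace RtRt

open MeasureTheory Set Filter Topology

theorem vb_growth (V0 : ℝ) (hV : 0 ≤ V0) : ∃ T0 : ℝ, 1 ≤ T0 ∧ ∀ T : ℝ, T0 ≤ T →
    (((2 * Real.log T) ^ 2 + 4) * V0 + 1 ≤ T ∧
     9600 * (((2 * Real.log T) ^ 2 + 4) * V0 + 1) ^ 2 * T ^ (3 / 10 : ℝ) ≤
      T ^ (9 / 10 : ℝ) - Real.log 2) := by
  set K : ℝ := 1604 * V0 + 1 with hK
  have hK1 : 1 ≤ K := by linarith
  have ht := tendsto_rpow_atTop (show (0:ℝ) < 4 / 10 by norm_num)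
  obtain ⟨T0, hT0⟩ := (eventually_atTop.1 (ht.eventually_ge_atTop (9600 * K ^ 2 + 1)))
  refine ⟨max T0 1, le_max_right _ _, fun T hT => ?_⟩
  have hT1 : 1 ≤ T := (le_max_right _ _).trans hT
  have hTpos : 0 < T := by linarith
  have h4 : 9600 * K ^ 2 + 1 ≤ T ^ (4 / 10 : ℝ) := hT0 T ((le_max_left _ _).trans hT)
  have hlog0 : 0 ≤ Real.log T := Real.log_nonneg hT1
  have hlog : Real.log T ≤ 20 * T ^ (1 / 20 : ℝ) := by
    have := Real.log_le_rpow_div hTpos.le (show (0:ℝ) < 1 / 20 by norm_num)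
    linarith
  have hlog2 : (Real.log T) ^ 2 ≤ 400 * T ^ (1 / 10 : ℝ) := by
    have h1 : (20 * T ^ (1 / 20 : ℝ)) ^ 2 = 400 * T ^ (1 / 10 : ℝ) := by
      rw [mul_pow, ← Real.rpow_mul_natCast hTpos.le]
      norm_num
    rw [← h1]
    exact pow_le_pow_left₀ hlog0 hlog 2
  have hT10 : 1 ≤ T ^ (1 / 10 : ℝ) := Real.one_le_rpow hT1 (by norm_num)
  set U : ℝ := ((2 * Real.log T) ^ 2 + 4) * V0 + 1 with hU
  have hU1 : 1 ≤ U := by
    have : 0 ≤ ((2 * Real.log T) ^ 2 + 4) * V0 := by positivity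
    linarith
  have hUK : U ≤ K * T ^ (1 / 10 : ℝ) := by
    rw [hU, hK]
    have h1 : (2 * Real.log T) ^ 2 + 4 ≤ 1604 * T ^ (1 / 10 : ℝ) := by nlinarith
    have h2 := mul_le_mul_of_nonneg_right h1 hV
    nlinarith
  have hU2 : U ^ 2 ≤ K ^ 2 * T ^ (2 / 10 : ℝ) := by
    have h1 : (K * T ^ (1 / 10 : ℝ)) ^ 2 = K ^ 2 * T ^ (2 / 10 : ℝ) := by
      rw [mul_pow, ← Real.rpow_mul_natCast hTpos.le]
      norm_num
    rw [← h1]
    exact pow_le_pow_left₀ (by linarith) hUK 2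
  constructor
  · have h1 : T = T ^ (9 / 10 : ℝ) * T ^ (1 / 10 : ℝ) := by
      rw [← Real.rpow_add hTpos]; norm_num
    have h2 : K ≤ T ^ (9 / 10 : ℝ) := by
      have : T ^ (4 / 10 : ℝ) ≤ T ^ (9 / 10 : ℝ) := Real.rpow_le_rpow_of_exponent_le hT1 (by norm_num)
      nlinarith
    calc U ≤ K * T ^ (1 / 10 : ℝ) := hUK
      _ ≤ T ^ (9 / 10 : ℝ) * T ^ (1 / 10 : ℝ) := by gcongr
      _ = T := h1.symm
  · have h5 : T ^ (2 / 10 : ℝ) * T ^ (3 / 10 : ℝ) = T ^ (5 / 10 : ℝ) := by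
      rw [← Real.rpow_add hTpos]; norm_num
    have h9 : T ^ (4 / 10 : ℝ) * T ^ (5 / 10 : ℝ) = T ^ (9 / 10 : ℝ) := by
      rw [← Real.rpow_add hTpos]; norm_num
    have h51 : 1 ≤ T ^ (5 / 10 : ℝ) := Real.one_le_rpow hT1 (by norm_num)
    have hl2 : Real.log 2 ≤ 1 := by
      have := Real.log_two_lt_d9
      linarith
    have hA : 9600 * U ^ 2 * T ^ (3 / 10 : ℝ) ≤ 9600 * K ^ 2 * T ^ (5 / 10 : ℝ) := by
      calc 9600 * U ^ 2 * T ^ (3 / 10 : ℝ) ≤ 9600 * (K ^ 2 * T ^ (2 / 10 : ℝ)) * T ^ (3 / 10 : ℝ) := by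
            gcongr
        _ = 9600 * K ^ 2 * (T ^ (2 / 10 : ℝ) * T ^ (3 / 10 : ℝ)) := by ring
        _ = _ := by rw [h5]
    have hB : (9600 * K ^ 2 + 1) * T ^ (5 / 10 : ℝ) ≤ T ^ (9 / 10 : ℝ) := by
      rw [← h9]; gcongr
    nlinarith

theorem vb_side (h0 : S_CC) (h2 : S_FA) (h3 : S_FF) (h4 : S_GP) (h5 : S_STA)
    (h6 : S_HK) (h7 : S_VL) (p : ℝ → ℝ) (f g : ℝ → ℂ) (G : ℂ → ℂ) (hp : PD p) (hf : FD p f)
    (hg : BD p g 1) (hR : Rel f g) (hz : ∀ z : ℂ, z.im ≤ 0 → fh f z ≠ 0)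
    (hG1 : ∀ z, 0 < z.im → G z = Gp g z)
    (hG2 : ∀ (T : ℝ) (z : ℂ), 0 < T → Real.exp (-dl p T) < ‖aT f T z‖ → G z = ST f g T z)
    (T : ℝ) (hT1 : 1 ≤ T) (hD : T ^ ((9:ℝ) / 10) ≤ dl p T) (hpT : p T ≤ T)
    (hp2T : p (2 * T) ≤ 2 * T) (V0 : ℝ) (hV0 : V0 = -Real.log ‖fh f ⟨0, -1⟩‖) (hV0n : 0 ≤ V0)
    (hU1 : ((2 * Real.log T) ^ 2 + 4) * V0 + 1 ≤ T)
    (hU2 : 9600 * (((2 * Real.log T) ^ 2 + 4) * V0 + 1) ^ 2 * T ^ (3 / 10 : ℝ) ≤
      T ^ (9 / 10 : ℝ) - Real.log 2) (X : ℝ) (hX : X ^ 2 = (2 * Real.log T) ^ 2) :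
    ∃ x : ℝ, |x - X| ≤ 1 ∧ ∀ y : ℝ, -1 ≤ y → y ≤ 1 → ‖G ⟨x, y⟩‖ ≤ Real.exp (8 * T) := by
  have hT : 0 < T := by linarith
  obtain ⟨c1, c2, c3, c4, c5, c6⟩ := h0 p hp
  obtain ⟨hD0, hDp⟩ := c4 T hT.le
  obtain ⟨fa1, fa2⟩ := h2 p f hp hf T hT
  obtain ⟨ff1, ff2, ff3, ff4⟩ := h3 p f hp hf
  set D : ℝ := dl p T with hDdef
  set U : ℝ := ((2 * Real.log T) ^ 2 + 4) * V0 + 1 with hU
  have hU1' : 1 ≤ U := by
    have : 0 ≤ ((2 * Real.log T) ^ 2 + 4) * V0 := by positivity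
    linarith
  have hT9 : 1 ≤ T ^ ((9:ℝ) / 10) := Real.one_le_rpow hT1 (by norm_num)
  have hD1 : 1 ≤ D := hT9.trans hD
  have hDpos : 0 < D := by linarith
  set h : ℝ := p T / T with hh
  set d : ℝ := D / (2 * T) with hd
  have hdpos : 0 < d := by positivity
  have hpTn : 0 ≤ p T := hp.nn T hT.le
  have hp2Tn : 0 ≤ p (2 * T) := hp.nn _ (by linarith)
  have hdh : d ≤ h := by
    rw [hd, hh, div_le_div_iff₀ (by positivity) hT]
    nlinarith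
  have hh1 : h ≤ 1 := by
    rw [hh, div_le_one hT]; exact hpT
  have hy0 : h - d = p (2 * T) / (2 * T) := by
    rw [hh, hd, hDdef, dl]
    field_simp
    ring
  have hy0n : 0 ≤ h - d := by rw [hy0]; positivity
  have hsg : sg p T = (h - d) - d := by
    rw [hh, hd, hDdef, dl, sg]
    field_simp
    ring
  -- lower bound at X - i
  have hHK := (h6 (fh f) ff1 (fun z hz' => ⟨hz z hz'.le, ff2 z hz'.le⟩)).1 X 1 one_pos
  rw [← hV0] at hHK
  have hHK' : Real.exp (-(((2 * Real.log T) ^ 2 + 4) * V0)) ≤ ‖fh f ⟨X, -1⟩‖ := by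
    have hne : 0 < ‖fh f ⟨X, -1⟩‖ := norm_pos_iff.2 (hz _ (by norm_num))
    rw [← Real.le_log_iff_exp_le hne]
    have : (X ^ 2 + (1 + 1) ^ 2) / 1 * V0 = ((2 * Real.log T) ^ 2 + 4) * V0 := by
      rw [hX]; ring
    rw [this] at hHK
    linarith
  have hlow : Real.exp (-U) ≤ ‖aT f T ⟨X, -1⟩‖ := by
    have h1 := ff4 T ⟨X, -1⟩ hT (by norm_num)
    have h2' : ‖fh f ⟨X, -1⟩‖ ≤ ‖aT f T ⟨X, -1⟩‖ + ‖aT f T ⟨X, -1⟩ - fh f ⟨X, -1⟩‖ := by
      have := norm_sub_norm_le (fh f ⟨X, -1⟩) (aT f T ⟨X, -1⟩)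
      rw [norm_sub_rev] at this
      linarith
    have h3' : Real.exp (-T) ≤ Real.exp (-U) := Real.exp_le_exp.2 (by linarith)
    have h4' : Real.exp (-(((2 * Real.log T) ^ 2 + 4) * V0)) = Real.exp 1 * Real.exp (-U) := by
      rw [← Real.exp_add]
      congr 1
      rw [hU]; ring
    have h5' : (2 : ℝ) ≤ Real.exp 1 := by
      have := Real.add_one_le_exp (1 : ℝ)
      linarith
    have h6' := Real.exp_pos (-U)
    nlinarith
  obtain ⟨x, hx, hxy⟩ := h7 (aT f T) h d U X hdpos hdh hh1 hU1' fa1.differentiableOn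
    (fun z hz' => fa2 z hz'.le) hlow
  refine ⟨x, hx, fun y hy1 hy2 => ?_⟩
  -- the bound on the a priori exponent
  have hexpo : 1200 * U ^ 2 / d ^ 3 ≤ D - Real.log 2 := by
    have hTT : T = T ^ (9 / 10 : ℝ) * T ^ (1 / 10 : ℝ) := by
      rw [← Real.rpow_add hT]; norm_num
    have hT1p : 0 < T ^ (1 / 10 : ℝ) := by positivity
    have hT9p : 0 < T ^ (9 / 10 : ℝ) := by positivity
    have hd' : 1 / (2 * T ^ (1 / 10 : ℝ)) ≤ d := by
      rw [hd, div_le_div_iff₀ (by positivity) (by positivity), one_mul]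
      calc 2 * T = 2 * (T ^ (9 / 10 : ℝ) * T ^ (1 / 10 : ℝ)) := by rw [← hTT]
        _ = T ^ (9 / 10 : ℝ) * (2 * T ^ (1 / 10 : ℝ)) := by ring
        _ ≤ D * (2 * T ^ (1 / 10 : ℝ)) := by gcongr
    have hd3 : 1 / (8 * T ^ (3 / 10 : ℝ)) ≤ d ^ 3 := by
      have e1 : (1 / (2 * T ^ (1 / 10 : ℝ))) ^ 3 = 1 / (8 * T ^ (3 / 10 : ℝ)) := by
        have e2 : (T ^ (1 / 10 : ℝ)) ^ 3 = T ^ (3 / 10 : ℝ) := by
          rw [← Real.rpow_mul_natCast hT.le]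
          norm_num
        rw [div_pow, mul_pow, e2]
        norm_num
      rw [← e1]
      exact pow_le_pow_left₀ (by positivity) hd' 3
    have h8 : 0 < 1 / (8 * T ^ (3 / 10 : ℝ)) := by positivity
    calc 1200 * U ^ 2 / d ^ 3 ≤ 1200 * U ^ 2 / (1 / (8 * T ^ (3 / 10 : ℝ))) := by
          gcongr
      _ = 9600 * U ^ 2 * T ^ (3 / 10 : ℝ) := by
          rw [div_div_eq_mul_div, div_one]; ring
      _ ≤ T ^ (9 / 10 : ℝ) - Real.log 2 := hU2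
      _ ≤ D - Real.log 2 := by linarith
  have hTe : T ≤ Real.exp T := by
    have := Real.add_one_le_exp T
    linarith
  rcases le_or_gt y (h - d) with hyy | hyy
  · have h1 := hxy y hy1 hyy
    have h2' : 2 * Real.exp (-D) ≤ ‖aT f T ⟨x, y⟩‖ := by
      refine le_trans ?_ h1
      have : (2 : ℝ) * Real.exp (-D) = Real.exp (Real.log 2 + -D) := by
        rw [Real.exp_add, Real.exp_log (by norm_num)]
      rw [this]
      exact Real.exp_le_exp.2 (by linarith)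
    have h3' : Real.exp (-D) < ‖aT f T ⟨x, y⟩‖ := by
      have := Real.exp_pos (-D)
      linarith
    rw [hG2 T ⟨x, y⟩ hT h3']
    have h4' := (h5 p f g hp hf hg hR T hT).2 (h - d) ⟨x, y⟩ hy0n hyy h2'
    refine h4'.trans ?_
    have e1 : Real.exp ((h - d) * T) ≤ Real.exp T := by
      apply Real.exp_le_exp.2
      have : h - d ≤ 1 := by linarith
      nlinarith
    have e2 : Real.exp (2 * dl p T) ≤ Real.exp (2 * T) := by
      apply Real.exp_le_exp.2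
      linarith
    calc T * Real.exp ((h - d) * T) * Real.exp (2 * dl p T)
        ≤ Real.exp T * Real.exp T * Real.exp (2 * T) := by gcongr
      _ = Real.exp (4 * T) := by
          rw [← Real.exp_add, ← Real.exp_add]; congr 1; ring
      _ ≤ Real.exp (8 * T) := Real.exp_le_exp.2 (by linarith)
  · have hypos : 0 < y := by linarith
    rw [hG1 ⟨x, y⟩ hypos]
    have hsy : sg p T < y := by rw [hsg]; linarith
    have h1 := (h4 p g 1 hp hg zero_le_one).2.2 T ⟨x, y⟩ hT hsy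
    refine h1.trans ?_
    have hyd : d ≤ y - sg p T := by rw [hsg]; linarith
    have hd2 : 1 / d ≤ 2 * T := by
      rw [hd, one_div_div, div_le_iff₀ hDpos]
      exact le_mul_of_one_le_right (by positivity) hD1
    have e1 : Real.exp (p (2 * T)) ≤ Real.exp (2 * T) := Real.exp_le_exp.2 hp2T
    calc 1 * Real.exp (p (2 * T)) / (y - sg p T) ≤ 1 * Real.exp (2 * T) / d := by
          gcongr
      _ = Real.exp (2 * T) * (1 / d) := by ring
      _ ≤ Real.exp (2 * T) * (2 * T) := by gcongr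
      _ ≤ Real.exp (2 * T) * Real.exp (2 * T) := by
          gcongr
          have := Real.add_one_le_exp (2 * T)
          linarith
      _ = Real.exp (4 * T) := by rw [← Real.exp_add]; congr 1; ring
      _ ≤ Real.exp (8 * T) := Real.exp_le_exp.2 (by linarith)

theorem rt_vb (h0 : S_CC) (h1 : S_GT) (h2 : S_FA) (h3 : S_FF) (h4 : S_GP) (h5 : S_STA)
    (h6 : S_HK) (h7 : S_VL) : S_VB := by
  intro p f g G hp hf hg hR hni hz hG1 hG2 A
  set V0 : ℝ := -Real.log ‖fh f ⟨0, -1⟩‖ with hV0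
  have hV0n : 0 ≤ V0 := by
    have hle := (h3 p f hp hf).2.1 ⟨0, -1⟩ (by norm_num)
    have := Real.log_nonpos (norm_nonneg _) hle
    linarith
  obtain ⟨T0, hT0, hgr⟩ := vb_growth V0 hV0n
  have hev : ∀ᶠ t in atTop, p t / t < 1 := hp.sub.eventually_lt_const zero_lt_one
  obtain ⟨T1, hT1⟩ := eventually_atTop.1 hev
  obtain ⟨T, hTA, hT1', hTD⟩ := h1 p hp hni (max (max A T0) T1)
  have hTpos : 0 < T := by linarith
  have hAT : A ≤ T := ((le_max_left _ _).trans (le_max_left _ _)).trans hTA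
  have hT0T : T0 ≤ T := ((le_max_right _ _).trans (le_max_left _ _)).trans hTA
  have hT1T : T1 ≤ T := (le_max_right _ _).trans hTA
  have hpT : p T ≤ T := by
    have := hT1 T hT1T
    rw [div_lt_one hTpos] at this
    exact this.le
  have hp2T : p (2 * T) ≤ 2 * T := by
    have := hT1 (2 * T) (by linarith)
    rw [div_lt_one (by linarith)] at this
    exact this.le
  obtain ⟨g1, g2⟩ := hgr T hT0T
  obtain ⟨x1, hx1, hb1⟩ := vb_side h0 h2 h3 h4 h5 h6 h7 p f g G hp hf hg hR hz hG1 hG2 T hT1' hTD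
    hpT hp2T V0 hV0 hV0n g1 g2 (2 * Real.log T) rfl
  obtain ⟨x2, hx2, hb2⟩ := vb_side h0 h2 h3 h4 h5 h6 h7 p f g G hp hf hg hR hz hG1 hG2 T hT1' hTD
    hpT hp2T V0 hV0 hV0n g1 g2 (-(2 * Real.log T)) (by ring)
  rw [sub_neg_eq_add] at hx2
  exact ⟨T, hAT, hT1', x1, x2, hx1, hx2, fun y hy1 hy2 => ⟨hb1 y hy1 hy2, hb2 y hy1 hy2⟩⟩

end RtRt
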