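import Pool.Agent.H636R2.RT.Defs

/-!
Task VL (helper73): lower bound on a vertical segment.
-/

open MeasureTheory Set Filter Topology

noncomputable section

namespace RtRt

theorem vl_pick (N : ℕ) (X d : ℝ) (hd : 0 < d) (xs : Fin N → ℝ) :
    ∃ x : ℝ, |x - X| ≤ d / 2 ∧ ∀ k, d / (4 * (N + 1)) ≤ |x - xs k| := by
  by_contra hcon
  push Not at hcon
  have hN : (0:ℝ) < (N:ℝ) + 1 := by positivity
  have hpt : ∀ j : Fin (N + 1), ∃ k : Fin N,
      |(X - d / 2 + d * ((j:ℝ) + 1 / 2) / (N + 1)) - xs k| < d / (4 * (N + 1)) := by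
    intro j
    apply hcon
    have hj : (j:ℝ) + 1 / 2 ≤ N + 1 := by
      have h1 : (j:ℕ) ≤ N := Nat.lt_succ_iff.1 j.isLt
      have h2 : ((j:ℕ):ℝ) ≤ (N:ℝ) := by exact_mod_cast h1
      linarith
    have hj0 : (0:ℝ) ≤ (j:ℝ) := Nat.cast_nonneg _
    have h3 : d * ((j:ℝ) + 1 / 2) / (N + 1) ≤ d := by
      rw [div_le_iff₀ hN]
      exact mul_le_mul_of_nonneg_left hj hd.le
    have h4 : 0 ≤ d * ((j:ℝ) + 1 / 2) / (N + 1) := by positivity
    rw [abs_le]
    constructor <;> linarith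
  choose κ hκ using hpt
  have hninj : ¬ Function.Injective κ := by
    intro hinj
    have := Fintype.card_le_of_injective κ hinj
    simp at this
  rw [Function.Injective] at hninj
  push Not at hninj
  obtain ⟨j, j', hjj, hne⟩ := hninj
  have h1 := hκ j
  have h2 := hκ j'
  rw [← hjj] at h2
  have h3 : |(X - d / 2 + d * ((j:ℝ) + 1 / 2) / (N + 1)) -
      (X - d / 2 + d * ((j':ℝ) + 1 / 2) / (N + 1))| < d / (4 * (N + 1)) + d / (4 * (N + 1)) := by
    calc _ ≤ |(X - d / 2 + d * ((j:ℝ) + 1 / 2) / (N + 1)) - xs (κ j)| +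
          |xs (κ j) - (X - d / 2 + d * ((j':ℝ) + 1 / 2) / (N + 1))| := abs_sub_le _ _ _
      _ < d / (4 * (N + 1)) + d / (4 * (N + 1)) := by
          rw [abs_sub_comm (xs (κ j))]
          exact add_lt_add h1 h2
  have h4 : (X - d / 2 + d * ((j:ℝ) + 1 / 2) / (N + 1)) -
      (X - d / 2 + d * ((j':ℝ) + 1 / 2) / (N + 1)) = d / (N + 1) * ((j:ℝ) - (j':ℝ)) := by
    ring
  rw [h4, abs_mul, abs_of_pos (div_pos hd hN)] at h3
  have h5 : (1:ℝ) ≤ |(j:ℝ) - (j':ℝ)| := by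
    have h6 : (j:ℤ) ≠ (j':ℤ) := by
      intro h7
      apply hne
      apply Fin.ext
      exact_mod_cast h7
    have h7 : (1:ℤ) ≤ |(j:ℤ) - (j':ℤ)| := Int.one_le_abs (sub_ne_zero.2 h6)
    exact_mod_cast h7
  have h6 : d / (4 * ((N:ℝ) + 1)) + d / (4 * (N + 1)) = d / (N + 1) * (1 / 2) := by
    field_simp
    ring
  rw [h6] at h3
  have h7 := lt_of_mul_lt_mul_left h3 (div_pos hd hN).le
  linarith

theorem vl_exp {a : ℝ} (ha : 0 < a) : Real.exp (-(1 / a)) ≤ a := by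
  have h1 : 1 / a ≤ Real.exp (1 / a) := by
    have := Real.add_one_le_exp (1 / a)
    linarith
  rw [Real.exp_neg]
  have h2 : 0 < 1 / a := by positivity
  calc (Real.exp (1 / a))⁻¹ ≤ (1 / a)⁻¹ := inv_anti₀ h2 h1
    _ = a := by rw [one_div, inv_inv]

theorem rt_vl (h1 : S_HD) (h2 : S_BL) : S_VL := by
  intro F h d U X hd hdh hh hU hF hF1 hFX
  have hR0 : 0 < 1 + h := by linarith
  have hR2 : 1 + h ≤ 2 := by linarith
  set c0 : ℂ := ⟨X, -1⟩ with hc0
  have him : ∀ w : ℂ, (c0 + ((1 + h : ℝ) : ℂ) * w).im = -1 + (1 + h) * w.im := by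
    intro w
    rw [Complex.add_im, Complex.im_ofReal_mul]
  have hmap : ∀ w ∈ Metric.ball (0:ℂ) 1, c0 + ((1 + h : ℝ) : ℂ) * w ∈ {z : ℂ | z.im < h} := by
    intro w hw
    have hw1 : ‖w‖ < 1 := by simpa using hw
    have hw2 : w.im < 1 := lt_of_le_of_lt ((le_abs_self _).trans (Complex.abs_im_le_norm w)) hw1
    show (c0 + ((1 + h : ℝ) : ℂ) * w).im < h
    rw [him]
    nlinarith
  have hE : DifferentiableOn ℂ (fun w => F (c0 + ((1 + h : ℝ) : ℂ) * w)) (Metric.ball 0 1) := by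
    apply DifferentiableOn.comp hF _ hmap
    apply Differentiable.differentiableOn
    fun_prop
  have hE1 : ∀ z ∈ Metric.ball (0:ℂ) 1, ‖F (c0 + ((1 + h : ℝ) : ℂ) * z)‖ ≤ 1 := fun z hz =>
    hF1 _ (hmap z hz)
  have hE0 : Real.exp (-U) ≤ ‖F (c0 + ((1 + h : ℝ) : ℂ) * 0)‖ := by
    rw [mul_zero, add_zero]
    exact hFX
  have hr0 : 0 < 1 - d / 8 := by linarith
  have hr1 : 1 - d / 8 < 1 := by linarith
  obtain ⟨N, w, E', hN, hw, hE', hE'1, hE'nz, hE'0, hprod⟩ :=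
    h2 (1 - d / 8) U (fun w => F (c0 + ((1 + h : ℝ) : ℂ) * w)) hr0 hr1 (by linarith) hE hE1 hE0
  have hlog : d / 8 ≤ Real.log (1 / (1 - d / 8)) := by
    rw [one_div, Real.log_inv]
    have := Real.log_le_sub_one_of_pos hr0
    linarith
  have hN8 : (N:ℝ) * (d / 8) ≤ U :=
    (mul_le_mul_of_nonneg_left hlog (Nat.cast_nonneg _)).trans hN
  have hN8' : (N:ℝ) ≤ 8 * U / d := by
    rw [le_div_iff₀ hd]
    linarith
  have hN9 : (N:ℝ) + 1 ≤ 9 * U / d := by
    have : 1 ≤ U / d := by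
      rw [le_div_iff₀ hd]
      linarith
    have h3 : 9 * U / d = 8 * U / d + U / d := by ring
    rw [h3]
    linarith
  have hNp : (0:ℝ) < (N:ℝ) + 1 := by positivity
  obtain ⟨x, hx1, hx2⟩ := vl_pick N X d hd (fun k => X + (1 + h) * (w k).re)
  refine ⟨x, by linarith, fun y hy1 hy2 => ?_⟩
  -- the point in the disc
  set ζ : ℂ := ⟨(x - X) / (1 + h), (y + 1) / (1 + h)⟩ with hζ
  have hzw : (⟨x, y⟩ : ℂ) = c0 + ((1 + h : ℝ) : ℂ) * ζ := by
    apply Complex.ext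
    · rw [Complex.add_re, Complex.re_ofReal_mul]
      simp only [hc0, hζ]
      field_simp
      ring
    · rw [Complex.add_im, Complex.im_ofReal_mul]
      simp only [hc0, hζ]
      field_simp
      ring
  have hζn : ‖ζ‖ ≤ 1 - d / 4 := by
    have h3 : ‖ζ‖ ^ 2 = ((x - X) / (1 + h)) ^ 2 + ((y + 1) / (1 + h)) ^ 2 := by
      rw [Complex.sq_norm, Complex.normSq_apply]
      ring
    have h4 : (x - X) ^ 2 ≤ (d / 2) ^ 2 := by
      rw [← sq_abs (x - X)]
      exact pow_le_pow_left₀ (abs_nonneg _) hx1 2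
    have h5 : (y + 1) ^ 2 ≤ (1 + h - d) ^ 2 := by
      apply pow_le_pow_left₀ (by linarith)
      linarith
    have h6 : ((x - X) / (1 + h)) ^ 2 + ((y + 1) / (1 + h)) ^ 2 ≤
        ((1 + h - d / 2) / (1 + h)) ^ 2 := by
      rw [div_pow, div_pow, div_pow, ← add_div]
      apply div_le_div_of_nonneg_right _ (by positivity)
      nlinarith
    have h7 : ‖ζ‖ ≤ (1 + h - d / 2) / (1 + h) := by
      rw [← h3] at h6
      exact le_of_sq_le_sq h6 (by apply div_nonneg <;> linarith)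
    have h8 : (1 + h - d / 2) / (1 + h) ≤ 1 - d / 4 := by
      rw [div_le_iff₀ hR0]
      nlinarith
    exact h7.trans h8
  have hζ1 : ζ ∈ Metric.ball (0:ℂ) 1 := by
    rw [mem_ball_zero_iff]
    linarith
  have hζr : ζ ∈ Metric.ball (0:ℂ) (1 - d / 8) := by
    rw [mem_ball_zero_iff]
    linarith
  have hsub : Metric.ball (0:ℂ) (1 - d / 8) ⊆ Metric.ball 0 1 := Metric.ball_subset_ball hr1.le
  have hHD := h1 (1 - d / 8) E' hr0 (hE'.mono hsub)
    (fun z hz => ⟨hE'nz z (by rw [mem_ball_zero_iff] at hz; exact hz.le), hE'1 z (hsub hz)⟩) ζ hζr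
  have hE'0pos : 0 < ‖E' 0‖ := lt_of_lt_of_le (Real.exp_pos _) hE'0
  have hE'ζpos : 0 < ‖E' ζ‖ := by
    rw [norm_pos_iff]
    apply hE'nz
    rw [mem_ball_zero_iff] at hζr
    exact hζr.le
  have hlog0 : -Real.log ‖E' 0‖ ≤ U := by
    have := (Real.le_log_iff_exp_le hE'0pos).2 hE'0
    linarith
  have hlog0' : 0 ≤ -Real.log ‖E' 0‖ := by
    have := Real.log_nonpos hE'0pos.le (hE'1 0 (by simp))
    linarith
  have hE'low : Real.exp (-(16 * U / d)) ≤ ‖E' ζ‖ := by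
    rw [← Real.le_log_iff_exp_le hE'ζpos]
    have h3 : (1 - d / 8 + ‖ζ‖) / (1 - d / 8 - ‖ζ‖) ≤ 16 / d := by
      have h4 : d / 8 ≤ 1 - d / 8 - ‖ζ‖ := by linarith
      have h5 : 0 < 1 - d / 8 - ‖ζ‖ := by linarith
      rw [div_le_div_iff₀ h5 hd]
      have h6 : (1 - d / 8 + ‖ζ‖) * d ≤ 2 * d :=
        mul_le_mul_of_nonneg_right (by linarith) hd.le
      linarith
    have h4 : (1 - d / 8 + ‖ζ‖) / (1 - d / 8 - ‖ζ‖) * (-Real.log ‖E' 0‖) ≤ 16 / d * U :=
      mul_le_mul h3 hlog0 hlog0' (by positivity)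
    have h5 : 16 / d * U = 16 * U / d := by ring
    linarith
  set a : ℝ := d / (16 * ((N:ℝ) + 1)) with ha
  have ha0 : 0 < a := by positivity
  have hfac : ∀ k, a ≤ ‖(ζ - w k) / (1 - (starRingEnd ℂ) (w k) * ζ)‖ := by
    intro k
    rw [norm_div]
    have h3 : ‖1 - (starRingEnd ℂ) (w k) * ζ‖ ≤ 2 := by
      calc ‖1 - (starRingEnd ℂ) (w k) * ζ‖ ≤ ‖(1:ℂ)‖ + ‖(starRingEnd ℂ) (w k) * ζ‖ :=
            norm_sub_le _ _
        _ = 1 + ‖w k‖ * ‖ζ‖ := by
            rw [norm_one, norm_mul]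
            congr 2
            exact RCLike.norm_conj _
        _ ≤ 1 + 1 * 1 := by
            have := mul_le_mul ((hw k).trans hr1.le) (show ‖ζ‖ ≤ 1 by linarith) (norm_nonneg _)
              zero_le_one
            linarith
        _ = 2 := by norm_num
    have h4 : 0 < ‖1 - (starRingEnd ℂ) (w k) * ζ‖ := by
      rw [norm_pos_iff]
      intro h5
      have h6 : ‖(starRingEnd ℂ) (w k) * ζ‖ = 1 := by
        rw [← sub_eq_zero.1 h5, norm_one]
      rw [norm_mul] at h6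
      have h7 : ‖(starRingEnd ℂ) (w k)‖ = ‖w k‖ := RCLike.norm_conj _
      rw [h7] at h6
      have h8 : ‖w k‖ * ‖ζ‖ ≤ 1 * ‖ζ‖ :=
        mul_le_mul_of_nonneg_right ((hw k).trans hr1.le) (norm_nonneg _)
      linarith
    have h5 : 2 * a ≤ ‖ζ - w k‖ := by
      have h6 : |(ζ - w k).re| ≤ ‖ζ - w k‖ := Complex.abs_re_le_norm _
      have h7 : (ζ - w k).re = (x - (X + (1 + h) * (w k).re)) / (1 + h) := by
        rw [Complex.sub_re]
        simp only [hζ]
        field_simp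
        ring
      have h8 := hx2 k
      rw [h7, abs_div, abs_of_pos hR0] at h6
      refine le_trans ?_ h6
      rw [le_div_iff₀ hR0]
      refine le_trans ?_ h8
      have h9 : 2 * a * (1 + h) ≤ 2 * a * 2 := mul_le_mul_of_nonneg_left hR2 (by positivity)
      refine h9.trans (le_of_eq ?_)
      rw [ha]
      field_simp
      ring
    rw [le_div_iff₀ h4]
    have h6 : a * ‖1 - (starRingEnd ℂ) (w k) * ζ‖ ≤ a * 2 := mul_le_mul_of_nonneg_left h3 ha0.le
    linarith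
  have hprod2 : Real.exp (-(1152 * U ^ 2 / d ^ 3)) ≤
      ‖∏ k, (ζ - w k) / (1 - (starRingEnd ℂ) (w k) * ζ)‖ := by
    rw [norm_prod]
    have h3 : a ^ N ≤ ∏ k : Fin N, ‖(ζ - w k) / (1 - (starRingEnd ℂ) (w k) * ζ)‖ := by
      have h4 : ∏ k : Fin N, a ≤ ∏ k : Fin N, ‖(ζ - w k) / (1 - (starRingEnd ℂ) (w k) * ζ)‖ :=
        Finset.prod_le_prod (fun _ _ => ha0.le) (fun k _ => hfac k)
      simpa using h4
    refine le_trans ?_ h3
    have h4 : Real.exp (-(1 / a)) ^ N ≤ a ^ N := pow_le_pow_left₀ (Real.exp_pos _).le (vl_exp ha0) N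
    refine le_trans ?_ h4
    rw [← Real.exp_nat_mul]
    apply Real.exp_le_exp.2
    have h5 : (N:ℝ) * (1 / a) = (N:ℝ) * (16 * ((N:ℝ) + 1)) / d := by
      rw [ha]
      field_simp
    have h6 : (N:ℝ) * (16 * ((N:ℝ) + 1)) / d ≤ 1152 * U ^ 2 / d ^ 3 := by
      have h7 : (N:ℝ) * (16 * ((N:ℝ) + 1)) ≤ (8 * U / d) * (16 * (9 * U / d)) := by
        apply mul_le_mul hN8' _ (by positivity) (by positivity)
        linarith
      calc (N:ℝ) * (16 * ((N:ℝ) + 1)) / d ≤ ((8 * U / d) * (16 * (9 * U / d))) / d :=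
            div_le_div_of_nonneg_right h7 hd.le
        _ = 1152 * U ^ 2 / d ^ 3 := by
            field_simp
            ring
    have h7 : (N:ℝ) * -(1 / a) = -((N:ℝ) * (1 / a)) := by ring
    rw [h7, h5]
    linarith
  have hfin : F ⟨x, y⟩ = (∏ k, (ζ - w k) / (1 - (starRingEnd ℂ) (w k) * ζ)) * E' ζ := by
    rw [hzw]
    exact hprod ζ hζ1
  rw [hfin, norm_mul]
  calc Real.exp (-(1200 * U ^ 2 / d ^ 3)) ≤
        Real.exp (-(1152 * U ^ 2 / d ^ 3)) * Real.exp (-(16 * U / d)) := by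
          rw [← Real.exp_add]
          apply Real.exp_le_exp.2
          have h3 : 16 * U / d ≤ 16 * U ^ 2 / d ^ 3 := by
            rw [div_le_div_iff₀ hd (by positivity)]
            have h4 : d ^ 2 ≤ 1 := pow_le_one₀ hd.le (by linarith)
            have h5 : d ^ 3 = d ^ 2 * d := by ring
            rw [h5]
            have h6 : U * d ^ 2 ≤ U ^ 2 := by nlinarith
            nlinarith [mul_le_mul_of_nonneg_right h6 hd.le]
          have h4 : 1200 * U ^ 2 / d ^ 3 = 1152 * U ^ 2 / d ^ 3 + 16 * U ^ 2 / d ^ 3 +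
              32 * (U ^ 2 / d ^ 3) := by ring
          have h5 : 0 ≤ U ^ 2 / d ^ 3 := by positivity
          linarith
    _ ≤ _ := mul_le_mul hprod2 hE'low (Real.exp_pos _).le (norm_nonneg _)

end RtRt

end
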