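import Pool.Agent.H636R2.RT.Defs

/-!
Removal of the normalisations: from `S_MN` to the final statements.
-/

open MeasureTheory Set Filter Topology

noncomputable section

namespace RtRt

/-- the core statement: weight `exp q`, `q` concave -/
def S_COR : Prop := ∀ (q : ℝ → ℝ), ConcaveOn ℝ (Set.Ici 0) q → (∀ t, 0 ≤ t → 0 ≤ q t) →
  Tendsto (fun t => q t / t) atTop (𝓝 0) →
  ¬ IntegrableOn (fun t => q t / (1 + t ^ 2)) (Set.Ioi 0) →
  ∀ f : ℝ → ℂ, AEStronglyMeasurable f (volume.restrict (Set.Ioi 0)) →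
  IntegrableOn (fun t => ‖f t‖ * Real.exp (q t)) (Set.Ioi 0) →
  (∀ z : ℂ, z.im ≤ 0 → fh f z ≠ 0) →
  Filter.limsup (fun y : ℝ => ((Real.log ‖fh f ⟨0, y⟩‖ / |y| : ℝ) : EReal)) atBot = 0 →
  ∀ g : ℝ → ℂ, AEStronglyMeasurable g (volume.restrict (Set.Ioi 0)) →
  (∃ K : ℝ, ∀ᵐ t ∂(volume.restrict (Set.Ioi (0:ℝ))), ‖g t‖ ≤ K * Real.exp (q t)) →
  (∀ τ : ℝ, 0 < τ → ∫ t in Set.Ioi (0:ℝ), f t * g (t + τ) = 0) →
  ∀ᵐ t ∂(volume.restrict (Set.Ioi (0:ℝ))), g t = 0

lemma wr_meas (q : ℝ → ℝ) (hq : ConcaveOn ℝ (Set.Ici 0) q) (a : ℝ) :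
    Measurable (fun t : ℝ => if 0 ≤ t then q t + a else 0) := by
  classical
  have h1 : ContinuousOn q (Set.Ioi 0) := by
    have := ConcaveOn.continuousOn (C := Set.Ioi (0:ℝ)) isOpen_Ioi
      (hq.subset Set.Ioi_subset_Ici_self (convex_Ioi 0))
    exact this
  have h4 : ContinuousOn (fun t => q t + a) (Set.Ioi 0) := h1.add continuousOn_const
  have h5 : Measurable ((Set.Ioi (0:ℝ)).piecewise (fun t => q t + a) (fun _ => (0:ℝ))) :=
    ContinuousOn.measurable_piecewise h4 continuousOn_const measurableSet_Ioi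
  have h6 : Measurable (({(0:ℝ)} : Set ℝ).piecewise (fun _ => q 0 + a) (fun _ => (0:ℝ))) :=
    Measurable.piecewise (measurableSet_singleton _) measurable_const measurable_const
  have h7 := h5.add h6
  have h8 : (fun t : ℝ => if 0 ≤ t then q t + a else 0) =
      (Set.Ioi (0:ℝ)).piecewise (fun t => q t + a) (fun _ => (0:ℝ)) +
      ({(0:ℝ)} : Set ℝ).piecewise (fun _ => q 0 + a) (fun _ => (0:ℝ)) := by
    funext t
    simp only [Pi.add_apply, Set.piecewise, Set.mem_Ioi, Set.mem_singleton_iff]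
    rcases lt_trichotomy t 0 with h | h | h
    · simp [not_le.2 h, not_lt.2 h.le, h.ne]
    · simp [h]
    · simp [h, h.le, h.ne']
  rw [h8]; exact h7


theorem rt_cor (hMN : S_MN) : S_COR := by
  classical
  rintro q hq hqn hqlim hqdiv f hfm hfi hne hlim g hgm ⟨K, hK⟩ hrel
  set p : ℝ → ℝ := fun t => if 0 ≤ t then q t + 0 else 0 with hp
  have hpt : ∀ t, 0 ≤ t → p t = q t := fun t ht => by simp [hp, ht]
  have hPD : PD p := by
    refine ⟨wr_meas q hq _, hq.congr fun t ht => (hpt t ht).symm,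
      fun t ht => by rw [hpt t ht]; exact hqn t ht, ?_⟩
    refine hqlim.congr' ?_
    filter_upwards [eventually_ge_atTop 0] with t ht
    rw [hpt t ht]
  have hdiv : ¬ IntegrableOn (fun t => p t / (1 + t ^ 2)) (Set.Ioi 0) := by
    intro h
    apply hqdiv
    refine h.congr_fun ?_ measurableSet_Ioi
    intro t ht
    simp only [hpt t (le_of_lt ht)]
  -- normalised f
  set f1 : ℝ → ℂ := hfm.mk f with hf1
  have hf1m : Measurable f1 := hfm.stronglyMeasurable_mk.measurable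
  have hf1e : ∀ᵐ t ∂(volume.restrict (Set.Ioi (0:ℝ))), f t = f1 t := hfm.ae_eq_mk
  set N : ℝ := ∫ t in Set.Ioi (0:ℝ), ‖f t‖ * Real.exp (p t) with hN
  have hN0 : 0 ≤ N := integral_nonneg fun t => by positivity
  have hfp : IntegrableOn (fun t => ‖f t‖ * Real.exp (p t)) (Set.Ioi 0) := by
    refine hfi.congr_fun ?_ measurableSet_Ioi
    intro t ht
    simp only [hpt t (le_of_lt ht)]
  set f2 : ℝ → ℂ := fun t => f1 t / ((N + 1 : ℝ) : ℂ) with hf2
  have hf2e : ∀ᵐ t ∂(volume.restrict (Set.Ioi (0:ℝ))), f2 t = f t / ((N + 1 : ℝ) : ℂ) := by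
    filter_upwards [hf1e] with t ht
    rw [hf2]; simp only [ht]
  have hN1 : 0 < N + 1 := by linarith
  have hf2n : ∀ᵐ t ∂(volume.restrict (Set.Ioi (0:ℝ))),
      ‖f2 t‖ * Real.exp (p t) = (N+1)⁻¹ * (‖f t‖ * Real.exp (p t)) := by
    filter_upwards [hf2e] with t ht
    rw [ht, norm_div, Complex.norm_real, Real.norm_of_nonneg hN1.le]
    ring
  have hFD : FD p f2 := by
    refine ⟨hf1m.div_const _, ?_, ?_⟩
    · exact (hfp.const_mul (N+1)⁻¹).congr (hf2n.mono fun t ht => ht.symm)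
    · rw [integral_congr_ae hf2n, integral_const_mul, ← hN, inv_mul_le_iff₀ hN1]
      linarith
  have hfh : ∀ z, fh f2 z = fh f z / ((N + 1 : ℝ) : ℂ) := by
    intro z
    unfold fh
    rw [← integral_div]
    refine integral_congr_ae ?_
    filter_upwards [hf2e] with t ht
    rw [ht]; ring
  have hne2 : ∀ z : ℂ, z.im ≤ 0 → fh f2 z ≠ 0 := by
    intro z hz
    rw [hfh]
    exact div_ne_zero (hne z hz) (by exact_mod_cast hN1.ne')
  have hlim2 : ∀ δ : ℝ, 0 < δ → ∃ᶠ y : ℝ in atTop, -δ * y < Real.log ‖fh f2 ⟨0, -y⟩‖ := by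
    intro δ hδ
    have h1 : (((-(δ/2) : ℝ)) : EReal) < Filter.limsup
        (fun y : ℝ => ((Real.log ‖fh f ⟨0, y⟩‖ / |y| : ℝ) : EReal)) atBot := by
      rw [hlim]
      exact_mod_cast (by linarith : -(δ/2) < 0)
    have h2 := Filter.frequently_lt_of_lt_limsup (by isBoundedDefault) h1
    have h3 : ∃ᶠ y : ℝ in atTop,
        (((-(δ/2) : ℝ)) : EReal) < ((Real.log ‖fh f ⟨0, -y⟩‖ / |(-y)| : ℝ) : EReal) := by
      have := (tendsto_neg_atBot_atTop (G := ℝ)).frequently (p := fun y : ℝ =>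
        (((-(δ/2) : ℝ)) : EReal) < ((Real.log ‖fh f ⟨0, -y⟩‖ / |(-y)| : ℝ) : EReal))
        (by simpa using h2)
      exact this
    have h4 : ∀ᶠ y : ℝ in atTop, 0 < y ∧ Real.log (N+1) ≤ δ/2 * y := by
      filter_upwards [eventually_gt_atTop 0, eventually_ge_atTop (Real.log (N+1) / (δ/2))] with y h5 h6
      refine ⟨h5, ?_⟩
      rw [div_le_iff₀ (by linarith)] at h6
      linarith
    refine (h3.and_eventually h4).mono ?_
    rintro y ⟨h5, h6, h7⟩
    have h8 : -(δ/2) < Real.log ‖fh f ⟨0, -y⟩‖ / |(-y)| := by exact_mod_cast h5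
    rw [abs_neg, abs_of_pos h6, lt_div_iff₀ h6] at h8
    have hpos : 0 < ‖fh f ⟨0, -y⟩‖ := norm_pos_iff.2 (hne _ (by simp; linarith))
    rw [hfh, norm_div, Complex.norm_real, Real.norm_of_nonneg hN1.le,
      Real.log_div hpos.ne' hN1.ne']
    linarith
  -- normalised g
  set K' : ℝ := max K 1 with hK'
  have hK'1 : 1 ≤ K' := le_max_right _ _
  set g1 : ℝ → ℂ := hgm.mk g with hg1
  have hg1m : Measurable g1 := hgm.stronglyMeasurable_mk.measurable
  have hg1e : ∀ᵐ t ∂(volume.restrict (Set.Ioi (0:ℝ))), g t = g1 t := hgm.ae_eq_mk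
  have hpm : Measurable (fun t => Real.exp (p t)) := Real.measurable_exp.comp hPD.meas
  set g2 : ℝ → ℂ := fun t => if ‖g1 t‖ ≤ K' * Real.exp (p t) then g1 t / (K' : ℂ) else 0 with hg2
  have hg2m : Measurable g2 :=
    Measurable.ite (measurableSet_le hg1m.norm (hpm.const_mul K')) (hg1m.div_const _)
      measurable_const
  have hg2e : ∀ᵐ t ∂(volume.restrict (Set.Ioi (0:ℝ))), g2 t = g t / (K' : ℂ) := by
    filter_upwards [hg1e, hK, ae_restrict_mem measurableSet_Ioi] with t ht1 ht2 ht3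
    have h1 : ‖g1 t‖ ≤ K' * Real.exp (p t) := by
      rw [← ht1, hpt t (le_of_lt ht3)]
      exact ht2.trans (mul_le_mul_of_nonneg_right (le_max_left _ _) (Real.exp_pos _).le)
    simp only [hg2, h1, if_true, ht1]
  have hBD : BD p g2 1 := by
    refine ⟨hg2m, ?_⟩
    intro t ht
    rw [one_mul]
    simp only [hg2]
    split_ifs with h
    · rw [norm_div, Complex.norm_real, Real.norm_of_nonneg (by linarith : (0:ℝ) ≤ K'),
        div_le_iff₀ (by linarith)]
      calc ‖g1 t‖ ≤ K' * Real.exp (p t) := h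
        _ = _ := mul_comm _ _
    · rw [norm_zero]; exact (Real.exp_pos _).le
  have hRel : Rel f2 g2 := by
    intro τ hτ
    have h1 : ∀ᵐ t ∂(volume.restrict (Set.Ioi (0:ℝ))), g2 (t + τ) = g (t + τ) / (K' : ℂ) := by
      rw [ae_restrict_iff' measurableSet_Ioi] at hg2e ⊢
      have h2 := (quasiMeasurePreserving_add_right volume τ).ae hg2e
      filter_upwards [h2] with t ht ht0
      exact ht (by simp only [Set.mem_Ioi] at ht0 ⊢; linarith)
    have h3 : ∫ t in Set.Ioi (0:ℝ), f2 t * g2 (t + τ) =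
        ∫ t in Set.Ioi (0:ℝ), (f t * g (t + τ)) / (((N + 1 : ℝ) : ℂ) * (K' : ℂ)) := by
      refine integral_congr_ae ?_
      filter_upwards [hf2e, h1] with t ht1 ht2
      rw [ht1, ht2, div_mul_div_comm]
    rw [h3, integral_div, hrel τ hτ, zero_div]
  have hfin := hMN p f2 g2 hPD hFD hBD hRel hdiv hne2 hlim2
  filter_upwards [hfin, hg2e] with t h1 h2
  rw [h1] at h2
  have h3 : (K' : ℂ) ≠ 0 := by exact_mod_cast (by linarith : K' ≠ 0)
  have := h2.symm
  rw [div_eq_zero_iff] at this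
  exact this.resolve_right h3

end RtRt

end
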