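import Pool.Agent.H636R2.RT.CC
import Pool.Agent.H636R2.RT.GT
import Pool.Agent.H636R2.RT.FA
import Pool.Agent.H636R2.RT.FF
import Pool.Agent.H636R2.RT.GP
import Pool.Agent.H636R2.RT.EF
import Pool.Agent.H636R2.RT.EI
import Pool.Agent.H636R2.RT.NX
import Pool.Agent.H636R2.RT.L6
import Pool.Agent.H636R2.RT.L7
import Pool.Agent.H636R2.RT.GK
import Pool.Agent.H636R2.RT.STA
import Pool.Agent.H636R2.RT.STB
import Pool.Agent.H636R2.RT.GL
import Pool.Agent.H636R2.RT.HD
import Pool.Agent.H636R2.RT.HK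
import Pool.Agent.H636R2.RT.BL
import Pool.Agent.H636R2.RT.VL
import Pool.Agent.H636R2.RT.PS
import Pool.Agent.H636R2.RT.PQ
import Pool.Agent.H636R2.RT.PF
import Pool.Agent.H636R2.RT.IN
import Pool.Agent.H636R2.RT.EN
import Pool.Agent.H636R2.RT.VB
import Pool.Agent.H636R2.RT.MN
import Pool.Agent.H636R2.RT.WR

namespace RtRt

theorem rt_all : S_COR := by
  have cc := rt_cc
  have gt := rt_gt cc
  have fa := rt_fa cc
  have ff := rt_ff cc
  have gp := rt_gp cc
  have ef := rt_ef cc
  have ei := rt_ei cc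
  have nx := rt_nx cc
  have l6 := rt_l6 cc gp nx
  have l7 := rt_l7 cc nx
  have gk := rt_gk cc nx
  have sta := rt_sta cc fa ef gk
  have stb := rt_stb cc gp ef ei gk l6 l7
  have gl := rt_gl
  have hd := rt_hd
  have hk := rt_hk hd
  have bl := rt_bl
  have vl := rt_vl hd bl
  have ps := rt_ps
  have pq := rt_pq
  have pf := rt_pf pq
  have inj := rt_in gp
  have en := rt_en cc gt fa ff gp sta stb gl
  have vb := rt_vb cc gt fa ff gp sta hk vl
  have mn := rt_mn en vb ps hk ff gp ei pf inj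
  exact rt_cor mn

end RtRt
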