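import Pool.Agent.H636R2.RT.Defs

/-! Task CC: elementary facts on nonnegative concave functions on the half line. -/

set_option autoImplicit false

open MeasureTheory Set Filter Topology

noncomputable section

namespace RtRt

theorem cc_mono {p : ℝ → ℝ} (hc : ConcaveOn ℝ (Set.Ici 0) p) (h0 : ∀ t, 0 ≤ t → 0 ≤ p t)
    {s t : ℝ} (hs : 0 ≤ s) (hst : s ≤ t) : p s ≤ p t := by
  by_contra hlt
  push Not at hlt
  have hst' : s < t := lt_of_le_of_ne hst (by rintro rfl; exact lt_irrefl _ hlt)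
  -- choose u large with p t - (u-t) * (p s - p t)/(t-s) < 0
  set m : ℝ := (p s - p t) / (t - s) with hm
  have hmpos : 0 < m := div_pos (by linarith) (by linarith)
  set u : ℝ := t + (p t + 1) / m with hu
  have hpt : 0 ≤ p t := h0 t (by linarith)
  have hut : t < u := by
    have : 0 < (p t + 1) / m := div_pos (by linarith) hmpos
    linarith
  have h1 := hc.slope_anti_adjacent (x := s) (y := t) (z := u) hs
    (show (0:ℝ) ≤ u by linarith) hst' hut
  -- (p u - p t)/(u - t) ≤ (p t - p s)/(t - s) = -m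
  have h2 : (p t - p s) / (t - s) = -m := by
    rw [hm, ← neg_div]; ring_nf
  rw [h2, div_le_iff₀ (by linarith)] at h1
  have h3 : (u - t) * m = p t + 1 := by
    rw [hu]; field_simp; ring
  have h4 := h0 u (by linarith)
  nlinarith

theorem cc_chord {p : ℝ → ℝ} (hc : ConcaveOn ℝ (Set.Ici 0) p) (h0 : ∀ t, 0 ≤ t → 0 ≤ p t)
    {s t : ℝ} (hs : 0 ≤ s) (ht : 0 < t) (hst : s ≤ t) : s / t * p t ≤ p s := by
  have h1 := hc.2 (show t ∈ Set.Ici (0:ℝ) from ht.le) (show (0:ℝ) ∈ Set.Ici (0:ℝ) from Set.self_mem_Ici)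
    (div_nonneg hs ht.le) (sub_nonneg.2 ((div_le_one ht).2 hst)) (add_sub_cancel (s / t) 1)
  simp only [smul_eq_mul, mul_zero, add_zero] at h1
  rw [div_mul_cancel₀ _ ht.ne'] at h1
  have h2 : 0 ≤ (1 - s / t) * p 0 :=
    mul_nonneg (sub_nonneg.2 ((div_le_one ht).2 hst)) (h0 0 le_rfl)
  linarith

theorem cc_subadd {p : ℝ → ℝ} (hc : ConcaveOn ℝ (Set.Ici 0) p) (h0 : ∀ t, 0 ≤ t → 0 ≤ p t)
    {s t : ℝ} (hs : 0 ≤ s) (ht : 0 ≤ t) : p (s + t) ≤ p s + p t := by
  rcases eq_or_lt_of_le (add_nonneg hs ht) with h | h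
  · have hs' : s = 0 := by linarith
    have ht' : t = 0 := by linarith
    subst hs' ht'
    have := h0 0 le_rfl
    simp only [add_zero]
    linarith
  · have h1 := cc_chord hc h0 hs h (by linarith)
    have h2 := cc_chord hc h0 ht h (by linarith)
    have h3 : s / (s + t) * p (s + t) + t / (s + t) * p (s + t) = p (s + t) := by
      rw [← add_mul, ← add_div, div_self h.ne', one_mul]
    linarith

/-- increments of a concave function are nonincreasing -/
theorem cc_incr {p : ℝ → ℝ} (hc : ConcaveOn ℝ (Set.Ici 0) p)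
    {a b t : ℝ} (ha : 0 ≤ a) (hab : a ≤ b) (ht : 0 ≤ t) :
    p (b + t) - p b ≤ p (a + t) - p a := by
  rcases eq_or_lt_of_le hab with h | h
  · subst h; exact le_rfl
  rcases eq_or_lt_of_le ht with h' | h'
  · subst h'; simp
  -- b = convex combination of a and b+t; a+t as well
  set l : ℝ := t / (b - a + t) with hl
  have hd : 0 < b - a + t := by linarith
  have hl0 : 0 ≤ l := div_nonneg ht hd.le
  have hl1 : l ≤ 1 := (div_le_one hd).2 (by linarith)
  have hlm : l * (b - a + t) = t := by rw [hl]; field_simp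
  have hbt : b + t ∈ Set.Ici (0:ℝ) := show (0:ℝ) ≤ b + t by linarith
  have h1 := hc.2 (show a ∈ Set.Ici (0:ℝ) from ha) hbt hl0 (sub_nonneg.2 hl1)
    (add_sub_cancel l 1)
  have h2 := hc.2 (show a ∈ Set.Ici (0:ℝ) from ha) hbt (sub_nonneg.2 hl1) hl0
    (sub_add_cancel 1 l)
  simp only [smul_eq_mul] at h1 h2
  have e1 : l * a + (1 - l) * (b + t) = b := by nlinarith
  have e2 : (1 - l) * a + l * (b + t) = a + t := by nlinarith
  rw [e1] at h1
  rw [e2] at h2
  linarith

theorem cc_D {p : ℝ → ℝ} (hc : ConcaveOn ℝ (Set.Ici 0) p)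
    {T s t : ℝ} (hT : 0 ≤ T) (hs : T ≤ s) (ht : T ≤ t) :
    2 * p T - p (2 * T) ≤ p s + p t - p (s + t) := by
  have h1 := cc_incr hc hT hs (show 0 ≤ t by linarith)
  have h2 := cc_incr hc hT ht hT
  have e1 : t + T = T + t := by ring
  have e2 : T + T = 2 * T := by ring
  rw [e1, e2] at h2
  linarith

theorem cc_up {p : ℝ → ℝ} (hc : ConcaveOn ℝ (Set.Ici 0) p) (h0 : ∀ t, 0 ≤ t → 0 ≤ p t)
    {T t : ℝ} (hT : 0 < T) (ht : 0 ≤ t) :
    p t ≤ p (2 * T) + (p (2 * T) - p T) / T * t := by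
  have hsg : 0 ≤ (p (2 * T) - p T) / T :=
    div_nonneg (sub_nonneg.2 (cc_mono hc h0 hT.le (by linarith))) hT.le
  rcases le_or_gt t (2 * T) with h | h
  · have h1 := cc_mono hc h0 ht h
    have h2 := mul_nonneg hsg ht
    linarith
  · have h1 := hc.slope_anti_adjacent (x := T) (y := 2 * T) (z := t) hT.le
      (show (0:ℝ) ≤ t from ht) (by linarith) h
    have e : 2 * T - T = T := by ring
    rw [e, div_le_iff₀ (by linarith)] at h1
    have h3 : 0 ≤ (p (2 * T) - p T) / T * (2 * T) := mul_nonneg hsg (by linarith)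
    nlinarith

theorem rt_cc : S_CC := by
  intro p hp
  have hc := hp.conc
  have h0 := hp.nn
  refine ⟨fun s t hs hst => cc_mono hc h0 hs hst, fun s t hs ht => cc_subadd hc h0 hs ht,
    fun T s t hT hs ht => ?_, fun T hT => ⟨?_, ?_⟩, fun T t hT ht => ?_, fun T t hT ht htT => ?_⟩
  · have := cc_D hc hT hs ht
    unfold dl
    linarith
  · have := cc_subadd hc h0 hT hT
    have e : T + T = 2 * T := by ring
    rw [e] at this
    unfold dl
    linarith
  · have := cc_mono hc h0 hT (show T ≤ 2 * T by linarith)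
    unfold dl
    linarith
  · exact cc_up hc h0 hT ht
  · have := cc_chord hc h0 ht hT htT
    calc t * (p T / T) = t / T * p T := by ring
      _ ≤ p t := this

end RtRt

end
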