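import Pool.Agent.H636R2.RT.FinMono

open MeasureTheory Set Filter Topology

noncomputable section

namespace RtRt

/-- measurable submultiplicative functions are locally bounded -/
lemma wt_bdd (φ : ℝ → ℝ) (hm : Measurable φ) (h1 : ∀ t, 1 ≤ φ t)
    (hs : ∀ t τ, φ (t + τ) ≤ φ t * φ τ) (M : ℝ) : BddAbove (φ '' Set.Icc 0 M) := by
  by_cases hM : M ≤ 0
  · refine ⟨φ 0, ?_⟩
    rintro _ ⟨s, hs, rfl⟩
    have : s = 0 := le_antisymm (hs.2.trans hM) hs.1
    rw [this]
  push Not at hM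
  by_contra hb
  have hn : ∀ n : ℕ, ∃ t ∈ Set.Icc 0 M, ((n:ℝ)) ^ 2 < φ t := by
    intro n
    by_contra h
    push Not at h
    exact hb ⟨(n:ℝ)^2, by rintro _ ⟨s, hs, rfl⟩; exact h s hs⟩
  set E : ℕ → Set ℝ := fun n => {s | s ∈ Set.Icc (-M) M ∧ (n:ℝ) ≤ φ s} with hE
  have hEm : ∀ n, MeasurableSet (E n) := fun n =>
    measurableSet_Icc.inter (measurableSet_le measurable_const hm)
  have hEa : Antitone E := by
    intro a b hab s hs
    refine ⟨hs.1, le_trans ?_ hs.2⟩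
    exact_mod_cast hab
  have hEi : (⋂ n, E n) = ∅ := by
    ext s
    simp only [mem_iInter, mem_empty_iff_false, iff_false]
    intro h
    obtain ⟨n, hn⟩ := exists_nat_gt (φ s)
    exact absurd (h n).2 (not_le.2 hn)
  have hEf : volume (E 0) ≠ ⊤ := by
    refine ne_of_lt (lt_of_le_of_lt (measure_mono (t := Set.Icc (-M) M) fun s hs => hs.1) ?_)
    simp
  have hlim : Tendsto (fun n => volume (E n)) atTop (𝓝 0) := by
    have := tendsto_measure_iInter_atTop (μ := volume) (s := E)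
      (fun n => (hEm n).nullMeasurableSet) hEa ⟨0, hEf⟩
    rw [hEi, measure_empty] at this
    exact this
  have hlow : ∀ n, ENNReal.ofReal M ≤ 2 * volume (E n) := by
    intro n
    obtain ⟨t, ht, hnt⟩ := hn n
    have hsub : Set.Icc 0 M ⊆ E n ∪ (fun s => t - s) ⁻¹' (E n) := by
      intro s hs'
      by_cases h : (n:ℝ) ≤ φ s
      · exact Or.inl ⟨⟨by linarith [hs'.1], hs'.2⟩, h⟩
      · right
        push Not at h
        refine ⟨⟨by linarith [hs'.2, ht.1], by linarith [hs'.1, ht.2]⟩, ?_⟩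
        by_contra h2
        push Not at h2
        have h3 := hs s (t - s)
        rw [add_sub_cancel] at h3
        have h4 : φ s * φ (t - s) ≤ (n:ℝ) * n :=
          mul_le_mul h.le h2.le (by linarith [h1 (t - s)]) (Nat.cast_nonneg n)
        nlinarith
    calc ENNReal.ofReal M = volume (Set.Icc (0:ℝ) M) := by simp
      _ ≤ volume (E n ∪ (fun s => t - s) ⁻¹' (E n)) := measure_mono hsub
      _ ≤ volume (E n) + volume ((fun s => t - s) ⁻¹' (E n)) := measure_union_le _ _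
      _ = 2 * volume (E n) := by
        rw [(Measure.measurePreserving_sub_left volume t).measure_preimage (hEm n).nullMeasurableSet, two_mul]
  have h2 : Tendsto (fun n => 2 * volume (E n)) atTop (𝓝 (2 * 0)) :=
    ENNReal.Tendsto.const_mul hlim (Or.inr (by simp))
  rw [mul_zero] at h2
  have h3 := ge_of_tendsto' h2 hlow
  rw [nonpos_iff_eq_zero, ENNReal.ofReal_eq_zero] at h3
  linarith

/-- the least nondecreasing majorant on `[0, ∞)` -/
def sh (φ : ℝ → ℝ) (t : ℝ) : ℝ := sSup (φ '' Set.Icc 0 t)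

lemma sh_ge (φ : ℝ → ℝ) (hφ : IsWeight φ) (s t : ℝ) (hs : 0 ≤ s) (hst : s ≤ t) :
    φ s ≤ sh φ t :=
  le_csSup (wt_bdd φ hφ.1 hφ.2.1 hφ.2.2.1 t) ⟨s, ⟨hs, hst⟩, rfl⟩

lemma sh_le (φ : ℝ → ℝ) (t B : ℝ) (ht : 0 ≤ t) (h : ∀ s, 0 ≤ s → s ≤ t → φ s ≤ B) :
    sh φ t ≤ B := by
  refine csSup_le ⟨φ 0, ⟨0, ⟨le_rfl, ht⟩, rfl⟩⟩ ?_
  rintro _ ⟨s, hs, rfl⟩
  exact h s hs.1 hs.2

lemma sh_one (φ : ℝ → ℝ) (hφ : IsWeight φ) (t : ℝ) (ht : 0 ≤ t) : 1 ≤ sh φ t :=
  (hφ.2.1 0).trans (sh_ge φ hφ 0 t le_rfl ht)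

lemma sh_mono (φ : ℝ → ℝ) (hφ : IsWeight φ) : MonotoneOn (sh φ) (Set.Ici 0) := by
  intro s hs t ht hst
  exact sh_le φ s _ hs fun u hu hus => sh_ge φ hφ u t hu (hus.trans hst)

lemma sh_mul (φ : ℝ → ℝ) (hφ : IsWeight φ) (s t : ℝ) (hs : 0 ≤ s) (ht : 0 ≤ t) :
    sh φ (s + t) ≤ sh φ s * sh φ t := by
  refine sh_le φ _ _ (by linarith) fun u hu hu2 => ?_
  rcases le_total u s with h | h
  · have h1 := sh_ge φ hφ u s hu h
    have h2 := sh_one φ hφ t ht
    have h3 := sh_one φ hφ s hs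
    nlinarith
  · have h1 := hφ.2.2.1 s (u - s)
    rw [add_sub_cancel] at h1
    have h2 := sh_ge φ hφ s s hs le_rfl
    have h3 := sh_ge φ hφ (u - s) t (by linarith) (by linarith)
    have h4 := hφ.2.1 (u - s)
    exact h1.trans (mul_le_mul h2 h3 (by linarith) (by linarith [sh_one φ hφ s hs]))

lemma sh_lim (φ : ℝ → ℝ) (hφ : IsWeight φ) :
    Tendsto (fun t => Real.log (sh φ t) / t) atTop (𝓝 0) := by
  have hl := hφ.2.2.2.1
  rw [Metric.tendsto_atTop] at hl ⊢
  intro ε hε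
  obtain ⟨N, hN⟩ := hl (ε / 2) (by linarith)
  set N' := max N 1 with hN'
  have hN1 : (1:ℝ) ≤ N' := le_max_right _ _
  set L := Real.log (sh φ N') with hL
  have hL0 : 0 ≤ L := Real.log_nonneg (sh_one φ hφ N' (by linarith))
  refine ⟨max N' (2 * L / ε + 1), fun t ht => ?_⟩
  have ht1 : N' ≤ t := (le_max_left _ _).trans ht
  have ht2 : 2 * L / ε + 1 ≤ t := (le_max_right _ _).trans ht
  have ht0 : 0 < t := by linarith
  have h0 : 0 ≤ Real.log (sh φ t) := Real.log_nonneg (sh_one φ hφ t ht0.le)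
  rw [Real.dist_eq, sub_zero, abs_of_nonneg (div_nonneg h0 ht0.le), div_lt_iff₀ ht0]
  have hsh0 : 0 < sh φ t := by linarith [sh_one φ hφ t ht0.le]
  have hb : sh φ t ≤ Real.exp (max L (ε / 2 * t)) := by
    refine sh_le φ t _ ht0.le fun s hs0 hst => ?_
    rcases le_total s N' with h | h
    · have h1 := sh_ge φ hφ s N' hs0 h
      have h2 : 0 < sh φ N' := by linarith [sh_one φ hφ N' (by linarith)]
      calc φ s ≤ sh φ N' := h1
        _ = Real.exp L := (Real.exp_log h2).symm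
        _ ≤ _ := Real.exp_le_exp.2 (le_max_left _ _)
    · have h1 := hN s ((le_max_left _ _).trans h)
      have hs1 : 0 < s := by linarith
      rw [Real.dist_eq, sub_zero] at h1
      have h2 := (abs_lt.1 h1).2
      rw [div_lt_iff₀ hs1] at h2
      have h3 : 0 < φ s := by linarith [hφ.2.1 s]
      rw [← Real.log_le_iff_le_exp h3]
      refine le_trans ?_ (le_max_right _ _)
      nlinarith
  have h4 : Real.log (sh φ t) ≤ max L (ε / 2 * t) := (Real.log_le_iff_le_exp hsh0).2 hb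
  refine lt_of_le_of_lt h4 (max_lt ?_ ?_)
  · have h5 : 2 * L / ε < t := by linarith
    rw [div_lt_iff₀ hε] at h5
    nlinarith
  · nlinarith

lemma cmaj_ge' (p : ℝ → ℝ) (h0 : ∀ t, 0 ≤ t → 0 ≤ p t) (hm : MonotoneOn p (Set.Ici 0))
    (hsub : ∀ s t, 0 ≤ s → 0 ≤ t → p (s + t) ≤ p s + p t) (t : ℝ) (ht : 0 ≤ t) :
    p t ≤ cmaj p t := by
  haveI : Nonempty (Set.Ioi (0:ℝ)) := ⟨⟨1, by simp⟩⟩
  refine le_ciInf fun s => ?_
  have hs : (0:ℝ) < s := s.2
  have hps := h0 s hs.le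
  have hn : ∀ n : ℕ, p (((n:ℝ) + 1) * s) ≤ ((n:ℝ) + 1) * p s := by
    intro n
    induction n with
    | zero => simp
    | succ n ih =>
      have e : (((n + 1 : ℕ) : ℝ) + 1) * s = ((n:ℝ) + 1) * s + s := by push_cast; ring
      rw [e]
      refine (hsub _ _ (by positivity) hs.le).trans ?_
      push_cast
      linarith
  set n := ⌊t / s⌋₊ with hnn
  have h1 : t / s < (n:ℝ) + 1 := Nat.lt_floor_add_one _
  have h2 : (n:ℝ) ≤ t / s := Nat.floor_le (by positivity)
  have h3 : t ≤ ((n:ℝ) + 1) * s := by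
    rw [div_lt_iff₀ hs] at h1; exact h1.le
  calc p t ≤ p (((n:ℝ) + 1) * s) := hm ht (by simp only [Set.mem_Ici]; positivity) h3
    _ ≤ ((n:ℝ) + 1) * p s := hn n
    _ ≤ p s * (1 + t / s) := by nlinarith

/-- all weights, `∫ |f| (sup_{[0,t]} φ)² < ∞` -/
theorem fin_D (hC : S_COR) (φ : ℝ → ℝ) (hφ : IsWeight φ)
    (hdiv : ¬ IntegrableOn (fun t => Real.log (φ t) / (1 + t ^ 2)) (Set.Ioi 0))
    (f : ℝ → ℂ) (hf : AEStronglyMeasurable f volume)
    (hfi : IntegrableOn (fun t => ‖f t‖ * sh φ t ^ 2) (Set.Ioi 0)) (hA : Adm f) :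
    Complete φ f := by
  have hpos : ∀ t, 0 ≤ t → 0 < sh φ t := fun t ht => by linarith [sh_one φ hφ t ht]
  set p : ℝ → ℝ := fun t => Real.log (sh φ t) with hp
  have hp0 : ∀ t, 0 ≤ t → 0 ≤ p t := fun t ht => Real.log_nonneg (sh_one φ hφ t ht)
  have hpm : MonotoneOn p (Set.Ici 0) := fun s hs t ht hst =>
    Real.log_le_log (hpos s hs) (sh_mono φ hφ hs ht hst)
  have hps : ∀ s t, 0 ≤ s → 0 ≤ t → p (s + t) ≤ p s + p t := fun s t hs ht => by
    rw [hp]; simp only
    rw [← Real.log_mul (hpos s hs).ne' (hpos t ht).ne']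
    exact Real.log_le_log (hpos _ (by linarith)) (sh_mul φ hφ s t hs ht)
  have hc := cmaj_concave p hp0
  have hge := cmaj_ge' p hp0 hpm hps
  have hle := cmaj_le p hp0
  have hqm : AEStronglyMeasurable (cmaj p) (volume.restrict (Set.Ioi 0)) := by
    have h1 := (wr_meas (cmaj p) hc 0).aestronglyMeasurable (μ := volume.restrict (Set.Ioi (0:ℝ)))
    refine h1.congr ?_
    filter_upwards [ae_restrict_mem measurableSet_Ioi] with t ht
    simp [le_of_lt (Set.mem_Ioi.1 ht)]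
  have hφp : ∀ t, 0 ≤ t → Real.log (φ t) ≤ cmaj p t := fun t ht =>
    (Real.log_le_log (by linarith [hφ.2.1 t]) (sh_ge φ hφ t t ht le_rfl)).trans (hge t ht)
  refine fin_B hC φ hφ.2.1 (cmaj p) 1 hc ?_ ?_ ?_ f hf.restrict ?_ hA
  · have h2 : Tendsto (fun t : ℝ => 2 * (p t / t)) atTop (𝓝 (2 * 0)) := (sh_lim φ hφ).const_mul 2
    rw [mul_zero] at h2
    refine squeeze_zero' ?_ ?_ h2
    · filter_upwards [eventually_gt_atTop 0] with t ht
      exact div_nonneg ((hp0 t ht.le).trans (hge t ht.le)) ht.le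
    · filter_upwards [eventually_gt_atTop 0] with t ht
      rw [← mul_div_assoc]
      exact div_le_div_of_nonneg_right (hle t ht) ht.le
  · intro t ht
    rw [one_mul, ← Real.log_le_iff_le_exp (by linarith [hφ.2.1 t])]
    exact hφp t ht
  · intro h
    apply hdiv
    refine Integrable.mono' h ?_ ?_
    · exact ((Real.measurable_log.comp hφ.1).div (by fun_prop)).aestronglyMeasurable
    · filter_upwards [ae_restrict_mem measurableSet_Ioi] with t ht
      rw [Real.norm_of_nonneg (div_nonneg (Real.log_nonneg (hφ.2.1 t)) (by positivity))]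
      exact div_le_div_of_nonneg_right (hφp t (le_of_lt ht)) (by positivity)
  · refine Integrable.mono' hfi ?_ ?_
    · exact hf.restrict.norm.mul (Real.continuous_exp.comp_aestronglyMeasurable hqm)
    · filter_upwards [ae_restrict_mem measurableSet_Ioi] with t ht
      rw [Real.norm_of_nonneg (by positivity)]
      have h2 : Real.exp (cmaj p t) ≤ sh φ t ^ 2 := by
        have h3 := Real.exp_le_exp.2 (hle t ht)
        have h4 : Real.exp (2 * p t) = sh φ t ^ 2 := by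
          rw [two_mul, Real.exp_add, hp]
          simp only
          rw [Real.exp_log (hpos t (le_of_lt ht)), sq]
        rw [← h4]; exact h3
      exact mul_le_mul_of_nonneg_left h2 (norm_nonneg _)

end RtRt

end
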