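import Pool.Agent.H636R2.RT.WR

open MeasureTheory Set Filter Topology

noncomputable section

namespace RtRt

/-- a weight with vanishing exponential types -/
def IsWeight (φ : ℝ → ℝ) : Prop :=
  Measurable φ ∧ (∀ t, 1 ≤ φ t) ∧ (∀ t τ, φ (t + τ) ≤ φ t * φ τ) ∧
  Tendsto (fun t => Real.log (φ t) / t) atTop (𝓝 0) ∧
  Tendsto (fun t => Real.log (φ t) / t) atBot (𝓝 0)

/-- `f ∈ L^1_ω(ℝ_+)` -/
def InL1 (ω : ℝ → ℝ) (f : ℝ → ℂ) : Prop :=
  AEStronglyMeasurable f volume ∧ (∀ t, t < 0 → f t = 0) ∧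
  IntegrableOn (fun t => ‖f t‖ * ω t) (Set.Ioi 0)

/-- the two conditions on the transform of `f` -/
def Adm (f : ℝ → ℂ) : Prop :=
  (∀ z : ℂ, z.im ≤ 0 → fh f z ≠ 0) ∧
  Filter.limsup (fun y : ℝ => ((Real.log ‖fh f ⟨0, y⟩‖ / |y| : ℝ) : EReal)) atBot = 0

/-- every `g ∈ L^∞_φ(ℝ_+)` orthogonal to all right translates of `f` vanishes -/
def Complete (φ : ℝ → ℝ) (f : ℝ → ℂ) : Prop :=
  ∀ g : ℝ → ℂ, AEStronglyMeasurable g (volume.restrict (Set.Ioi 0)) →
  (∃ K : ℝ, ∀ᵐ t ∂(volume.restrict (Set.Ioi (0:ℝ))), ‖g t‖ ≤ K * φ t) →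
  (∀ τ : ℝ, 0 < τ → ∫ t in Set.Ioi (0:ℝ), f t * g (t + τ) = 0) →
  ∀ᵐ t ∂(volume.restrict (Set.Ioi (0:ℝ))), g t = 0

/-- concave majorant with general integrability -/
theorem fin_B (hC : S_COR) (φ : ℝ → ℝ) (hφ : ∀ t, 1 ≤ φ t) (q : ℝ → ℝ) (C : ℝ)
    (hq : ConcaveOn ℝ (Set.Ici 0) q) (hqlim : Tendsto (fun t => q t / t) atTop (𝓝 0))
    (hle : ∀ t, 0 ≤ t → φ t ≤ C * Real.exp (q t))
    (hdiv : ¬ IntegrableOn (fun t => q t / (1 + t ^ 2)) (Set.Ioi 0))
    (f : ℝ → ℂ) (hf : AEStronglyMeasurable f (volume.restrict (Set.Ioi 0)))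
    (hfi : IntegrableOn (fun t => ‖f t‖ * Real.exp (q t)) (Set.Ioi 0)) (hA : Adm f) :
    Complete φ f := by
  rintro g hgm ⟨K, hK⟩ hrel
  have hC0 : 0 < C := by
    by_contra h
    push Not at h
    have h1 := hle 0 le_rfl
    have h2 := hφ 0
    nlinarith [Real.exp_pos (q 0)]
  set L := Real.log C with hL
  set q' : ℝ → ℝ := fun t => q t + L with hq'
  have hexp : ∀ t, Real.exp (q' t) = C * Real.exp (q t) := by
    intro t
    rw [hq']; simp only
    rw [Real.exp_add, hL, Real.exp_log hC0, mul_comm]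
  have hq'n : ∀ t, 0 ≤ t → 0 ≤ q' t := by
    intro t ht
    have h1 := (hφ t).trans (hle t ht)
    rw [← hexp t] at h1
    exact Real.one_le_exp_iff.1 h1 |> fun h => h
  have hq'c : ConcaveOn ℝ (Set.Ici 0) q' := hq.add_const L
  have hq'l : Tendsto (fun t => q' t / t) atTop (𝓝 0) := by
    have h1 : Tendsto (fun t : ℝ => q t / t + L / t) atTop (𝓝 (0 + 0)) :=
      hqlim.add (tendsto_const_nhds.div_atTop tendsto_id)
    rw [add_zero] at h1
    refine h1.congr fun t => ?_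
    rw [hq', ← add_div]
  have hint1 : IntegrableOn (fun t : ℝ => L / (1 + t ^ 2)) (Set.Ioi 0) := by
    have := (integrable_inv_one_add_sq.const_mul L).integrableOn (s := Set.Ioi (0:ℝ))
    simpa [div_eq_mul_inv] using this
  have hq'd : ¬ IntegrableOn (fun t => q' t / (1 + t ^ 2)) (Set.Ioi 0) := by
    intro h
    apply hdiv
    refine (h.sub hint1).congr ?_
    filter_upwards with t
    simp only [hq', Pi.sub_apply]
    ring
  refine hC q' hq'c hq'n hq'l hq'd f hf ?_ hA.1 hA.2 g hgm ⟨max K 0, ?_⟩ hrel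
  · refine (hfi.const_mul C).congr ?_
    filter_upwards with t
    rw [hexp]; ring
  · filter_upwards [hK, ae_restrict_mem measurableSet_Ioi] with t ht ht0
    rw [hexp]
    have h1 := hle t (le_of_lt ht0)
    have h2 : 0 ≤ φ t := by linarith [hφ t]
    calc ‖g t‖ ≤ K * φ t := ht
      _ ≤ max K 0 * φ t := mul_le_mul_of_nonneg_right (le_max_left _ _) h2
      _ ≤ max K 0 * (C * Real.exp (q t)) := mul_le_mul_of_nonneg_left h1 (le_max_right _ _)

/-- weights equivalent to a log-concave one -/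
theorem fin_A (hC : S_COR) (φ : ℝ → ℝ) (hφ : IsWeight φ) (q : ℝ → ℝ) (c C : ℝ)
    (hq : ConcaveOn ℝ (Set.Ici 0) q) (hc : 0 < c)
    (hle : ∀ t, 0 ≤ t → c * Real.exp (q t) ≤ φ t ∧ φ t ≤ C * Real.exp (q t))
    (hdiv : ¬ IntegrableOn (fun t => Real.log (φ t) / (1 + t ^ 2)) (Set.Ioi 0))
    (f : ℝ → ℂ) (hf : InL1 φ f) (hA : Adm f) : Complete φ f := by
  obtain ⟨hφm, hφ1, -, hφl, -⟩ := hφ
  obtain ⟨hfm, -, hfi⟩ := hf
  have hC0 : 0 < C := by
    by_contra h
    push Not at h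
    have h1 := (hle 0 le_rfl).2
    have h2 := hφ1 0
    nlinarith [Real.exp_pos (q 0)]
  have hlog0 : ∀ t, 0 ≤ Real.log (φ t) := fun t => Real.log_nonneg (hφ1 t)
  have hlow : ∀ t, 0 ≤ t → q t ≤ Real.log (φ t) - Real.log c := fun t ht => by
    have h1 := Real.log_le_log (by positivity) (hle t ht).1
    rw [Real.log_mul hc.ne' (Real.exp_pos _).ne', Real.log_exp] at h1
    linarith
  have hupp : ∀ t, 0 ≤ t → Real.log (φ t) ≤ q t + Real.log C := fun t ht => by
    have h1 := Real.log_le_log (by linarith [hφ1 t]) (hle t ht).2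
    rw [Real.log_mul hC0.ne' (Real.exp_pos _).ne', Real.log_exp] at h1
    linarith
  have hqm : AEStronglyMeasurable q (volume.restrict (Set.Ioi 0)) := by
    have h1 := (wr_meas q hq 0).aestronglyMeasurable (μ := volume.restrict (Set.Ioi (0:ℝ)))
    refine h1.congr ?_
    filter_upwards [ae_restrict_mem measurableSet_Ioi] with t ht
    simp [le_of_lt (Set.mem_Ioi.1 ht)]
  have hqlim : Tendsto (fun t => q t / t) atTop (𝓝 0) := by
    have h1 : Tendsto (fun t : ℝ => Real.log (φ t) / t - Real.log c / t) atTop (𝓝 (0 - 0)) :=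
      hφl.sub (tendsto_const_nhds.div_atTop tendsto_id)
    have h2 : Tendsto (fun t : ℝ => Real.log (φ t) / t - Real.log C / t) atTop (𝓝 (0 - 0)) :=
      hφl.sub (tendsto_const_nhds.div_atTop tendsto_id)
    rw [sub_zero] at h1 h2
    refine tendsto_of_tendsto_of_tendsto_of_le_of_le' h2 h1 ?_ ?_
    · filter_upwards [eventually_gt_atTop 0] with t ht
      rw [← sub_div]
      exact div_le_div_of_nonneg_right (by linarith [hupp t ht.le]) ht.le
    · filter_upwards [eventually_gt_atTop 0] with t ht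
      rw [← sub_div]
      exact div_le_div_of_nonneg_right (hlow t ht.le) ht.le
  have hqd : ¬ IntegrableOn (fun t => q t / (1 + t ^ 2)) (Set.Ioi 0) := by
    intro h
    apply hdiv
    have hint1 : IntegrableOn (fun t : ℝ => Real.log C / (1 + t ^ 2)) (Set.Ioi 0) := by
      have := (integrable_inv_one_add_sq.const_mul (Real.log C)).integrableOn (s := Set.Ioi (0:ℝ))
      simpa [div_eq_mul_inv] using this
    refine Integrable.mono' (h.add hint1) ?_ ?_
    · exact ((Real.measurable_log.comp hφm).div (by fun_prop)).aestronglyMeasurable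
    · filter_upwards [ae_restrict_mem measurableSet_Ioi] with t ht
      rw [Real.norm_of_nonneg (div_nonneg (hlog0 t) (by positivity))]
      simp only [Pi.add_apply, ← add_div]
      exact div_le_div_of_nonneg_right (hupp t (le_of_lt ht)) (by positivity)
  refine fin_B hC φ hφ1 q C hq hqlim (fun t ht => (hle t ht).2) hqd f hfm.restrict ?_ hA
  refine Integrable.mono' (hfi.const_mul c⁻¹) ?_ ?_
  · exact hfm.restrict.norm.mul (Real.continuous_exp.comp_aestronglyMeasurable hqm)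
  · filter_upwards [ae_restrict_mem measurableSet_Ioi] with t ht
    rw [Real.norm_of_nonneg (by positivity)]
    have h1 := (hle t (le_of_lt ht)).1
    have h2 : Real.exp (q t) ≤ c⁻¹ * φ t := by
      rw [← div_eq_inv_mul, le_div_iff₀ hc]; linarith
    calc ‖f t‖ * Real.exp (q t) ≤ ‖f t‖ * (c⁻¹ * φ t) := mul_le_mul_of_nonneg_left h2 (norm_nonneg _)
      _ = c⁻¹ * (‖f t‖ * φ t) := by ring

end RtRt

end
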