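import Pool.Agent.H636R2.RT.FinCore

open MeasureTheory Set Filter Topology

noncomputable section

namespace RtRt

/-- concave majorant of a nondecreasing subadditive function -/
def cmaj (p : ℝ → ℝ) (t : ℝ) : ℝ := ⨅ s : Set.Ioi (0:ℝ), p s * (1 + t / s)

lemma cmaj_bdd (p : ℝ → ℝ) (h0 : ∀ t, 0 ≤ t → 0 ≤ p t) (t : ℝ) (ht : 0 ≤ t) :
    BddBelow (Set.range fun s : Set.Ioi (0:ℝ) => p s * (1 + t / s)) := by
  refine ⟨0, ?_⟩
  rintro _ ⟨s, rfl⟩
  have hs : (0:ℝ) < s := s.2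
  have := h0 s hs.le
  positivity

lemma cmaj_concave (p : ℝ → ℝ) (h0 : ∀ t, 0 ≤ t → 0 ≤ p t) :
    ConcaveOn ℝ (Set.Ici 0) (cmaj p) := by
  refine ⟨convex_Ici 0, ?_⟩
  intro x hx y hy a b ha hb hab
  haveI : Nonempty (Set.Ioi (0:ℝ)) := ⟨⟨1, by simp⟩⟩
  simp only [smul_eq_mul]
  refine le_ciInf fun s => ?_
  have hs : (0:ℝ) < s := s.2
  have h1 : cmaj p x ≤ p s * (1 + x / s) := ciInf_le (cmaj_bdd p h0 x hx) s
  have h2 : cmaj p y ≤ p s * (1 + y / s) := ciInf_le (cmaj_bdd p h0 y hy) s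
  calc a * cmaj p x + b * cmaj p y ≤ a * (p s * (1 + x / s)) + b * (p s * (1 + y / s)) :=
        add_le_add (mul_le_mul_of_nonneg_left h1 ha) (mul_le_mul_of_nonneg_left h2 hb)
    _ = p s * ((a + b) + (a * x + b * y) / s) := by field_simp; ring
    _ = p s * (1 + (a * x + b * y) / s) := by rw [hab]

lemma cmaj_ge (p : ℝ → ℝ) (h0 : ∀ t, 0 ≤ t → 0 ≤ p t) (hm : MonotoneOn p (Set.Ici 0))
    (hsub : ∀ s t, p (s + t) ≤ p s + p t) (t : ℝ) (ht : 0 ≤ t) : p t ≤ cmaj p t := by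
  haveI : Nonempty (Set.Ioi (0:ℝ)) := ⟨⟨1, by simp⟩⟩
  refine le_ciInf fun s => ?_
  have hs : (0:ℝ) < s := s.2
  have hps := h0 s hs.le
  have hn : ∀ n : ℕ, p (((n:ℝ) + 1) * s) ≤ ((n:ℝ) + 1) * p s := by
    intro n
    induction n with
    | zero => simp
    | succ n ih =>
      have e : (((n + 1 : ℕ) : ℝ) + 1) * s = ((n:ℝ) + 1) * s + s := by push_cast; ring
      rw [e]
      refine (hsub _ _).trans ?_
      push_cast
      linarith
  set n := ⌊t / s⌋₊ with hnn
  have h1 : t / s < (n:ℝ) + 1 := Nat.lt_floor_add_one _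
  have h2 : (n:ℝ) ≤ t / s := Nat.floor_le (by positivity)
  have h3 : t ≤ ((n:ℝ) + 1) * s := by
    rw [div_lt_iff₀ hs] at h1; exact h1.le
  calc p t ≤ p (((n:ℝ) + 1) * s) := hm ht (by simp only [Set.mem_Ici]; positivity) h3
    _ ≤ ((n:ℝ) + 1) * p s := hn n
    _ ≤ p s * (1 + t / s) := by nlinarith

lemma cmaj_le (p : ℝ → ℝ) (h0 : ∀ t, 0 ≤ t → 0 ≤ p t) (t : ℝ) (ht : 0 < t) :
    cmaj p t ≤ 2 * p t := by
  have h := ciInf_le (cmaj_bdd p h0 t ht.le) ⟨t, ht⟩
  refine h.trans (le_of_eq ?_)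
  simp only
  rw [div_self ht.ne']
  ring

/-- nondecreasing weights, `f ∈ L^1_{φ²}` -/
theorem fin_C (hC : S_COR) (φ : ℝ → ℝ) (hφ : IsWeight φ) (hmono : MonotoneOn φ (Set.Ici 0))
    (hdiv : ¬ IntegrableOn (fun t => Real.log (φ t) / (1 + t ^ 2)) (Set.Ioi 0))
    (f : ℝ → ℂ) (hf : InL1 (fun t => φ t ^ 2) f) (hA : Adm f) : Complete φ f := by
  obtain ⟨hφm, hφ1, hφs, hφl, -⟩ := hφ
  obtain ⟨hfm, -, hfi⟩ := hf
  have hpos : ∀ t, 0 < φ t := fun t => by linarith [hφ1 t]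
  set p : ℝ → ℝ := fun t => Real.log (φ t) with hp
  have hp0 : ∀ t, 0 ≤ p t := fun t => Real.log_nonneg (hφ1 t)
  have hpm : MonotoneOn p (Set.Ici 0) := fun s hs t ht hst =>
    Real.log_le_log (hpos s) (hmono hs ht hst)
  have hps : ∀ s t, p (s + t) ≤ p s + p t := fun s t => by
    rw [hp]; simp only
    rw [← Real.log_mul (hpos s).ne' (hpos t).ne']
    exact Real.log_le_log (hpos _) (hφs s t)
  have hc := cmaj_concave p (fun t _ => hp0 t)
  have hge := cmaj_ge p (fun t _ => hp0 t) hpm hps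
  have hle := cmaj_le p (fun t _ => hp0 t)
  have hqm : AEStronglyMeasurable (cmaj p) (volume.restrict (Set.Ioi 0)) := by
    have h1 := (wr_meas (cmaj p) hc 0).aestronglyMeasurable (μ := volume.restrict (Set.Ioi (0:ℝ)))
    refine h1.congr ?_
    filter_upwards [ae_restrict_mem measurableSet_Ioi] with t ht
    simp [le_of_lt (Set.mem_Ioi.1 ht)]
  refine fin_B hC φ hφ1 (cmaj p) 1 hc ?_ ?_ ?_ f hfm.restrict ?_ hA
  · have h2 : Tendsto (fun t : ℝ => 2 * (p t / t)) atTop (𝓝 (2 * 0)) := hφl.const_mul 2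
    rw [mul_zero] at h2
    refine squeeze_zero' ?_ ?_ h2
    · filter_upwards [eventually_gt_atTop 0] with t ht
      exact div_nonneg ((hp0 t).trans (hge t ht.le)) ht.le
    · filter_upwards [eventually_gt_atTop 0] with t ht
      rw [← mul_div_assoc]
      exact div_le_div_of_nonneg_right (hle t ht) ht.le
  · intro t ht
    rw [one_mul, ← Real.log_le_iff_le_exp (hpos t)]
    exact hge t ht
  · intro h
    apply hdiv
    refine Integrable.mono' h ?_ ?_
    · exact ((Real.measurable_log.comp hφm).div (by fun_prop)).aestronglyMeasurable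
    · filter_upwards [ae_restrict_mem measurableSet_Ioi] with t ht
      rw [Real.norm_of_nonneg (div_nonneg (hp0 t) (by positivity))]
      exact div_le_div_of_nonneg_right (hge t (le_of_lt ht)) (by positivity)
  · refine Integrable.mono' hfi ?_ ?_
    · exact hfm.restrict.norm.mul (Real.continuous_exp.comp_aestronglyMeasurable hqm)
    · filter_upwards [ae_restrict_mem measurableSet_Ioi] with t ht
      rw [Real.norm_of_nonneg (by positivity)]
      have h2 : Real.exp (cmaj p t) ≤ φ t ^ 2 := by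
        have h3 := Real.exp_le_exp.2 (hle t ht)
        have h4 : Real.exp (2 * p t) = φ t ^ 2 := by
          rw [two_mul, Real.exp_add, hp]
          simp only
          rw [Real.exp_log (hpos t), sq]
        rw [← h4]; exact h3
      exact mul_le_mul_of_nonneg_left h2 (norm_nonneg _)

end RtRt

end
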