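import Pool.Agent.H636R2.RT.Defs

open MeasureTheory Set Filter Topology Complex

noncomputable section

namespace RtRt


theorem hk_im (z₀ w : ℂ) (hw : ‖w‖ < 1) (hz : z₀.im < 0) :
    ((z₀ - (starRingEnd ℂ) z₀ * w) / (1 - w)).im < 0 := by
  have hne : (1 - w) ≠ 0 := by
    intro h
    have h1 : w = 1 := (sub_eq_zero.1 h).symm
    rw [h1, norm_one] at hw
    exact lt_irrefl _ hw
  have hpos : 0 < Complex.normSq (1 - w) := Complex.normSq_pos.2 hne
  have hw2 : Complex.normSq w < 1 := by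
    rw [Complex.normSq_eq_norm_sq]
    have := norm_nonneg w
    nlinarith
  have h1 : ((z₀ - (starRingEnd ℂ) z₀ * w) / (1 - w)).im = z₀.im * (1 - Complex.normSq w) /
      Complex.normSq (1 - w) := by
    rw [Complex.div_im]
    simp only [Complex.sub_im, Complex.sub_re, Complex.mul_im, Complex.mul_re, Complex.conj_re,
      Complex.conj_im, Complex.one_re, Complex.one_im, Complex.normSq_apply]
    field_simp
    ring
  rw [h1]
  refine div_neg_of_neg_of_pos ?_ hpos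
  exact mul_neg_of_neg_of_pos hz (by linarith)

theorem hk_gen (hHD : S_HD) (F : ℂ → ℂ) (hF : DifferentiableOn ℂ F {z | z.im < 0})
    (hF1 : ∀ z : ℂ, z.im < 0 → F z ≠ 0 ∧ ‖F z‖ ≤ 1) (z z₀ : ℂ) (hz : z.im < 0) (hz₀ : z₀.im < 0)
    (ρ : ℝ) (hρ : ρ = ‖(z - z₀) / (z - (starRingEnd ℂ) z₀)‖) (hρ1 : ρ < 1) :
    -Real.log ‖F z‖ ≤ (1 + ρ) / (1 - ρ) * (-Real.log ‖F z₀‖) := by
  set m : ℂ → ℂ := fun w => (z₀ - (starRingEnd ℂ) z₀ * w) / (1 - w) with hm
  have hmim : ∀ w ∈ Metric.ball (0:ℂ) 1, (m w).im < 0 := by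
    intro w hw
    exact hk_im z₀ w (by simpa using hw) hz₀
  have hmd : DifferentiableOn ℂ m (Metric.ball 0 1) := by
    intro w hw
    have hne : (1 - w) ≠ 0 := by
      intro h
      have h1 : w = 1 := (sub_eq_zero.1 h).symm
      have h2 : ‖w‖ < 1 := by simpa using hw
      rw [h1, norm_one] at h2
      exact lt_irrefl _ h2
    have : DifferentiableAt ℂ m w := by
      refine DifferentiableAt.div ?_ ?_ hne
      · fun_prop
      · fun_prop
    exact this.differentiableWithinAt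
  have hE : DifferentiableOn ℂ (F ∘ m) (Metric.ball 0 1) :=
    hF.comp hmd fun w hw => hmim w hw
  have hE1 : ∀ w ∈ Metric.ball (0:ℂ) 1, (F ∘ m) w ≠ 0 ∧ ‖(F ∘ m) w‖ ≤ 1 := fun w hw =>
    hF1 _ (hmim w hw)
  have hne : z - (starRingEnd ℂ) z₀ ≠ 0 := by
    intro h
    have := congrArg Complex.im h
    simp only [Complex.sub_im, Complex.conj_im, Complex.zero_im] at this
    linarith
  have hne2 : z₀ - (starRingEnd ℂ) z₀ ≠ 0 := by
    intro h
    have := congrArg Complex.im h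
    simp only [Complex.sub_im, Complex.conj_im, Complex.zero_im] at this
    linarith
  set w : ℂ := (z - z₀) / (z - (starRingEnd ℂ) z₀) with hw
  have hwb : w ∈ Metric.ball (0:ℂ) 1 := by
    simp only [mem_ball_zero_iff]
    rw [← hρ]
    exact hρ1
  have hmw : m w = z := by
    have h1 : 1 - w = (z₀ - (starRingEnd ℂ) z₀) / (z - (starRingEnd ℂ) z₀) := by
      rw [hw]
      field_simp
      ring
    have h2 : z₀ - (starRingEnd ℂ) z₀ * w = z * (z₀ - (starRingEnd ℂ) z₀) / (z - (starRingEnd ℂ) z₀) := by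
      rw [hw]
      field_simp
      ring
    show (z₀ - (starRingEnd ℂ) z₀ * w) / (1 - w) = z
    rw [h1, h2]
    field_simp
  have hm0 : m 0 = z₀ := by
    show (z₀ - (starRingEnd ℂ) z₀ * 0) / (1 - 0) = z₀
    simp
  have h := hHD 1 (F ∘ m) one_pos hE hE1 w hwb
  have h1 : (F ∘ m) w = F z := by
    show F (m w) = F z
    rw [hmw]
  have h2 : (F ∘ m) 0 = F z₀ := by
    show F (m 0) = F z₀
    rw [hm0]
  rw [h1, h2, ← hρ] at h
  exact h

theorem hk_vert (hHD : S_HD) (F : ℂ → ℂ) (hF : DifferentiableOn ℂ F {z | z.im < 0})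
    (hF1 : ∀ z : ℂ, z.im < 0 → F z ≠ 0 ∧ ‖F z‖ ≤ 1) (x a b y y' : ℝ) (ha : 0 < a) (hb : 0 < b)
    (hy : 0 < y) (hyy : y ≤ y') (hab : (a = y ∧ b = y') ∨ (a = y' ∧ b = y)) :
    -Real.log ‖F ⟨x, -a⟩‖ ≤ y' / y * (-Real.log ‖F ⟨x, -b⟩‖) := by
  have hy' : 0 < y' := lt_of_lt_of_le hy hyy
  have h1 : ((⟨x, -a⟩ : ℂ) - ⟨x, -b⟩) / ((⟨x, -a⟩ : ℂ) - (starRingEnd ℂ) ⟨x, -b⟩) =
      (((a - b) / (a + b) : ℝ) : ℂ) := by
    have h2 : ((⟨x, -a⟩ : ℂ) - ⟨x, -b⟩) = ((a - b : ℝ) : ℂ) * (-Complex.I) := by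
      apply Complex.ext <;> simp
      ring
    have h3 : ((⟨x, -a⟩ : ℂ) - (starRingEnd ℂ) ⟨x, -b⟩) = ((a + b : ℝ) : ℂ) * (-Complex.I) := by
      apply Complex.ext <;> simp
      ring
    rw [h2, h3, mul_div_mul_right _ _ (neg_ne_zero.2 Complex.I_ne_zero), Complex.ofReal_div]
  have h4 : ‖((⟨x, -a⟩ : ℂ) - ⟨x, -b⟩) / ((⟨x, -a⟩ : ℂ) - (starRingEnd ℂ) ⟨x, -b⟩)‖ =
      (y' - y) / (y' + y) := by
    rw [h1, Complex.norm_real, Real.norm_eq_abs, abs_div]
    rcases hab with ⟨h5, h6⟩ | ⟨h5, h6⟩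
    · rw [h5, h6, abs_of_nonpos (by linarith), abs_of_pos (by linarith)]
      congr 1 <;> ring
    · rw [h5, h6, abs_of_nonneg (by linarith), abs_of_pos (by linarith)]
  have h5 := hk_gen hHD F hF hF1 ⟨x, -a⟩ ⟨x, -b⟩ (by simpa using ha) (by simpa using hb)
    ((y' - y) / (y' + y)) h4.symm (by rw [div_lt_one (by linarith)]; linarith)
  have h6 : (1 + (y' - y) / (y' + y)) / (1 - (y' - y) / (y' + y)) = y' / y := by
    have h7 : y' + y ≠ 0 := by positivity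
    have h8 : 1 + (y' - y) / (y' + y) = 2 * y' / (y' + y) := by field_simp; ring
    have h9 : 1 - (y' - y) / (y' + y) = 2 * y / (y' + y) := by field_simp; ring
    rw [h8, h9]
    field_simp
  rw [h6] at h5
  exact h5

theorem rt_hk (hHD : S_HD) : S_HK := by
  intro F hF hF1
  refine ⟨?_, ?_⟩
  · intro x y hy
    set D : ℝ := x ^ 2 + (y + 1) ^ 2 with hD
    have hDpos : 0 < D := by positivity
    set ρ : ℝ := ‖((⟨x, -y⟩ : ℂ) - ⟨0, -1⟩) / ((⟨x, -y⟩ : ℂ) - (starRingEnd ℂ) ⟨0, -1⟩)‖ with hρ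
    have hρ0 : 0 ≤ ρ := norm_nonneg _
    have hρ2 : ρ ^ 2 = 1 - 4 * y / D := by
      rw [hρ, norm_div, div_pow, ← Complex.normSq_eq_norm_sq, ← Complex.normSq_eq_norm_sq,
        Complex.normSq_apply, Complex.normSq_apply]
      simp only [Complex.sub_re, Complex.sub_im, Complex.conj_re, Complex.conj_im]
      have h1 : (x - 0) * (x - 0) + (-y - - -1) * (-y - - -1) = D := by rw [hD]; ring
      have h2 : (x - 0) * (x - 0) + (-y - -1) * (-y - -1) = D - 4 * y := by rw [hD]; ring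
      rw [h1, h2]
      field_simp
    have hpos : 0 < 4 * y / D := by positivity
    have hρ1 : ρ < 1 := by nlinarith
    have h := hk_gen hHD F hF hF1 ⟨x, -y⟩ ⟨0, -1⟩ (by simpa using hy) (by norm_num) ρ hρ hρ1
    have hL : 0 ≤ -Real.log ‖F ⟨0, -1⟩‖ := by
      have h1 := (hF1 ⟨0, -1⟩ (by norm_num)).2
      have h2 := Real.log_nonpos (norm_nonneg _) h1
      linarith
    refine h.trans (mul_le_mul_of_nonneg_right ?_ hL)
    rw [div_le_div_iff₀ (by linarith) hy]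
    -- (1+ρ) y ≤ D (1-ρ)
    have h3 : D * ρ ^ 2 = D - 4 * y := by
      rw [hρ2]
      field_simp
    -- D (1-ρ)(1+ρ) = 4 y
    have h4 : D * (1 - ρ) * (1 + ρ) = 4 * y := by nlinarith
    have h5 : (1 + ρ) * (1 + ρ) * y ≤ 4 * y := by
      have : (1 + ρ) * (1 + ρ) ≤ 4 := by nlinarith
      nlinarith
    have h6 : (1 + ρ) * y * (1 + ρ) ≤ D * (1 - ρ) * (1 + ρ) := by nlinarith
    exact le_of_mul_le_mul_right h6 (by linarith)
  · intro x y y' hy hyy
    have hy' : 0 < y' := lt_of_lt_of_le hy hyy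
    exact ⟨hk_vert hHD F hF hF1 x y y' y y' hy hy' hy hyy (Or.inl ⟨rfl, rfl⟩),
      hk_vert hHD F hF hF1 x y' y y y' hy' hy hy hyy (Or.inr ⟨rfl, rfl⟩)⟩

end RtRt

end
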